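import Pool.Agent.Lib_helper39.MRG.Defs
import Pool.Agent.Lib_helper10.T2F.BAS
import Pool.Agent.Lib_helper10.T2F.MOM
import Pool.Agent.Lib_helper10.T2F.TJB

/-! block L2 of MRG, proved by helper39 -/

set_option autoImplicit false

namespace Pool.Agent.PENT.MRG

open Pool.Agent.T2 Filter Topology MeasureTheory

theorem l2_coef {g : G → ℝ} (hg : RG g) {m : G} (χ : MChar m) (z : G) :
    ‖(g z : ℂ) * χ.f z‖ ≤ 1 := by
  rw [norm_mul]
  calc ‖(g z : ℂ)‖ * ‖χ.f z‖ ≤ 1 * 1 :=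
        mul_le_mul (hg.norm z) (tjb_chi_le χ z) (norm_nonneg _) zero_le_one
    _ = 1 := by ring

theorem level_step_g_pr : ∃ C : ℝ, 1 ≤ C ∧ ∀ (g : G → ℝ), RG g → ∀ (m : G) (χ : MChar m)
    (Y K M M' α α' : ℝ)
    (B B' : Finset ℕ) (l : ℕ) (T : Finset ℤ), 1 ≤ M → M ≤ Y → 1 ≤ M' → 0 ≤ K → K ≤ Y →
    0 < α' → α' ≤ α → α ≤ 1 / 4 → Pset B' → (∀ p ∈ B', M' < (p : ℝ) ∧ (p : ℝ) ≤ 2 * M') →
    M ≤ M' ^ l → M' ^ l ≤ M * M' → T ⊆ Ks K → (∀ k ∈ T, ‖Qg g χ k B‖ ≤ M ^ (1 - α)) →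
    (∀ k ∈ T, M' ^ (1 - α') ≤ ‖Qg g χ k B'‖) →
      ∑ k ∈ T, ‖Qg g χ k B * Sg g χ k (Y / M)‖ ^ 2 ≤
        C * Y ^ 2 * M ^ (-(2 * (α - α'))) * M' ^ (2 * α') * C ^ l * l.factorial := by
  obtain ⟨C, hC1, hmom⟩ := moment
  refine ⟨4 * C, by linarith, ?_⟩
  intro g hg m χ Y K M M' α α' B B' l T hM hMY hM' hK hKY hα' hαα hα hB' hB'r hMl hMl' hT hTB hTB'
  have hM0 : 0 < M := by linarith
  have hM'0 : 0 < M' := by linarith
  have hY0 : 0 < Y := by linarith
  have hC0 : 0 < C := by linarith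
  -- pointwise
  set W : ℝ := M ^ (2 * (1 - α)) * (M' ^ (-(2 * (1 - α')))) ^ l with hW
  have hW0 : 0 ≤ W := by positivity
  have hx1 : 1 ≤ Y / M := by rwa [le_div_iff₀ hM0, one_mul]
  have hpt : ∀ k ∈ T, ‖Qg g χ k B * Sg g χ k (Y / M)‖ ^ 2 ≤
      W * ‖(Qg g χ k B') ^ l * Sg g χ k (Y / M)‖ ^ 2 := by
    intro k hk
    have h1 : ‖Qg g χ k B‖ ^ 2 ≤ M ^ (2 * (1 - α)) := by
      have h := pow_le_pow_left₀ (norm_nonneg _) (hTB k hk) 2
      refine h.trans (le_of_eq ?_)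
      rw [← Real.rpow_natCast, ← Real.rpow_mul hM0.le]
      congr 1
      push_cast
      ring
    have h2 : 1 ≤ (M' ^ (-(2 * (1 - α')))) ^ l * ‖(Qg g χ k B') ^ l‖ ^ 2 := by
      have h3 : 1 ≤ M' ^ (-(2 * (1 - α'))) * ‖Qg g χ k B'‖ ^ 2 := by
        have h := pow_le_pow_left₀ (by positivity) (hTB' k hk) 2
        have h4 : (M' ^ (1 - α')) ^ 2 = M' ^ (2 * (1 - α')) := by
          rw [← Real.rpow_natCast, ← Real.rpow_mul hM'0.le]
          congr 1
          push_cast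
          ring
        rw [h4] at h
        calc (1 : ℝ) = M' ^ (-(2 * (1 - α'))) * M' ^ (2 * (1 - α')) := by
              rw [← Real.rpow_add hM'0]
              simp
          _ ≤ _ := mul_le_mul_of_nonneg_left h (by positivity)
      rw [norm_pow, ← pow_mul, mul_comm l 2, pow_mul, ← mul_pow]
      exact one_le_pow₀ h3
    rw [norm_mul, norm_mul, mul_pow, mul_pow]
    calc ‖Qg g χ k B‖ ^ 2 * ‖Sg g χ k (Y / M)‖ ^ 2
        ≤ M ^ (2 * (1 - α)) * ‖Sg g χ k (Y / M)‖ ^ 2 :=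
          mul_le_mul_of_nonneg_right h1 (by positivity)
      _ = (M ^ (2 * (1 - α)) * ‖Sg g χ k (Y / M)‖ ^ 2) * 1 := by ring
      _ ≤ (M ^ (2 * (1 - α)) * ‖Sg g χ k (Y / M)‖ ^ 2) *
          ((M' ^ (-(2 * (1 - α')))) ^ l * ‖(Qg g χ k B') ^ l‖ ^ 2) :=
          mul_le_mul_of_nonneg_left h2 (by positivity)
      _ = _ := by rw [hW]; ring
  -- the moment
  have hm := hmom K (Y / M) M' B' (fun p => (g (pel p) : ℂ) * χ.f (pel p)) (fun z => (g z : ℂ) * χ.f z) l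
    hK hx1 hM' hB' hB'r (fun p => l2_coef hg χ _) (by
      intro z
      rw [norm_mul, Complex.norm_real, Real.norm_eq_abs]
      calc |g z| * ‖χ.f z‖ ≤ 1 * 1 :=
            mul_le_mul (hg.abs z) (tjb_chi_le χ z) (norm_nonneg _) zero_le_one
        _ = 1 := by ring)
  have hrw : ∀ k : ℤ, (∑ p ∈ B', ((g (pel p) : ℂ) * χ.f (pel p)) * ang k (pel p)) ^ l *
      ∑ z ∈ PB (Y / M), ((g z : ℂ) * χ.f z) * ang k z =
      (Qg g χ k B') ^ l * Sg g χ k (Y / M) := by
    intro k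
    unfold Qg Sg xi
    congr 1
    · congr 1
      refine Finset.sum_congr rfl (fun z _ => ?_)
      ring
    · refine Finset.sum_congr rfl (fun z _ => ?_)
      ring
  simp only [hrw] at hm
  set N : ℝ := Y / M * (2 * M') ^ l with hN
  have hNY : Y ≤ N := by
    have h1 : M ≤ (2 * M') ^ l := by
      refine hMl.trans (pow_le_pow_left₀ hM'0.le (by linarith) l)
    calc Y = Y / M * M := by field_simp
      _ ≤ Y / M * (2 * M') ^ l := mul_le_mul_of_nonneg_left h1 (by positivity)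
  have hN0 : 0 < N := by linarith
  have hsum : ∑ k ∈ T, ‖Qg g χ k B * Sg g χ k (Y / M)‖ ^ 2 ≤
      W * (2 * C * N ^ 2 * C ^ l * l.factorial) := by
    calc ∑ k ∈ T, ‖Qg g χ k B * Sg g χ k (Y / M)‖ ^ 2
        ≤ ∑ k ∈ T, W * ‖(Qg g χ k B') ^ l * Sg g χ k (Y / M)‖ ^ 2 := Finset.sum_le_sum hpt
      _ ≤ ∑ k ∈ Ks K, W * ‖(Qg g χ k B') ^ l * Sg g χ k (Y / M)‖ ^ 2 :=
          Finset.sum_le_sum_of_subset_of_nonneg hT (fun k _ _ => by positivity)
      _ = W * ∑ k ∈ Ks K, ‖(Qg g χ k B') ^ l * Sg g χ k (Y / M)‖ ^ 2 := by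
          rw [Finset.mul_sum]
      _ ≤ W * (C * (K + N) * N * C ^ l * l.factorial) :=
          mul_le_mul_of_nonneg_left hm hW0
      _ ≤ W * (2 * C * N ^ 2 * C ^ l * l.factorial) := by
          refine mul_le_mul_of_nonneg_left ?_ hW0
          have h1 : C * (K + N) * N ≤ 2 * C * N ^ 2 := by
            have : K + N ≤ 2 * N := by linarith
            calc C * (K + N) * N ≤ C * (2 * N) * N := by
                  refine mul_le_mul_of_nonneg_right ?_ hN0.le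
                  exact mul_le_mul_of_nonneg_left this hC0.le
              _ = _ := by ring
          refine mul_le_mul_of_nonneg_right ?_ (by positivity)
          exact mul_le_mul_of_nonneg_right h1 (by positivity)
  -- the exponents
  have hWN : W * N ^ 2 ≤ Y ^ 2 * M ^ (-(2 * (α - α'))) * M' ^ (2 * α') * 4 ^ l := by
    have e1 : M ^ (2 * (1 - α)) = M ^ 2 * M ^ (-(2 * α)) := by
      rw [← Real.rpow_natCast, ← Real.rpow_add hM0]
      congr 1
      push_cast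
      ring
    have e2 : (M' ^ (-(2 * (1 - α')))) ^ l * (M' ^ l) ^ 2 = (M' ^ l) ^ (2 * α') := by
      have : (M' ^ (-(2 * (1 - α')))) ^ l = (M' ^ l) ^ (-(2 * (1 - α'))) := by
        rw [← Real.rpow_natCast, ← Real.rpow_mul hM'0.le, ← Real.rpow_natCast M' l,
          ← Real.rpow_mul hM'0.le, mul_comm]
      rw [this, ← Real.rpow_natCast (M' ^ l) 2, ← Real.rpow_add (by positivity)]
      congr 1
      push_cast
      ring
    have e3 : (M' ^ l) ^ (2 * α') ≤ M ^ (2 * α') * M' ^ (2 * α') := by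
      rw [← Real.mul_rpow hM0.le hM'0.le]
      exact Real.rpow_le_rpow (by positivity) hMl' (by positivity)
    have e4 : M ^ (-(2 * (α - α'))) = M ^ (-(2 * α)) * M ^ (2 * α') := by
      rw [← Real.rpow_add hM0]
      congr 1
      ring
    have e5 : W * N ^ 2 = Y ^ 2 * M ^ (-(2 * α)) * ((M' ^ (-(2 * (1 - α')))) ^ l * (M' ^ l) ^ 2) *
        4 ^ l := by
      rw [hW, hN, e1, mul_pow, mul_pow, div_pow]
      have : ((2 : ℝ) ^ l) ^ 2 = 4 ^ l := by
        rw [← pow_mul, mul_comm, pow_mul]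
        norm_num
      rw [mul_pow, this]
      field_simp
    rw [e5, e2, e4]
    have h5 : Y ^ 2 * M ^ (-(2 * α)) * (M' ^ l) ^ (2 * α') * 4 ^ l ≤
        Y ^ 2 * M ^ (-(2 * α)) * (M ^ (2 * α') * M' ^ (2 * α')) * 4 ^ l := by
      refine mul_le_mul_of_nonneg_right ?_ (by positivity)
      exact mul_le_mul_of_nonneg_left e3 (by positivity)
    refine h5.trans (le_of_eq ?_)
    ring
  refine hsum.trans ?_
  calc W * (2 * C * N ^ 2 * C ^ l * l.factorial)
      = (W * N ^ 2) * (2 * C * C ^ l * l.factorial) := by ring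
    _ ≤ (Y ^ 2 * M ^ (-(2 * (α - α'))) * M' ^ (2 * α') * 4 ^ l) *
        (2 * C * C ^ l * l.factorial) := mul_le_mul_of_nonneg_right hWN (by positivity)
    _ ≤ (Y ^ 2 * M ^ (-(2 * (α - α'))) * M' ^ (2 * α') * 4 ^ l) *
        (4 * C * C ^ l * l.factorial) := by
        refine mul_le_mul_of_nonneg_left ?_ (by positivity)
        refine mul_le_mul_of_nonneg_right ?_ (by positivity)
        refine mul_le_mul_of_nonneg_right ?_ (by positivity)
        linarith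
    _ = _ := by
        rw [mul_pow]
        ring


theorem level_step_g : type_of% @level_step_g_pr := @level_step_g_pr

end Pool.Agent.PENT.MRG
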