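import Pool.Agent.Lib_helper39.MRG.Defs
import Pool.Agent.Lib_helper10.T2F.BAS
import Pool.Agent.Lib_helper10.T2F.CNT
import Pool.Agent.Lib_helper10.T2F.LSG
import Pool.Agent.Lib_helper10.T2F.TJA

/-! block L1 of MRG, proved by helper39 -/

set_option autoImplicit false

namespace Pool.Agent.PENT.MRG

open Pool.Agent.T2 Filter Topology MeasureTheory

theorem l1_Sg : ∃ C : ℝ, 1 ≤ C ∧ ∀ (g : G → ℝ), RG g → ∀ (m : G) (χ : MChar m) (K x : ℝ), 0 ≤ K → K ≤ x → 1 ≤ x →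
    ∑ k ∈ Ks K, ‖Sg g χ k x‖ ^ 2 ≤ C * x ^ 2 := by
  obtain ⟨C₁, hC₁, h₁⟩ := large_sieve
  obtain ⟨C₂, hC₂, h₂⟩ := ball_le
  refine ⟨2 * C₁ * C₂, by nlinarith, ?_⟩
  intro g hg m χ K x hK hKx hx
  have h := h₁ K x hK hx (fun z => (g z : ℂ) * χ.f z)
  have e : ∀ k, Sg g χ k x = ∑ z ∈ PB x, ((g z : ℂ) * χ.f z) * ang k z := by
    intro k
    unfold Sg xi
    exact Finset.sum_congr rfl fun z _ => by ring
  simp only [e]
  refine h.trans ?_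
  have hc : ∑ z ∈ PB x, ‖(g z : ℂ) * χ.f z‖ ^ 2 ≤ C₂ * x := by
    calc ∑ z ∈ PB x, ‖(g z : ℂ) * χ.f z‖ ^ 2 ≤ ∑ z ∈ PB x, (1 : ℝ) := by
          refine Finset.sum_le_sum fun z _ => ?_
          have h1 : ‖(g z : ℂ)‖ ≤ 1 := by
            rw [Complex.norm_real]; exact hg.abs z
          have h2 := tja_chi_le χ z
          rw [norm_mul]
          have h3 := mul_le_mul h1 h2 (norm_nonneg _) zero_le_one
          rw [one_mul] at h3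
          exact pow_le_one₀ (by positivity) h3
      _ = ((PB x).card : ℝ) := by simp
      _ ≤ ((Bl x).card : ℝ) := by
          have hsub : PB x ⊆ Bl x := by
            intro z hz
            rw [mem_PB] at hz
            rw [mem_Bl]
            exact ⟨prm_ne hz.1, hz.2⟩
          exact_mod_cast Finset.card_le_card hsub
      _ ≤ C₂ * x := h₂ x (by linarith)
  have h0 : 0 ≤ C₁ * (K + x) := by
    have : 0 ≤ K + x := by linarith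
    positivity
  calc C₁ * (K + x) * ∑ z ∈ PB x, ‖(g z : ℂ) * χ.f z‖ ^ 2 ≤ C₁ * (K + x) * (C₂ * x) :=
        mul_le_mul_of_nonneg_left hc h0
    _ ≤ C₁ * (x + x) * (C₂ * x) := by
        have h1 : C₁ * (K + x) ≤ C₁ * (x + x) :=
          mul_le_mul_of_nonneg_left (by linarith) (by linarith)
        have h2 : 0 ≤ C₂ * x := by positivity
        exact mul_le_mul_of_nonneg_right h1 h2
    _ = 2 * C₁ * C₂ * x ^ 2 := by ring

theorem level_one_g_pr : ∃ C : ℝ, 1 ≤ C ∧ ∀ (g : G → ℝ), RG g → ∀ (m : G) (χ : MChar m)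
    (Y H ρ P Q α : ℝ) (B : Finset ℕ)
    (V : ℕ) (T : Finset ℤ), 1 ≤ Y → 1 < ρ → ρ ≤ 2 → 0 < α → α ≤ 1 / 4 → 2 ≤ P → Q ≤ H → H ≤ Y →
    Pset B → (∀ p ∈ B, P < (p : ℝ) ∧ (p : ℝ) ≤ Q ∧ (p : ℝ) ≤ ρ ^ V) → T ⊆ Ks (Y / H) →
    (∀ k ∈ T, ∀ v < V, ‖Qg g χ k (blk ρ v B)‖ ≤ (ρ ^ v) ^ (1 - α)) →
      ∑ k ∈ T, ‖∑ v ∈ Finset.range V, Qg g χ k (blk ρ v B) * Sg g χ k (Y / ρ ^ v)‖ ^ 2 ≤
        C * Y ^ 2 * (P ^ (-α) / (α * (ρ - 1))) ^ 2 := by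
  classical
  obtain ⟨C₁, hC₁, h₁⟩ := l1_Sg
  refine ⟨64 * C₁, by linarith, ?_⟩
  intro g hg m χ Y H ρ P Q α B V T hY hρ hρ2 hα hα1 hP hQH hHY _hB hBp hT hTk
  have hρ0 : (0 : ℝ) < ρ := by linarith
  set S : Finset ℕ := (Finset.range V).filter (fun v => (blk ρ v B).Nonempty) with hSdef
  -- the facts on nonempty blocks
  have hS : ∀ v ∈ S, v < V ∧ P / 2 ≤ ρ ^ v ∧ 0 < H ∧ (ρ ^ v : ℝ) ≤ H := by
    intro v hv
    rw [hSdef, Finset.mem_filter, Finset.mem_range] at hv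
    obtain ⟨hvV, p, hp⟩ := hv
    unfold blk at hp
    rw [Finset.mem_filter] at hp
    obtain ⟨hpB, hp1, hp2⟩ := hp
    obtain ⟨hpP, hpQ, _⟩ := hBp p hpB
    have h2 : (ρ ^ (v + 1) : ℝ) ≤ 2 * ρ ^ v := by
      rw [pow_succ]
      have : (0 : ℝ) < ρ ^ v := by positivity
      nlinarith
    refine ⟨hvV, by linarith, by linarith, by linarith⟩
  have hSum : ∀ k ∈ T, ‖∑ v ∈ Finset.range V, Qg g χ k (blk ρ v B) * Sg g χ k (Y / ρ ^ v)‖ ^ 2 ≤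
      (∑ v ∈ S, (ρ ^ v : ℝ) ^ (-α)) *
        ∑ v ∈ S, (ρ ^ v : ℝ) ^ (2 - α) * ‖Sg g χ k (Y / ρ ^ v)‖ ^ 2 := by
    intro k hk
    have e1 : ∑ v ∈ Finset.range V, Qg g χ k (blk ρ v B) * Sg g χ k (Y / ρ ^ v) =
        ∑ v ∈ S, Qg g χ k (blk ρ v B) * Sg g χ k (Y / ρ ^ v) := by
      rw [hSdef, Finset.sum_filter]
      refine Finset.sum_congr rfl fun v _ => ?_
      split_ifs with h
      · rfl
      · rw [Finset.not_nonempty_iff_eq_empty] at h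
        rw [h]
        simp [Qg]
    rw [e1]
    have e2 : ‖∑ v ∈ S, Qg g χ k (blk ρ v B) * Sg g χ k (Y / ρ ^ v)‖ ≤
        ∑ v ∈ S, (ρ ^ v : ℝ) ^ (1 - α) * ‖Sg g χ k (Y / ρ ^ v)‖ := by
      refine (norm_sum_le _ _).trans (Finset.sum_le_sum fun v hv => ?_)
      rw [norm_mul]
      exact mul_le_mul_of_nonneg_right (hTk k hk v (hS v hv).1) (norm_nonneg _)
    refine (pow_le_pow_left₀ (norm_nonneg _) e2 2).trans ?_
    refine Finset.sum_sq_le_sum_mul_sum_of_sq_le_mul S (fun v _ => by positivity)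
      (fun v _ => by positivity) (fun v _ => le_of_eq ?_)
    have hpv : (0 : ℝ) < ρ ^ v := by positivity
    have e3 : (ρ ^ v : ℝ) ^ (-α) * (ρ ^ v : ℝ) ^ (2 - α) = ((ρ ^ v : ℝ) ^ (1 - α)) ^ 2 := by
      rw [← Real.rpow_add hpv, ← Real.rpow_natCast ((ρ ^ v : ℝ) ^ (1 - α)) 2,
        ← Real.rpow_mul hpv.le]
      congr 1
      push_cast
      ring
    rw [mul_pow, ← e3]
    ring
  set W : ℝ := ∑ v ∈ S, (ρ ^ v : ℝ) ^ (-α) with hW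
  have hW0 : 0 ≤ W := Finset.sum_nonneg fun v _ => by positivity
  have hWle : W ≤ 8 * (P ^ (-α) / (α * (ρ - 1))) :=
    tja_geom hρ hρ2 hα hα1 hP V S fun v hv => ⟨(hS v hv).1, (hS v hv).2.1⟩
  have hv2 : ∀ v ∈ S, (ρ ^ v : ℝ) ^ (2 - α) * ∑ k ∈ T, ‖Sg g χ k (Y / ρ ^ v)‖ ^ 2 ≤
      C₁ * Y ^ 2 * (ρ ^ v : ℝ) ^ (-α) := by
    intro v hv
    obtain ⟨_, _, hH0, hvH⟩ := hS v hv
    have hpv : (0 : ℝ) < ρ ^ v := by positivity
    have hY0 : (0 : ℝ) < Y := by linarith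
    have h1 : ∑ k ∈ T, ‖Sg g χ k (Y / ρ ^ v)‖ ^ 2 ≤ C₁ * (Y / ρ ^ v) ^ 2 := by
      refine (Finset.sum_le_sum_of_subset_of_nonneg hT fun k _ _ => by positivity).trans ?_
      refine h₁ g hg m χ (Y / H) (Y / ρ ^ v) (by positivity) ?_ ?_
      · exact div_le_div_of_nonneg_left hY0.le hpv hvH
      · rw [le_div_iff₀ hpv]; linarith
    have e3 : (ρ ^ v : ℝ) ^ (2 - α) = (ρ ^ v : ℝ) ^ (-α) * (ρ ^ v) ^ 2 := by
      rw [← Real.rpow_natCast (ρ ^ v) 2, ← Real.rpow_add hpv]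
      congr 1
      push_cast
      ring
    calc (ρ ^ v : ℝ) ^ (2 - α) * ∑ k ∈ T, ‖Sg g χ k (Y / ρ ^ v)‖ ^ 2
        ≤ (ρ ^ v : ℝ) ^ (2 - α) * (C₁ * (Y / ρ ^ v) ^ 2) :=
          mul_le_mul_of_nonneg_left h1 (by positivity)
      _ = C₁ * Y ^ 2 * (ρ ^ v : ℝ) ^ (-α) := by
          rw [e3]
          field_simp
  calc ∑ k ∈ T, ‖∑ v ∈ Finset.range V, Qg g χ k (blk ρ v B) * Sg g χ k (Y / ρ ^ v)‖ ^ 2
      ≤ ∑ k ∈ T, W * ∑ v ∈ S, (ρ ^ v : ℝ) ^ (2 - α) * ‖Sg g χ k (Y / ρ ^ v)‖ ^ 2 :=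
        Finset.sum_le_sum hSum
    _ = W * ∑ v ∈ S, (ρ ^ v : ℝ) ^ (2 - α) * ∑ k ∈ T, ‖Sg g χ k (Y / ρ ^ v)‖ ^ 2 := by
        rw [← Finset.mul_sum, Finset.sum_comm]
        congr 1
        exact Finset.sum_congr rfl fun v _ => by rw [Finset.mul_sum]
    _ ≤ W * ∑ v ∈ S, C₁ * Y ^ 2 * (ρ ^ v : ℝ) ^ (-α) :=
        mul_le_mul_of_nonneg_left (Finset.sum_le_sum hv2) hW0
    _ = C₁ * Y ^ 2 * W ^ 2 := by
        rw [← Finset.mul_sum, ← hW]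
        ring
    _ ≤ C₁ * Y ^ 2 * (8 * (P ^ (-α) / (α * (ρ - 1)))) ^ 2 := by
        refine mul_le_mul_of_nonneg_left (pow_le_pow_left₀ hW0 hWle 2) ?_
        have : 0 ≤ C₁ := by linarith
        positivity
    _ = 64 * C₁ * Y ^ 2 * (P ^ (-α) / (α * (ρ - 1))) ^ 2 := by ring


theorem level_one_g : type_of% @level_one_g_pr := @level_one_g_pr

end Pool.Agent.PENT.MRG
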