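import Pool.Agent.Lib_helper39.MRG.Defs
import Pool.Agent.Lib_helper10.T2F.LEV
import Pool.Agent.Lib_helper10.T2F.HMO
import Pool.Agent.Lib_helper10.T2F.LSG
import Pool.Agent.Lib_helper10.T2F.MER
import Pool.Agent.Lib_helper10.T2F.MRT
import Pool.Agent.Lib_helper10.T2F.PEL
import Pool.Agent.Lib_helper10.T2F.PHM
import Pool.Agent.Lib_helper10.T2F.PTW
import Pool.Agent.Lib_helper10.T2F.SPA
import Pool.Agent.Lib_helper10.T2F.TFO
import Pool.Agent.Lib_helper10.T2F.SUK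
import Pool.Agent.Lib_helper10.T2F.TJA
import Pool.Agent.Lib_helper10.T2F.TJB
import Pool.Agent.Lib_helper10.T2F.TKA
import Pool.Agent.Lib_helper10.T2F.TKR
import Pool.Agent.Lib_helper10.T2F.TKV
import Pool.Agent.Lib_helper10.T2F.UCD
import Pool.Agent.Lib_helper10.T2F.BPR
import Pool.Agent.Lib_helper10.T2F.CNT
import Pool.Agent.Lib_helper39.MRGF.L1
import Pool.Agent.Lib_helper39.MRGF.L2
import Pool.Agent.Lib_helper39.MRGF.L3
import Pool.Agent.Lib_helper39.MRGF.T1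

/-! block L4 of MRG, proved by helper32 -/

/-!
# MRG, block L4: typical frequencies for all real completely multiplicative functions
(MP_892e4c_nt; port of `Pool.Agent.Lib_helper10.T2F.LEV`)
-/

set_option autoImplicit false

namespace Pool.Agent.PENT.MRG

open Pool.Agent.T2 Filter Topology MeasureTheory

/-- the first estimate: error term and main term -/
theorem l4_A : ∃ C : ℝ, 1 ≤ C ∧ ∀ (g : G → ℝ), RG g → ∀ (m : G) (χ : MChar m) (Y ρ P : ℝ) (B : Finset ℕ) (V : ℕ)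
    (T : Finset ℤ), 1 ≤ Y → 1 < ρ → ρ ≤ 2 → Y ^ (-(1 / 16) : ℝ) ≤ ρ - 1 → 2 ≤ P → Pset B →
    (∀ p ∈ B, P < (p : ℝ) ∧ (p : ℝ) ≤ Y ^ (1 / 4 : ℝ) ∧ (p : ℝ) ≤ ρ ^ V) → 1 ≤ rs B →
    T ⊆ Ks Y →
    ∑ k ∈ T, ‖Sg g χ k Y‖ ^ 2 ≤ C * Y ^ 2 * (1 / rs B + (ρ - 1)) +
      2 * ∑ k ∈ T, ‖∑ v ∈ Finset.range V, Qg g χ k (blk ρ v B) * Sg g χ k (Y / ρ ^ v)‖ ^ 2 := by
  obtain ⟨C₁, hC₁, h1⟩ := tk_rep_g
  obtain ⟨C₂, hC₂, h2⟩ := large_sieve
  refine ⟨18 * C₁ * C₂, by nlinarith, ?_⟩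
  intro g hg m χ Y ρ P B V T hY hρ hρ2 hYρ hP hB hBp hrs hT
  obtain ⟨c, hc, hrep⟩ := h1 g hg m χ Y ρ P B V hY hρ hρ2 hYρ hP hB hBp hrs
  have hls := h2 Y (2 * Y) (by linarith) (by linarith) c
  have hlogP : (1 / 2 : ℝ) ≤ Real.log P := by
    have : Real.log 2 ≤ Real.log P := Real.log_le_log (by norm_num) hP
    have := Real.log_two_gt_d9
    linarith
  have hrs0 : 0 < rs B := by linarith
  have h3 : 1 / (rs B ^ 2 * Real.log P) ≤ 2 * (1 / rs B) := by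
    rw [div_le_iff₀ (by positivity)]
    have : 2 * (1 / rs B) * (rs B ^ 2 * Real.log P) = 2 * rs B * Real.log P := by field_simp
    rw [this]
    nlinarith
  have h4 : ∑ k ∈ T, ‖∑ z ∈ PB (2 * Y), c z * ang k z‖ ^ 2 ≤
      9 * C₁ * C₂ * Y ^ 2 * (1 / rs B + (ρ - 1)) := by
    calc ∑ k ∈ T, ‖∑ z ∈ PB (2 * Y), c z * ang k z‖ ^ 2
        ≤ ∑ k ∈ Ks Y, ‖∑ z ∈ PB (2 * Y), c z * ang k z‖ ^ 2 :=
          Finset.sum_le_sum_of_subset_of_nonneg hT (fun _ _ _ => by positivity)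
      _ ≤ C₂ * (Y + 2 * Y) * ∑ z ∈ PB (2 * Y), ‖c z‖ ^ 2 := hls
      _ ≤ C₂ * (Y + 2 * Y) * (C₁ * Y * (1 / rs B + (ρ - 1) + 1 / (rs B ^ 2 * Real.log P))) := by
          gcongr
      _ ≤ C₂ * (Y + 2 * Y) * (C₁ * Y * (1 / rs B + (ρ - 1) + 2 * (1 / rs B))) := by
          gcongr
      _ ≤ C₂ * (Y + 2 * Y) * (C₁ * Y * (3 * (1 / rs B + (ρ - 1)))) := by
          gcongr
          linarith
      _ = _ := by ring
  have h5 : ∀ k, ‖Sg g χ k Y‖ ^ 2 ≤ 2 * ‖∑ z ∈ PB (2 * Y), c z * ang k z‖ ^ 2 +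
      2 * ‖∑ v ∈ Finset.range V, Qg g χ k (blk ρ v B) * Sg g χ k (Y / ρ ^ v)‖ ^ 2 := by
    intro k
    have h6 := hrep k
    set S := ∑ v ∈ Finset.range V, Qg g χ k (blk ρ v B) * Sg g χ k (Y / ρ ^ v) with hS
    set R := ∑ z ∈ PB (2 * Y), c z * ang k z with hR
    have h7 : Sg g χ k Y = R + (1 / (rs B : ℂ)) * S := by rw [← h6]; ring
    have h8 : ‖(1 / (rs B : ℂ)) * S‖ ≤ ‖S‖ := by
      rw [norm_mul]
      have : ‖(1 / (rs B : ℂ))‖ ≤ 1 := by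
        rw [norm_div, norm_one, Complex.norm_real, Real.norm_of_nonneg hrs0.le,
          div_le_one hrs0]
        exact hrs
      nlinarith [norm_nonneg S]
    have h9 : ‖Sg g χ k Y‖ ≤ ‖R‖ + ‖S‖ := by
      rw [h7]
      exact (norm_add_le _ _).trans (by linarith)
    have := norm_nonneg R
    have := norm_nonneg S
    have := norm_nonneg (Sg g χ k Y)
    nlinarith [sq_nonneg (‖R‖ - ‖S‖)]
  calc ∑ k ∈ T, ‖Sg g χ k Y‖ ^ 2
      ≤ ∑ k ∈ T, (2 * ‖∑ z ∈ PB (2 * Y), c z * ang k z‖ ^ 2 +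
      2 * ‖∑ v ∈ Finset.range V, Qg g χ k (blk ρ v B) * Sg g χ k (Y / ρ ^ v)‖ ^ 2) :=
        Finset.sum_le_sum (fun k _ => h5 k)
    _ = 2 * ∑ k ∈ T, ‖∑ z ∈ PB (2 * Y), c z * ang k z‖ ^ 2 + 2 * ∑ k ∈ T,
      ‖∑ v ∈ Finset.range V, Qg g χ k (blk ρ v B) * Sg g χ k (Y / ρ ^ v)‖ ^ 2 := by
        rw [Finset.sum_add_distrib, Finset.mul_sum, Finset.mul_sum]
    _ ≤ _ := by nlinarith [h4]

theorem l4_Qg_empty (g : G → ℝ) {m : G} (χ : MChar m) (k : ℤ) : Qg g χ k ∅ = 0 := by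
  simp [Qg]

/-- the estimate on the levels from the second one on -/
theorem l4_C : ∃ C : ℝ, 1 ≤ C ∧ ∀ (g : G → ℝ), RG g → ∀ (m : G) (χ : MChar m) (Y K E ρ ρ' a a' : ℝ)
    (B B' : Finset ℕ) (V V' : ℕ) (T : Finset ℤ), C ≤ E → 0 ≤ K → K ≤ Y → Real.exp (E ^ 8) ≤ Y →
    1 < ρ → ρ ≤ 2 → 1 < ρ' → ρ' ≤ 2 → 0 < a' → a' ≤ a → a ≤ 1 / 4 → Pset B → Pset B' →
    (∀ p ∈ B, Real.exp (E ^ 4) < (p : ℝ) ∧ (p : ℝ) ≤ Real.exp (E ^ 8)) →
    (∀ p ∈ B', Real.exp E < (p : ℝ) ∧ (p : ℝ) ≤ Real.exp (E ^ 2)) →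
    64 * Real.log E ≤ (a - a') * E → 4 ≤ (a - a') * E ^ 2 → T ⊆ Ks K →
    (∀ k ∈ T, ∀ v < V, ‖Qg g χ k (blk ρ v B)‖ ≤ (ρ ^ v) ^ (1 - a)) →
    (∀ k ∈ T, ∃ u < V', (ρ' ^ u) ^ (1 - a') < ‖Qg g χ k (blk ρ' u B')‖) →
      ∑ k ∈ T, ‖∑ v ∈ Finset.range V, Qg g χ k (blk ρ v B) * Sg g χ k (Y / ρ ^ v)‖ ^ 2 ≤
        C * Y ^ 2 * ((V : ℝ) ^ 2 * V') * Real.exp (-E ^ 2) := by
  obtain ⟨C, hC, hstep⟩ := level_step_g
  refine ⟨8 * C, by linarith, ?_⟩
  intro g hg m χ Y K E ρ ρ' a a' B B' V V' T hE hK0 hKY hEY hρ hρ2 hρ' hρ2' ha' haa' ha hB hB' hBp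
    hBp' hg1 hg2 hT hgood hbad
  classical
  have hE8 : 8 ≤ E := by linarith
  have hE0 : 0 < E := by linarith
  have hY0 : 0 < Y := lt_of_lt_of_le (Real.exp_pos _) hEY
  have hE2 : 64 ≤ E ^ 2 := by nlinarith
  have hE4 : E ^ 4 = E ^ 2 * E ^ 2 := by ring
  -- one term
  have key : ∀ v < V, ∀ u < V', ∑ k ∈ T.filter (fun k => (ρ' ^ u) ^ (1 - a') <
      ‖Qg g χ k (blk ρ' u B')‖), ‖Qg g χ k (blk ρ v B) * Sg g χ k (Y / ρ ^ v)‖ ^ 2 ≤
      C * Y ^ 2 * Real.exp (-E ^ 2) := by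
    intro v hv u hu
    by_cases h1 : (blk ρ v B).Nonempty
    swap
    · rw [Finset.not_nonempty_iff_eq_empty] at h1
      rw [h1]
      simp only [l4_Qg_empty, zero_mul, norm_zero]
      rw [Finset.sum_eq_zero (fun _ _ => by norm_num)]
      positivity
    by_cases h2 : (blk ρ' u B').Nonempty
    swap
    · rw [Finset.not_nonempty_iff_eq_empty] at h2
      rw [h2]
      simp only [l4_Qg_empty, norm_zero]
      rw [Finset.filter_false_of_mem, Finset.sum_empty]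
      · positivity
      · intro k hk
        have : 0 < (ρ' ^ u) ^ (1 - a') := by positivity
        linarith
    obtain ⟨hA1, hA2, hA3⟩ := lev_blk hρ hρ2 hBp h1
    obtain ⟨hb1, hb2, hb3⟩ := lev_blk hρ' hρ2' hBp' h2
    set A := (v : ℝ) * Real.log ρ with hAdef
    set b := (u : ℝ) * Real.log ρ' with hbdef
    have hb4 : E / 2 ≤ b := by linarith
    have hb0 : 0 < b := by linarith
    have hA4 : E ^ 4 / 2 ≤ A := by
      have : (2 : ℝ) ≤ E ^ 4 := by rw [hE4]; nlinarith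
      linarith
    have hbA : b ≤ A := by
      have : E ^ 2 ≤ E ^ 4 / 2 := by rw [hE4]; nlinarith
      linarith
    have hA0 : 0 < A := by linarith
    obtain ⟨hp1, hp2⟩ := lev_pow hb0 hA0.le
    have hfac := lev_fac 7 hC (by linarith : 4 * C ≤ E) hb4 hbA (by norm_num; exact hA2)
    set l := ⌈A / b⌉₊ with hl
    rw [← hA3, ← hb3] at hp2
    rw [← hb3, ← hA3] at hp1
    have h3 := hstep g hg m χ Y K (ρ ^ v) (ρ' ^ u) a a' (blk ρ v B) (blk ρ' u B') l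
      (T.filter (fun k => (ρ' ^ u) ^ (1 - a') < ‖Qg g χ k (blk ρ' u B')‖))
      (by rw [hA3]; exact Real.one_le_exp hA0.le)
      (by rw [hA3]; exact (Real.exp_le_exp.2 hA2).trans hEY)
      (by rw [hb3]; exact Real.one_le_exp hb0.le) hK0 hKY ha' haa' ha
      (lev_blk_mem hρ' hρ2' hB').1 (lev_blk_mem hρ' hρ2' hB').2 hp1 hp2
      ((Finset.filter_subset _ _).trans hT)
      (fun k hk => hgood k (Finset.mem_filter.1 hk).1 v hv)
      (fun k hk => (Finset.mem_filter.1 hk).2.le)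
    refine h3.trans ?_
    rw [hA3, hb3, ← Real.exp_mul, ← Real.exp_mul]
    have h4 : Real.exp (A * -(2 * (a - a'))) * Real.exp (b * (2 * a')) *
        Real.exp (4 * (((7 : ℕ) : ℝ) + 1) * A * Real.log E / E) ≤ Real.exp (-E ^ 2) := by
      rw [← Real.exp_add, ← Real.exp_add]
      apply Real.exp_le_exp.2
      have h5 : 4 * (((7 : ℕ) : ℝ) + 1) * A * Real.log E / E ≤ (a - a') * A / 2 := by
        rw [div_le_iff₀ hE0]
        have : 64 * Real.log E * A ≤ (a - a') * E * A := by gcongr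
        push_cast
        linarith
      have h6 : b * (2 * a') ≤ E ^ 2 / 2 := by
        have : a' ≤ 1 / 4 := by linarith
        nlinarith [sq_nonneg E]
      have h7 : 2 * E ^ 2 ≤ (a - a') * A := by
        calc 2 * E ^ 2 ≤ ((a - a') * E ^ 2) * E ^ 2 / 2 := by nlinarith
          _ = (a - a') * (E ^ 4 / 2) := by ring
          _ ≤ (a - a') * A := by
            have : 0 ≤ a - a' := by linarith
            gcongr
      nlinarith
    calc C * Y ^ 2 * Real.exp (A * -(2 * (a - a'))) * Real.exp (b * (2 * a')) * C ^ l *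
          (l.factorial : ℝ)
        = C * Y ^ 2 * (Real.exp (A * -(2 * (a - a'))) * Real.exp (b * (2 * a')) * (C ^ l *
          (l.factorial : ℝ))) := by ring
      _ ≤ C * Y ^ 2 * (Real.exp (A * -(2 * (a - a'))) * Real.exp (b * (2 * a')) *
          Real.exp (4 * (((7 : ℕ) : ℝ) + 1) * A * Real.log E / E)) := by gcongr
      _ ≤ C * Y ^ 2 * Real.exp (-E ^ 2) := by gcongr
  -- the sum over `u`
  have key2 : ∀ v < V, ∑ k ∈ T, ‖Qg g χ k (blk ρ v B) * Sg g χ k (Y / ρ ^ v)‖ ^ 2 ≤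
      V' * (C * Y ^ 2 * Real.exp (-E ^ 2)) := by
    intro v hv
    calc ∑ k ∈ T, ‖Qg g χ k (blk ρ v B) * Sg g χ k (Y / ρ ^ v)‖ ^ 2
        ≤ ∑ u ∈ Finset.range V', ∑ k ∈ T.filter (fun k => (ρ' ^ u) ^ (1 - a') <
          ‖Qg g χ k (blk ρ' u B')‖), ‖Qg g χ k (blk ρ v B) * Sg g χ k (Y / ρ ^ v)‖ ^ 2 := by
          apply lev_cover _ _ _ _ (fun _ => by positivity)
          intro k hk
          obtain ⟨u, hu, hu'⟩ := hbad k hk
          exact ⟨u, Finset.mem_range.2 hu, Finset.mem_filter.2 ⟨hk, hu'⟩⟩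
      _ ≤ ∑ u ∈ Finset.range V', C * Y ^ 2 * Real.exp (-E ^ 2) :=
          Finset.sum_le_sum (fun u hu => key v hv u (Finset.mem_range.1 hu))
      _ = _ := by rw [Finset.sum_const, Finset.card_range, nsmul_eq_mul]
  calc ∑ k ∈ T, ‖∑ v ∈ Finset.range V, Qg g χ k (blk ρ v B) * Sg g χ k (Y / ρ ^ v)‖ ^ 2
      ≤ ∑ k ∈ T, (V : ℝ) * ∑ v ∈ Finset.range V,
        ‖Qg g χ k (blk ρ v B) * Sg g χ k (Y / ρ ^ v)‖ ^ 2 := by
        apply Finset.sum_le_sum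
        intro k _
        have h1 := sq_sum_le_card_mul_sum_sq (s := Finset.range V)
          (f := fun v => ‖Qg g χ k (blk ρ v B) * Sg g χ k (Y / ρ ^ v)‖)
        rw [Finset.card_range] at h1
        refine le_trans ?_ h1
        have := norm_sum_le (Finset.range V) (fun v => Qg g χ k (blk ρ v B) * Sg g χ k (Y / ρ ^ v))
        gcongr
    _ = (V : ℝ) * ∑ v ∈ Finset.range V, ∑ k ∈ T,
        ‖Qg g χ k (blk ρ v B) * Sg g χ k (Y / ρ ^ v)‖ ^ 2 := by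
        rw [← Finset.mul_sum, Finset.sum_comm]
    _ ≤ (V : ℝ) * ∑ v ∈ Finset.range V, (V' * (C * Y ^ 2 * Real.exp (-E ^ 2))) := by
        gcongr with v hv
        exact key2 v (Finset.mem_range.1 hv)
    _ = C * Y ^ 2 * ((V : ℝ) ^ 2 * V') * Real.exp (-E ^ 2) := by
        rw [Finset.sum_const, Finset.card_range, nsmul_eq_mul]; ring
    _ ≤ 8 * C * Y ^ 2 * ((V : ℝ) ^ 2 * V') * Real.exp (-E ^ 2) := by
        gcongr
        linarith

open Classical in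
/-- few frequencies are bad for the last level -/
theorem l4_D (α : ℝ) (hα : 0 < α) : ∃ F₀ : ℝ, 1 ≤ F₀ ∧
    ∀ (g : G → ℝ), RG g → ∀ (m : G) (χ : MChar m) (X F ρ a : ℝ) (B : Finset ℕ) (V : ℕ), F₀ ≤ F → 1 ≤ X →
    F ^ 4 ≤ Real.log X → Real.log X ≤ F ^ 16 → 1 < ρ → ρ ≤ 2 → 0 < a → a ≤ α / 4 → a ≤ 1 / 4 →
    Pset B → (∀ p ∈ B, Real.exp F < (p : ℝ) ∧ (p : ℝ) ≤ Real.exp (F ^ 2)) → (V : ℝ) ≤ F ^ 4 →
    (((Ks X).filter (fun k => ∃ u < V, (ρ ^ u) ^ (1 - a) < ‖Qg g χ k (blk ρ u B)‖)).card : ℝ) ≤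
      X ^ α := by
  obtain ⟨C, hC, hfew⟩ := few_large_g
  obtain ⟨F₁, hF₁⟩ := lev_log 1 (α / 256) (by positivity)
  refine ⟨max (max F₁ (4 * C)) (24 / α + 8), ?_, ?_⟩
  · have : 0 < 24 / α := by positivity
    exact le_max_of_le_right (by linarith)
  intro g hg m χ X F ρ a B V hF hX hXF hXF' hρ hρ2 ha haα ha4 hB hBp hV
  have hF1 : F₁ ≤ F := (le_max_left _ _).trans ((le_max_left _ _).trans hF)
  have hF2 : 4 * C ≤ F := (le_max_right _ _).trans ((le_max_left _ _).trans hF)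
  have hF3 : 24 / α + 8 ≤ F := (le_max_right _ _).trans hF
  have hF4 : 24 ≤ α * F := by
    have : 24 / α ≤ F := by linarith
    rw [div_le_iff₀ hα] at this
    linarith
  have hF8 : 8 ≤ F := by
    have : 0 < 24 / α := by positivity
    linarith
  have hlogF := hF₁ F hF1
  rw [pow_one] at hlogF
  have hF0 : 0 < F := by linarith
  set A := Real.log X with hA
  have hXA : X = Real.exp A := (Real.exp_log (by linarith)).symm
  have hF64 : 64 ≤ F ^ 2 := by nlinarith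
  have hF4e : F ^ 4 = F ^ 2 * F ^ 2 := by ring
  have hA0 : 0 < A := lt_of_lt_of_le (by positivity) hXF
  -- one block
  have key : ∀ u < V, (((Ks X).filter (fun k => (ρ ^ u) ^ (1 - a) <
      ‖Qg g χ k (blk ρ u B)‖)).card : ℝ) ≤ Real.exp (α / 2 * A + F ^ 2 / 2 +
        64 * A * Real.log F / F + Real.log F) := by
    intro u hu
    by_cases h2 : (blk ρ u B).Nonempty
    swap
    · rw [Finset.not_nonempty_iff_eq_empty] at h2
      rw [h2]
      simp only [l4_Qg_empty, norm_zero]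
      rw [Finset.filter_false_of_mem, Finset.card_empty]
      · push_cast; positivity
      · intro k hk
        have : 0 < (ρ ^ u) ^ (1 - a) := by positivity
        linarith
    obtain ⟨hb1, hb2, hb3⟩ := lev_blk hρ hρ2 hBp h2
    set b := (u : ℝ) * Real.log ρ with hbdef
    have hb4 : F / 2 ≤ b := by linarith
    have hb0 : 0 < b := by linarith
    have hbA : b ≤ A := by
      have : F ^ 2 ≤ F ^ 4 := by rw [hF4e]; nlinarith
      linarith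
    obtain ⟨hp1, hp2⟩ := lev_pow hb0 hA0.le
    have hfac := lev_fac 15 hC hF2 hb4 hbA (by norm_num; exact hXF')
    set l := ⌈A / b⌉₊ with hl
    rw [← hXA, ← hb3] at hp2
    rw [← hb3, ← hXA] at hp1
    have h3 := hfew g hg m χ X (ρ ^ u) a (blk ρ u B) l hX
      (by rw [hb3]; exact Real.one_le_exp hb0.le) ha ha4
      (lev_blk_mem hρ hρ2 hB).1 (lev_blk_mem hρ hρ2 hB).2 hp1 hp2
    refine h3.trans ?_
    rw [hb3, hXA, ← Real.exp_add, ← Real.exp_mul]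
    have hCF : C ≤ Real.exp (Real.log F) := by rw [Real.exp_log hF0]; linarith
    have h4 : (A + b) * (2 * a) ≤ α / 2 * A + F ^ 2 / 2 := by
      have : 2 * a ≤ α / 2 := by linarith
      have : b * (2 * a) ≤ F ^ 2 * (1 / 2) := by
        apply mul_le_mul hb2 (by linarith) (by linarith) (by positivity)
      nlinarith
    calc C * Real.exp ((A + b) * (2 * a)) * C ^ l * (l.factorial : ℝ)
        = C * Real.exp ((A + b) * (2 * a)) * (C ^ l * (l.factorial : ℝ)) := by ring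
      _ ≤ Real.exp (Real.log F) * Real.exp (α / 2 * A + F ^ 2 / 2) *
          Real.exp (4 * (((15 : ℕ) : ℝ) + 1) * A * Real.log F / F) := by gcongr
      _ = _ := by
        rw [← Real.exp_add, ← Real.exp_add]
        congr 1
        push_cast
        ring
  have hcard : (((Ks X).filter (fun k => ∃ u < V, (ρ ^ u) ^ (1 - a) <
      ‖Qg g χ k (blk ρ u B)‖)).card : ℝ) ≤ V * Real.exp (α / 2 * A + F ^ 2 / 2 +
        64 * A * Real.log F / F + Real.log F) := by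
    have h1 := lev_cover ((Ks X).filter (fun k => ∃ u < V, (ρ ^ u) ^ (1 - a) <
      ‖Qg g χ k (blk ρ u B)‖)) (Finset.range V) (fun u => (Ks X).filter (fun k =>
      (ρ ^ u) ^ (1 - a) < ‖Qg g χ k (blk ρ u B)‖)) (fun _ => 1) (fun _ => zero_le_one) (by
        intro k hk
        obtain ⟨hk1, u, hu, hu'⟩ := Finset.mem_filter.1 hk
        exact ⟨u, Finset.mem_range.2 hu, Finset.mem_filter.2 ⟨hk1, hu'⟩⟩)
    simp only [Finset.sum_const, nsmul_eq_mul, mul_one] at h1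
    refine h1.trans ?_
    calc ∑ u ∈ Finset.range V, (((Ks X).filter (fun k => (ρ ^ u) ^ (1 - a) <
          ‖Qg g χ k (blk ρ u B)‖)).card : ℝ)
        ≤ ∑ u ∈ Finset.range V, Real.exp (α / 2 * A + F ^ 2 / 2 +
        64 * A * Real.log F / F + Real.log F) :=
          Finset.sum_le_sum (fun u hu => key u (Finset.mem_range.1 hu))
      _ = _ := by rw [Finset.sum_const, Finset.card_range, nsmul_eq_mul]
  refine hcard.trans ?_
  have hF4exp : F ^ 4 = Real.exp (4 * Real.log F) := by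
    have := Real.exp_nat_mul (Real.log F) 4
    rw [Real.exp_log hF0] at this
    rw [← this]; norm_num
  have hXα : X ^ α = Real.exp (A * α) := by rw [hXA, ← Real.exp_mul]
  calc (V : ℝ) * Real.exp (α / 2 * A + F ^ 2 / 2 + 64 * A * Real.log F / F + Real.log F)
      ≤ F ^ 4 * Real.exp (α / 2 * A + F ^ 2 / 2 + 64 * A * Real.log F / F + Real.log F) := by
        gcongr
    _ = Real.exp (4 * Real.log F + (α / 2 * A + F ^ 2 / 2 + 64 * A * Real.log F / F +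
        Real.log F)) := by rw [hF4exp, ← Real.exp_add]
    _ ≤ Real.exp (A * α) := by
        apply Real.exp_le_exp.2
        have h5 : 64 * A * Real.log F / F ≤ α / 4 * A := by
          rw [div_le_iff₀ hF0]
          calc 64 * A * Real.log F ≤ 64 * A * (α / 256 * F) := by gcongr
            _ = α / 4 * A * F := by ring
        -- F ^ 2 ≤ A / F ^ 2, log F ≤ F
        have h6 : Real.log F ≤ F := (Real.log_le_sub_one_of_pos hF0).trans (by linarith)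
        have h7 : F ^ 2 / 2 + 5 * F ≤ α / 4 * A := by
          have : F ^ 2 / 2 + 5 * F ≤ 2 * F ^ 2 := by nlinarith
          have h8 : 2 * F ^ 2 ≤ α / 4 * F ^ 4 := by
            have : 8 ≤ α * F ^ 2 := by nlinarith
            calc 2 * F ^ 2 = 8 * F ^ 2 / 4 := by ring
              _ ≤ (α * F ^ 2) * F ^ 2 / 4 := by gcongr
              _ = _ := by ring
          have h9 : α / 4 * F ^ 4 ≤ α / 4 * A := by gcongr
          linarith
        nlinarith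
    _ = X ^ α := hXα.symm

/-- frequencies with a large block of level `j` -/
def l4_Bad (g : G → ℝ) {m : G} (χ : MChar m) (L c α : ℝ) (j : ℕ) (k : ℤ) : Prop :=
  ∃ u < levV L c j, (levR c j ^ u) ^ (1 - levA α j) < ‖Qg g χ k (blk (levR c j) u (levB L j))‖

/-- the conditions on `Y` -/
theorem l4_Y {c δ A F Y : ℝ} {j : ℕ} (hF2 : 2 ≤ F) (hδA : 4 * F ^ 3 ≤ δ * A)
    (hAY : Real.exp (δ * A) ≤ Y) (h4j : (4 : ℝ) ^ j ≤ Real.log F)
    (hFlog : Real.log F ≤ c / 4 * F) :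
    1 ≤ Y ∧ Y ^ (-(1 / 16) : ℝ) ≤ c / 4 ^ j ∧ Real.exp (F ^ 2) ≤ Y ^ (1 / 4 : ℝ) := by
  have hF0 : 0 < F := by linarith
  have hF23 : F ^ 2 ≤ F ^ 3 := pow_le_pow_right₀ (by linarith) (by norm_num)
  have hF3 : 0 < F ^ 3 := by positivity
  have h4j0 : (0 : ℝ) < 4 ^ j := by positivity
  refine ⟨?_, ?_, ?_⟩
  · refine le_trans ?_ hAY
    exact Real.one_le_exp (by linarith)
  · have e1 : Y ^ (-(1 / 16) : ℝ) ≤ (Real.exp (δ * A)) ^ (-(1 / 16) : ℝ) :=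
      Real.rpow_le_rpow_of_nonpos (Real.exp_pos _) hAY (by norm_num)
    rw [← Real.exp_mul] at e1
    have e2 : Real.exp (δ * A * -(1 / 16)) ≤ Real.exp (-(F ^ 3 / 4)) := by
      apply Real.exp_le_exp.2
      linarith
    have e3 : Real.exp (-(F ^ 3 / 4)) ≤ 1 / (F ^ 3 / 4) := lev_exp_neg (by positivity)
    have e4 : 1 / (F ^ 3 / 4) ≤ 4 / F := by
      rw [div_le_div_iff₀ (by positivity) hF0]
      nlinarith
    have e5 : 4 / F ≤ c / 4 ^ j := by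
      rw [div_le_div_iff₀ hF0 h4j0]
      linarith
    linarith
  · have e1 : (Real.exp (δ * A)) ^ (1 / 4 : ℝ) ≤ Y ^ (1 / 4 : ℝ) :=
      Real.rpow_le_rpow (Real.exp_pos _).le hAY (by norm_num)
    rw [← Real.exp_mul] at e1
    refine le_trans (Real.exp_le_exp.2 ?_) e1
    linarith

/-- the error term -/
theorem l4_err {CA κ c ε Y r : ℝ} {j : ℕ} (hCA : 1 ≤ CA) (hκ : 1 ≤ κ)
    (hκε : CA / κ ≤ ε / 8) (hcε : CA * c ≤ ε / 8) (hr : 4 ^ j * κ ≤ r) :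
    CA * Y ^ 2 * (1 / r + c / 4 ^ j) ≤ ε / 4 * (1 / 4) ^ j * Y ^ 2 := by
  rw [one_div_pow]
  have h4j0 : (0 : ℝ) < 4 ^ j := by positivity
  have e1 : 1 / r ≤ 1 / (4 ^ j * κ) := one_div_le_one_div_of_le (by positivity) hr
  calc CA * Y ^ 2 * (1 / r + c / 4 ^ j)
      ≤ CA * Y ^ 2 * (1 / (4 ^ j * κ) + c / 4 ^ j) := by gcongr
    _ = (CA / κ + CA * c) * (1 / 4 ^ j) * Y ^ 2 := by field_simp
    _ ≤ (ε / 8 + ε / 8) * (1 / 4 ^ j) * Y ^ 2 := by gcongr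
    _ = _ := by ring

theorem l4_num0 {C1 ε a0 c L : ℝ} (hC1 : 1 ≤ C1) (hε : 0 < ε) (ha0 : 0 < a0)
    (hc : 0 < c) (hL : 2 ≤ L) (hL8 : 8 * C1 / (ε * a0 ^ 4 * c ^ 2) ≤ L) :
    C1 * (Real.exp (L * -a0) / (a0 * c)) ^ 2 ≤ ε / 8 := by
  have hL0 : 0 < L := by linarith
  have h3 : Real.exp (L * -a0) ≤ 1 / (L * a0) := by
    have := lev_exp_neg (show 0 < L * a0 by positivity)
    rwa [show L * -a0 = -(L * a0) by ring]
  calc C1 * (Real.exp (L * -a0) / (a0 * c)) ^ 2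
      ≤ C1 * (1 / (L * a0) / (a0 * c)) ^ 2 := by gcongr
    _ = C1 / (a0 ^ 4 * c ^ 2) / L ^ 2 := by field_simp
    _ ≤ ε / 8 := by
      rw [div_le_iff₀ (by positivity)]
      rw [div_le_iff₀ (by positivity)] at hL8
      rw [div_le_iff₀ (by positivity)]
      have e1 : L ≤ L ^ 2 := by nlinarith
      have e2 : L * (ε * a0 ^ 4 * c ^ 2) ≤ L ^ 2 * (ε * a0 ^ 4 * c ^ 2) := by gcongr
      nlinarith

/-- the first level -/
theorem l4_sec0 : ∃ C1 : ℝ, 1 ≤ C1 ∧ ∀ (g : G → ℝ), RG g → ∀ (m : G) (χ : MChar m)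
    (α c L ε Y : ℝ) (T : Finset ℤ), 0 < α → α ≤ 1 → 0 < c → c ≤ 1 → 0 < ε → 2 ≤ L →
    8 * C1 / (ε * (α / 8) ^ 4 * c ^ 2) ≤ L →
    (∀ p ∈ levB L 0, (p : ℝ) ≤ levR c 0 ^ (levV L c 0)) → 1 ≤ Y → Real.exp (L ^ 2) ≤ Y →
    T ⊆ Ks (Y / Real.exp (L ^ 2)) →
    (∀ k ∈ T, ∀ v < levV L c 0, ‖Qg g χ k (blk (levR c 0) v (levB L 0))‖ ≤
      (levR c 0 ^ v) ^ (1 - levA α 0)) →
    ∑ k ∈ T, ‖∑ v ∈ Finset.range (levV L c 0), Qg g χ k (blk (levR c 0) v (levB L 0)) *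
      Sg g χ k (Y / levR c 0 ^ v)‖ ^ 2 ≤ ε / 8 * Y ^ 2 := by
  obtain ⟨C1, hC1, h1⟩ := level_one_g
  refine ⟨C1, hC1, ?_⟩
  intro g hg m χ α c L ε Y T hα hα1 hc0 hc1 hε hL4 hL8 hV hY1 hHY hT hgood
  obtain ⟨hR1, hR2, hR3⟩ := lev_R hc0 hc1 0
  obtain ⟨ha1, ha2, ha3, ha4⟩ := lev_A_bd hα hα1 0
  have hF0 : levF L 0 = L := by unfold levF; simp
  have hPs : Pset (levB L 0) := fun p hp => ⟨(lev_mem_B hp).1, (lev_mem_B hp).2.1⟩
  have h2 := h1 g hg m χ Y (Real.exp (L ^ 2)) (levR c 0) (Real.exp L) (Real.exp (L ^ 2)) (levA α 0)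
    (levB L 0) (levV L c 0) T hY1 hR1 hR2 ha1 ha3
    (by have := Real.add_one_le_exp L
        linarith) le_rfl hHY hPs (fun p hp => by
          obtain ⟨e1, e2, e3, e4⟩ := lev_mem_B hp
          rw [hF0] at e3 e4
          exact ⟨e3, e4, hV p hp⟩) hT hgood
  have ha00 : levA α 0 = α / 8 := by unfold levA; norm_num; ring
  have hR0 : levR c 0 - 1 = c := by unfold levR; norm_num
  rw [ha00, hR0, ← Real.exp_mul] at h2
  refine h2.trans ?_
  have h4 := l4_num0 hC1 hε (show 0 < α / 8 by positivity) hc0 hL4 hL8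
  calc C1 * Y ^ 2 * (Real.exp (L * -(α / 8)) / (α / 8 * c)) ^ 2
      = (C1 * (Real.exp (L * -(α / 8)) / (α / 8 * c)) ^ 2) * Y ^ 2 := by ring
    _ ≤ ε / 8 * Y ^ 2 := by gcongr

/-- the gap between the exponents of two levels -/
theorem l4_gap {α E : ℝ} {i : ℕ} (hα : 0 < α) (hα1 : α ≤ 1) (hE2 : 2 ≤ E)
    (hlogE1 : 1 ≤ Real.log E) (h4i : (4 : ℝ) ^ i ≤ Real.log E)
    (hEsq : Real.log E ^ 2 ≤ α / 1024 * E) :
    64 * Real.log E ≤ (levA α (i + 1) - levA α i) * E ∧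
      4 ≤ (levA α (i + 1) - levA α i) * E ^ 2 ∧ levA α i ≤ levA α (i + 1) := by
  have hE0 : 0 < E := by linarith
  obtain ⟨hb1, hb2, hb3, hb4⟩ := lev_A_bd hα hα1 i
  have h2i : (2 : ℝ) ^ (i + 2) ≤ 4 * Real.log E := by
    calc (2 : ℝ) ^ (i + 2) = 4 * 2 ^ i := by ring
      _ ≤ 4 * 4 ^ i := by
        have : (2 : ℝ) ^ i ≤ 4 ^ i := by gcongr; norm_num
        linarith
      _ ≤ 4 * Real.log E := by linarith
  have hgap : α / (16 * Real.log E) ≤ levA α (i + 1) - levA α i := by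
    rw [hb4, div_div]
    apply div_le_div_of_nonneg_left hα.le (by positivity)
    linarith
  have hg1 : 64 * Real.log E ≤ (levA α (i + 1) - levA α i) * E := by
    calc 64 * Real.log E = (1024 * Real.log E ^ 2) / (16 * Real.log E) := by
          field_simp
          norm_num
      _ ≤ (α * E) / (16 * Real.log E) :=
          div_le_div_of_nonneg_right (by linarith) (by positivity)
      _ = α / (16 * Real.log E) * E := by ring
      _ ≤ (levA α (i + 1) - levA α i) * E := by gcongr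
  refine ⟨hg1, ?_, ?_⟩
  · have : (levA α (i + 1) - levA α i) * E ^ 2 = ((levA α (i + 1) - levA α i) * E) * E := by
      ring
    rw [this]
    have h5 : (64 : ℝ) ≤ (levA α (i + 1) - levA α i) * E := by linarith
    calc (4 : ℝ) ≤ 64 * 2 := by norm_num
      _ ≤ ((levA α (i + 1) - levA α i) * E) * E := by gcongr
  · have : 0 < α / (16 * Real.log E) := by positivity
    linarith

theorem l4_numS {CC E ε : ℝ} {i : ℕ} (hCC : 1 ≤ CC) (hε : 0 < ε) (hE2 : 2 ≤ E)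
    (h4i : (4 : ℝ) ^ i ≤ Real.log E) (h3 : E ^ 37 * Real.exp (-E) ≤ ε / (32 * CC)) :
    2 * (CC * E ^ 36 * Real.exp (-E)) ≤ ε / 4 * (1 / 4) ^ (i + 1) := by
  have hE0 : 0 < E := by linarith
  rw [le_div_iff₀ (by positivity)] at h3
  have e2 : 1 / (4 * E) ≤ (1 / 4) ^ (i + 1) := by
    rw [one_div_pow]
    apply one_div_le_one_div_of_le (by positivity)
    rw [pow_succ]
    have : Real.log E ≤ E := (Real.log_le_sub_one_of_pos hE0).trans (by linarith)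
    linarith
  calc 2 * (CC * E ^ 36 * Real.exp (-E))
      = (E ^ 37 * Real.exp (-E) * (32 * CC)) / (16 * E) := by field_simp; norm_num
    _ ≤ ε / (16 * E) := by gcongr
    _ = ε / 4 * (1 / (4 * E)) := by field_simp; norm_num
    _ ≤ ε / 4 * (1 / 4) ^ (i + 1) := by gcongr

/-- the other levels -/
theorem l4_secS : ∃ CC : ℝ, 1 ≤ CC ∧ ∀ (g : G → ℝ), RG g → ∀ (m : G) (χ : MChar m)
    (α c L ε Y : ℝ) (i : ℕ) (T : Finset ℤ), 0 < α → α ≤ 1 → 0 < c → c ≤ 1 → 0 < ε →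
    1 ≤ Real.log L → 2 ≤ L → CC ≤ levF L i → Real.log (levF L i) ^ 2 ≤ α / 1024 * levF L i →
    levF L i ^ 37 * Real.exp (-levF L i) ≤ ε / (32 * CC) →
    (∀ j, (levV L c j : ℝ) ≤ levF L j ^ 4) → 1 ≤ Y → Real.exp (levF L (i + 1) ^ 2) ≤ Y →
    T ⊆ Ks (Y / Real.exp (L ^ 2)) →
    (∀ k ∈ T, ∀ v < levV L c (i + 1), ‖Qg g χ k (blk (levR c (i + 1)) v (levB L (i + 1)))‖ ≤
      (levR c (i + 1) ^ v) ^ (1 - levA α (i + 1))) →
    (∀ k ∈ T, l4_Bad g χ L c α i k) →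
    2 * ∑ k ∈ T, ‖∑ v ∈ Finset.range (levV L c (i + 1)),
      Qg g χ k (blk (levR c (i + 1)) v (levB L (i + 1))) *
      Sg g χ k (Y / levR c (i + 1) ^ v)‖ ^ 2 ≤ ε / 4 * (1 / 4) ^ (i + 1) * Y ^ 2 := by
  obtain ⟨CC, hCC, hC⟩ := l4_C
  refine ⟨CC, hCC, ?_⟩
  intro g hg m χ α c L ε Y i T hα hα1 hc0 hc1 hε hLlog1 hL4 hL6 hEsq hE37 hV hY1 hEY hT hgood hbad
  have hL1' : 1 ≤ L := by linarith
  have hEL : L ≤ levF L i := lev_F_ge hL1' i
  have hE2 : 2 ≤ levF L i := hL4.trans hEL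
  have hlogE1 : 1 ≤ Real.log (levF L i) :=
    hLlog1.trans (Real.log_le_log (by linarith) hEL)
  obtain ⟨hg1, hg2, hg3⟩ := l4_gap (i := i) hα hα1 hE2 hlogE1 (lev_F_log hLlog1 i) hEsq
  have h5 := l4_numS hCC hε hE2 (lev_F_log hLlog1 i) hE37
  obtain ⟨hR1, hR2, _⟩ := lev_R hc0 hc1 (i + 1)
  obtain ⟨hR1', hR2', _⟩ := lev_R hc0 hc1 i
  obtain ⟨ha1, ha2, ha3, ha4⟩ := lev_A_bd hα hα1 (i + 1)
  obtain ⟨hb1, hb2, hb3, hb4⟩ := lev_A_bd hα hα1 i
  have hPs : Pset (levB L (i + 1)) := fun p hp => ⟨(lev_mem_B hp).1, (lev_mem_B hp).2.1⟩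
  have hPs' : Pset (levB L i) := fun p hp => ⟨(lev_mem_B hp).1, (lev_mem_B hp).2.1⟩
  have hKY : Y / Real.exp (L ^ 2) ≤ Y :=
    div_le_self (by linarith) (Real.one_le_exp (by positivity))
  have hFE : levF L (i + 1) = levF L i ^ 4 := lev_F_succ L i
  set E := levF L i with hE
  have hE8 : levF L (i + 1) ^ 2 = E ^ 8 := by rw [hFE]; ring
  have hE0 : 0 < E := by linarith
  have hV1 : (levV L c (i + 1) : ℝ) ≤ E ^ 16 := by
    refine (hV (i + 1)).trans ?_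
    rw [hFE]
    exact le_of_eq (by ring)
  have hV2 : (levV L c i : ℝ) ≤ E ^ 4 := hV i
  have h4 : Real.exp (-E ^ 2) ≤ Real.exp (-E) := by
    apply Real.exp_le_exp.2
    have : E * 1 ≤ E * E := by gcongr; linarith
    linarith
  have h2 := hC g hg m χ Y (Y / Real.exp (L ^ 2)) E (levR c (i + 1)) (levR c i) (levA α (i + 1))
    (levA α i) (levB L (i + 1)) (levB L i) (levV L c (i + 1)) (levV L c i) T
    hL6 (by positivity) hKY (by rw [← hE8]; exact hEY) hR1 hR2 hR1' hR2' hb1 hg3 ha3 hPs hPs'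
    (fun p hp => by
      obtain ⟨e1, e2, e3, e4⟩ := lev_mem_B hp
      rw [hFE] at e3
      rw [hE8] at e4
      exact ⟨e3, e4⟩) (fun p hp => by
      obtain ⟨e1, e2, e3, e4⟩ := lev_mem_B hp
      exact ⟨e3, e4⟩) hg1 hg2 hT hgood hbad
  calc 2 * ∑ k ∈ T, ‖∑ v ∈ Finset.range (levV L c (i + 1)),
      Qg g χ k (blk (levR c (i + 1)) v (levB L (i + 1))) * Sg g χ k (Y / levR c (i + 1) ^ v)‖ ^ 2
      ≤ 2 * (CC * Y ^ 2 * ((levV L c (i + 1) : ℝ) ^ 2 * levV L c i) * Real.exp (-E ^ 2)) :=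
        mul_le_mul_of_nonneg_left h2 (by norm_num)
    _ ≤ 2 * (CC * Y ^ 2 * ((E ^ 16) ^ 2 * E ^ 4) * Real.exp (-E)) := by gcongr
    _ = 2 * (CC * E ^ 36 * Real.exp (-E)) * Y ^ 2 := by ring
    _ ≤ ε / 4 * (1 / 4) ^ (i + 1) * Y ^ 2 := by gcongr

/-- the choice of the parameters -/
theorem l4_par (δ α ε F₀ CA C1 CC CM : ℝ) (hδ : 0 < δ) (hα : 0 < α) (hε : 0 < ε)
    (hCA : 1 ≤ CA) (hC1 : 1 ≤ C1) (hCC : 1 ≤ CC) (hCM : 1 ≤ CM) : ∃ c κ L : ℝ, 0 < c ∧ c ≤ 1 ∧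
    CA * c ≤ ε / 8 ∧ 1 ≤ κ ∧ CA / κ ≤ ε / 8 ∧ 1 ≤ Real.log L ∧ 2 ≤ L ∧ F₀ ≤ L ∧ CC ≤ L ∧
    4 * (κ + CM) ≤ Real.log L ∧ 8 * C1 / (ε * (α / 8) ^ 4 * c ^ 2) ≤ L ∧ ∀ F : ℝ, L ≤ F →
      4 ≤ δ * F ∧ Real.log F ≤ c / 4 * F ∧ Real.log F ^ 2 ≤ α / 1024 * F ∧
      F ^ 37 * Real.exp (-F) ≤ ε / (32 * CC) := by
  set c : ℝ := min 1 (ε / (8 * CA)) with hcdef
  have hc0 : 0 < c := lt_min one_pos (by positivity)
  have hcε : CA * c ≤ ε / 8 := by
    have : c ≤ ε / (8 * CA) := min_le_right _ _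
    calc CA * c ≤ CA * (ε / (8 * CA)) := by gcongr
      _ = ε / 8 := by field_simp
  set κ : ℝ := 8 * CA / ε + 1 with hκ
  have hκ1 : 1 ≤ κ := by
    have : 0 < 8 * CA / ε := by positivity
    linarith
  have hκε : CA / κ ≤ ε / 8 := by
    rw [div_le_iff₀ (by linarith)]
    have : ε / 8 * (8 * CA / ε) = CA := by field_simp
    rw [hκ, mul_add, this]
    linarith
  obtain ⟨F₁, hF₁⟩ := lev_log 1 (c / 4) (by positivity)
  obtain ⟨F₂, hF₂⟩ := lev_log 2 (α / 1024) (by positivity)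
  have hlim := Real.tendsto_pow_mul_exp_neg_atTop_nhds_zero 37
  obtain ⟨F₃, hF₃⟩ := eventually_atTop.1 (hlim.eventually (gt_mem_nhds
    (show (0 : ℝ) < ε / (32 * CC) by positivity)))
  obtain ⟨L, hL⟩ : ∃ L : ℝ, F₀ ≤ L ∧ F₁ ≤ L ∧ F₂ ≤ L ∧ F₃ ≤ L ∧ 2 ≤ L ∧
      Real.exp (4 * (κ + CM)) ≤ L ∧ CC ≤ L ∧ 4 / δ ≤ L ∧ 8 * C1 / (ε * (α / 8) ^ 4 * c ^ 2) ≤ L := by
    refine ⟨max F₀ (max F₁ (max F₂ (max F₃ (max 2 (max (Real.exp (4 * (κ + CM))) (max CC (max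
      (4 / δ) (8 * C1 / (ε * (α / 8) ^ 4 * c ^ 2))))))))), ?_⟩
    simp only [le_max_iff, le_refl, true_or, or_true, and_self]
  obtain ⟨hL0, hL1, hL2, hL3, hL4, hL5, hL6, hL7, hL8⟩ := hL
  have hLlog : 4 * (κ + CM) ≤ Real.log L := by
    rw [Real.le_log_iff_exp_le (by linarith)]; exact hL5
  refine ⟨c, κ, L, hc0, min_le_left _ _, hcε, hκ1, hκε, by linarith, hL4, hL0, hL6, hLlog, hL8,
    fun F hF => ⟨?_, ?_, hF₂ F (hL2.trans hF), (hF₃ F (hL3.trans hF)).le⟩⟩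
  · have := hL7.trans hF
    rw [div_le_iff₀ hδ] at this
    linarith
  · have := hF₁ F (hL1.trans hF)
    rwa [pow_one] at this

/-- the reciprocal sum -/
theorem l4_rs {CM κ L : ℝ} {j : ℕ} (hM : ∀ P Q : ℝ, 2 ≤ P → P ≤ Q →
    (1 / 4) * Real.log (Real.log Q / Real.log P) - CM ≤ rs (pr1 P Q)) (hCM : 1 ≤ CM)
    (hL : 2 ≤ L) (hlog : 4 * (κ + CM) ≤ Real.log L) : 4 ^ j * κ ≤ rs (levB L j) := by
  have hL1' : 1 ≤ L := by linarith
  have hFge := lev_F_ge hL1' j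
  have h3 : Real.log (levF L j) = 4 ^ j * Real.log L := by
    unfold levF; rw [Real.log_pow]; push_cast; ring
  unfold levB
  set F := levF L j with hF
  have hF0 : 0 < F := by linarith
  have h2 := hM (Real.exp F) (Real.exp (F ^ 2)) (by
    have := Real.add_one_le_exp F
    linarith) (Real.exp_le_exp.2 (by nlinarith))
  rw [Real.log_exp, Real.log_exp, show F ^ 2 / F = F by field_simp, h3] at h2
  refine le_trans ?_ h2
  have h4 : (1 : ℝ) ≤ 4 ^ j := one_le_pow₀ (by norm_num)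
  have h5 : 4 ^ j * (4 * (κ + CM)) ≤ 4 ^ j * Real.log L := by gcongr
  have h6 : 1 * CM ≤ 4 ^ j * CM := by gcongr
  linarith

/-- one level -/
theorem l4_lvl (δ α ε F₀ : ℝ) (hδ : 0 < δ) (hα : 0 < α) (hα1 : α ≤ 1) (hε : 0 < ε) :
    ∃ c L : ℝ, 0 < c ∧ c ≤ 1 ∧ 1 ≤ Real.log L ∧ 2 ≤ L ∧ F₀ ≤ L ∧
    (∀ j, (levV L c j : ℝ) ≤ levF L j ^ 4) ∧ L ^ 2 ≤ δ * L ^ 4 ∧
    ∀ (g : G → ℝ), RG g → ∀ (m : G) (χ : MChar m) (A Y : ℝ) (j : ℕ) (T : Finset ℤ),
      levF L j ^ 4 ≤ A → Real.exp (δ * A) ≤ Y → T ⊆ Ks (Y / Real.exp (L ^ 2)) →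
      (∀ k ∈ T, ¬ l4_Bad g χ L c α j k) → (∀ k ∈ T, ∀ i < j, l4_Bad g χ L c α i k) →
        ∑ k ∈ T, ‖Sg g χ k Y‖ ^ 2 ≤ ε / 2 * (1 / 4) ^ j * Y ^ 2 := by
  obtain ⟨CA, hCA, hA⟩ := l4_A
  obtain ⟨C1, hC1, h1⟩ := l4_sec0
  obtain ⟨CC, hCC, hC⟩ := l4_secS
  obtain ⟨CM, hCM, hM⟩ := mer_lower
  obtain ⟨c, κ, L, hc0, hc1, hcε, hκ1, hκε, hLlog1, hL4, hL0, hL6, hLlog, hL8, hF⟩ :=
    l4_par δ α ε F₀ CA C1 CC CM hδ hα hε hCA hC1 hCC hCM
  have hL1' : 1 ≤ L := by linarith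
  -- facts on the levels
  have hFge : ∀ j, L ≤ levF L j := lev_F_ge hL1'
  have hV : ∀ j, (levV L c j : ℝ) ≤ levF L j ^ 4 ∧ ∀ p ∈ levB L j,
      (p : ℝ) ≤ levR c j ^ (levV L c j) := fun j =>
    lev_V hc0 hc1 hLlog1 j (hF _ (hFge j)).2.1 (hL4.trans (hFge j))
  refine ⟨c, L, hc0, hc1, hLlog1, hL4, hL0, fun j => (hV j).1, ?_, ?_⟩
  · have h4 := (hF L le_rfl).1
    have h5 : 4 * 2 ≤ δ * L * L := by gcongr
    calc L ^ 2 = L ^ 2 * 1 := (mul_one _).symm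
      _ ≤ L ^ 2 * (δ * L * L) := by
        gcongr
        linarith
      _ = δ * L ^ 4 := by ring
  intro g hg m χ A Y j T hAF hAY hT hgood hbad
  have hFj := hF _ (hFge j)
  have hF2 : 2 ≤ levF L j := hL4.trans (hFge j)
  have h4j := lev_F_log hLlog1 j
  have hδA : 4 * levF L j ^ 3 ≤ δ * A := by
    have h5 : 0 < levF L j := by linarith
    calc 4 * levF L j ^ 3 ≤ (δ * levF L j) * levF L j ^ 3 := by
          gcongr
          exact hFj.1
      _ = δ * levF L j ^ 4 := by ring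
      _ ≤ δ * A := by gcongr
  obtain ⟨hY1, hYρ, hY4⟩ := l4_Y hF2 hδA hAY h4j hFj.2.1
  obtain ⟨hR1, hR2, hR3⟩ := lev_R hc0 hc1 j
  have hRc : levR c j - 1 = c / 4 ^ j := by unfold levR; ring
  have hrs := l4_rs (j := j) hM hCM hL4 hLlog
  have hrs1 : 1 ≤ rs (levB L j) := by
    refine le_trans ?_ hrs
    have : (1 : ℝ) ≤ 4 ^ j := one_le_pow₀ (by norm_num)
    calc (1 : ℝ) = 1 * 1 := by ring
      _ ≤ 4 ^ j * κ := by gcongr
  have hFY : Real.exp (levF L j ^ 2) ≤ Y := by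
    refine le_trans (Real.exp_le_exp.2 ?_) hAY
    have h5 : levF L j ^ 2 ≤ levF L j ^ 3 := pow_le_pow_right₀ (by linarith) (by norm_num)
    have h6 : 0 < levF L j ^ 3 := by positivity
    linarith
  have hHY : Real.exp (L ^ 2) ≤ Y := by
    refine le_trans (Real.exp_le_exp.2 ?_) hFY
    have := hFge j
    gcongr
  have hTY : T ⊆ Ks Y := by
    intro k hk
    have h5 := hT hk
    have h6 : Y / Real.exp (L ^ 2) ≤ Y :=
      div_le_self (by linarith) (Real.one_le_exp (by positivity))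
    rw [mem_Ks] at h5 ⊢
    linarith
  have hPs : Pset (levB L j) := fun p hp => ⟨(lev_mem_B hp).1, (lev_mem_B hp).2.1⟩
  have hmain := hA g hg m χ Y (levR c j) (Real.exp (levF L j)) (levB L j) (levV L c j) T hY1 hR1 hR2
    (by rw [hRc]; exact hYρ)
    (by have := Real.add_one_le_exp (levF L j)
        linarith) hPs (fun p hp => ⟨(lev_mem_B hp).2.2.1, ((lev_mem_B hp).2.2.2).trans hY4,
      (hV j).2 p hp⟩) hrs1 hTY
  have herr : CA * Y ^ 2 * (1 / rs (levB L j) + (levR c j - 1)) ≤ ε / 4 * (1 / 4) ^ j * Y ^ 2 := by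
    rw [hRc]
    exact l4_err hCA hκ1 hκε hcε hrs
  have hgood' : ∀ k ∈ T, ∀ v < levV L c j, ‖Qg g χ k (blk (levR c j) v (levB L j))‖ ≤
      (levR c j ^ v) ^ (1 - levA α j) := by
    intro k hk v hv
    by_contra hcon
    push Not at hcon
    exact hgood k hk ⟨v, hv, hcon⟩
  have hsec : 2 * ∑ k ∈ T, ‖∑ v ∈ Finset.range (levV L c j), Qg g χ k (blk (levR c j) v (levB L j)) *
      Sg g χ k (Y / levR c j ^ v)‖ ^ 2 ≤ ε / 4 * (1 / 4) ^ j * Y ^ 2 := by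
    rcases j with _ | i
    · have h5 := h1 g hg m χ α c L ε Y T hα hα1 hc0 hc1 hε hL4 hL8 (hV 0).2 hY1 hHY hT hgood'
      rw [pow_zero, mul_one]
      linarith
    · have h6 := hF _ (hFge i)
      exact hC g hg m χ α c L ε Y i T hα hα1 hc0 hc1 hε hLlog1 hL4 (hL6.trans (hFge i)) h6.2.2.1
        h6.2.2.2 (fun j => (hV j).1) hY1 hFY hT hgood'
        (fun k hk => hbad k hk i (Nat.lt_succ_self i))
  calc ∑ k ∈ T, ‖Sg g χ k Y‖ ^ 2 ≤ ε / 4 * (1 / 4) ^ j * Y ^ 2 + ε / 4 * (1 / 4) ^ j * Y ^ 2 :=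
        hmain.trans (add_le_add herr hsec)
    _ = _ := by ring

theorem mr_typical_g_pr {m : G} (χ : MChar m) (δ α ε : ℝ) (hδ : 0 < δ) (hδ1 : δ ≤ 1) (hα : 0 < α)
    (hα1 : α ≤ 1) (hε : 0 < ε) : ∃ H X₀ : ℝ, 1 ≤ H ∧ ∀ X : ℝ, X₀ ≤ X → ∀ g : G → ℝ, RG g →
    ∃ U : Finset ℤ,
    U ⊆ Ks X ∧ (U.card : ℝ) ≤ X ^ α ∧ ∀ Y : ℝ, X ^ δ ≤ Y → Y ≤ X →
      ∑ k ∈ Ks (Y / H) \ U, ‖Sg g χ k Y‖ ^ 2 ≤ ε * Y ^ 2 := by
  classical
  obtain ⟨F₀, hF₀, hD⟩ := l4_D α hα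
  obtain ⟨c, L, hc0, hc1, hL1, hL2, hLF, hV, hLδ, hlvl⟩ := l4_lvl δ α ε F₀ hδ hα hα1 hε
  have hL0 : 0 < L := by linarith
  have hL1' : 1 ≤ L := by linarith
  refine ⟨Real.exp (L ^ 2), Real.exp (L ^ 4), Real.one_le_exp (by positivity), ?_⟩
  intro X hX g hg
  have hX1 : 1 ≤ X := (Real.one_le_exp (by positivity)).trans hX
  have hX0 : 0 < X := by linarith
  set A := Real.log X with hA
  have hAL : L ^ 4 ≤ A := by rw [hA, Real.le_log_iff_exp_le hX0]; exact hX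
  have hex : ∃ n, A < levF L n ^ 4 := by
    obtain ⟨n, hn⟩ := exists_nat_gt A
    refine ⟨n, hn.trans ?_⟩
    have h1 : (4 : ℝ) ^ n ≤ levF L n := by
      have := lev_F_log hL1 n
      have h2 := lev_F_ge hL1' n
      have h3 := Real.log_le_sub_one_of_pos (show 0 < levF L n by linarith)
      linarith
    have h2 : (n : ℝ) < 4 ^ n := by exact_mod_cast Nat.lt_pow_self (by norm_num)
    have h3 : levF L n ≤ levF L n ^ 4 := le_self_pow₀ (hL1'.trans (lev_F_ge hL1' n)) (by norm_num)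
    linarith
  obtain ⟨J, hJ1, hJ2⟩ : ∃ J, levF L J ^ 4 ≤ A ∧ A < levF L (J + 1) ^ 4 := by
    have h1 := Nat.find_spec hex
    have h2 := fun i => Nat.find_min hex (m := i)
    rcases h3 : Nat.find hex with _ | J
    · rw [h3] at h1
      have : levF L 0 = L := by unfold levF; simp
      rw [this] at h1
      linarith
    · refine ⟨J, ?_, ?_⟩
      · have := h2 J (by rw [h3]; exact Nat.lt_succ_self J)
        exact not_lt.1 this
      · rw [h3] at h1; exact h1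
  refine ⟨(Ks X).filter (fun k => ∀ j ≤ J, l4_Bad g χ L c α j k), Finset.filter_subset _ _, ?_, ?_⟩
  · obtain ⟨hR1, hR2, _⟩ := lev_R hc0 hc1 J
    obtain ⟨ha1, ha2, ha3, _⟩ := lev_A_bd hα hα1 J
    have h1 := hD g hg m χ X (levF L J) (levR c J) (levA α J) (levB L J) (levV L c J)
      (hLF.trans (lev_F_ge hL1' J)) hX1 hJ1 (by
        rw [lev_F_succ, ← pow_mul] at hJ2
        exact hJ2.le) hR1 hR2 ha1 ha2 ha3
      (fun p hp => ⟨(lev_mem_B hp).1, (lev_mem_B hp).2.1⟩)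
      (fun p hp => (lev_mem_B hp).2.2) (hV J)
    refine le_trans ?_ h1
    norm_cast
    apply Finset.card_le_card
    intro k hk
    rw [Finset.mem_filter] at hk ⊢
    exact ⟨hk.1, hk.2 J le_rfl⟩
  · intro Y hY1 hY2
    have hexpY : Real.exp (δ * A) ≤ Y := by
      rw [mul_comm, Real.exp_mul, hA, Real.exp_log hX0]
      exact hY1
    have hY0 : 0 < Y := lt_of_lt_of_le (Real.exp_pos _) hexpY
    set S := Ks (Y / Real.exp (L ^ 2)) \ (Ks X).filter (fun k => ∀ j ≤ J, l4_Bad g χ L c α j k)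
      with hS
    have h1 := lev_cover S (Finset.range (J + 1)) (fun j => (Ks (Y / Real.exp (L ^ 2))).filter
      (fun k => ¬ l4_Bad g χ L c α j k ∧ ∀ i < j, l4_Bad g χ L c α i k)) (fun k => ‖Sg g χ k Y‖ ^ 2)
      (fun k => by positivity) (by
        intro k hk
        rw [hS, Finset.mem_sdiff, Finset.mem_filter, not_and] at hk
        obtain ⟨hk1, hk2⟩ := hk
        have hkX : k ∈ Ks X := by
          rw [mem_Ks] at hk1 ⊢
          have : Y / Real.exp (L ^ 2) ≤ Y := div_le_self hY0.le (Real.one_le_exp (by positivity))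
          linarith
        have hk3 := hk2 hkX
        push Not at hk3
        have hex2 : ∃ j, ¬ l4_Bad g χ L c α j k := by
          obtain ⟨j, _, hj⟩ := hk3
          exact ⟨j, hj⟩
        refine ⟨Nat.find hex2, ?_, ?_⟩
        · obtain ⟨j, hj, hj'⟩ := hk3
          exact Finset.mem_range.2 (Nat.lt_succ_of_le ((Nat.find_min' hex2 hj').trans hj))
        · rw [Finset.mem_filter]
          refine ⟨hk1, Nat.find_spec hex2, fun i hi => ?_⟩
          have := Nat.find_min hex2 hi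
          exact not_not.1 this)
    calc ∑ k ∈ S, ‖Sg g χ k Y‖ ^ 2 ≤ _ := h1
      _ ≤ ∑ j ∈ Finset.range (J + 1), ε / 2 * (1 / 4) ^ j * Y ^ 2 := by
        apply Finset.sum_le_sum
        intro j hj
        have hjJ : j ≤ J := Nat.lt_succ_iff.1 (Finset.mem_range.1 hj)
        have hmono := lev_F_mono hL1' hjJ
        have hpos : 0 ≤ levF L j := by
          have := lev_F_ge hL1' j
          linarith
        apply hlvl g hg m χ A Y j _ ((pow_le_pow_left₀ hpos hmono 4).trans hJ1) hexpY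
          (Finset.filter_subset _ _)
        · intro k hk; exact (Finset.mem_filter.1 hk).2.1
        · intro k hk; exact (Finset.mem_filter.1 hk).2.2
      _ = ε / 2 * Y ^ 2 * ∑ j ∈ Finset.range (J + 1), (1 / 4 : ℝ) ^ j := by
        rw [Finset.mul_sum]
        apply Finset.sum_congr rfl
        intro j _; ring
      _ ≤ ε / 2 * Y ^ 2 * 2 := by
        rw [lev_geom]
        have : (0 : ℝ) < (1 / 4) ^ (J + 1) := by positivity
        gcongr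
        linarith
      _ = ε * Y ^ 2 := by ring

theorem mr_typical_g : type_of% @mr_typical_g_pr := @mr_typical_g_pr

end Pool.Agent.PENT.MRG
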