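import Pool.Agent.Lib_helper39.MRG.Defs
import Pool.Agent.Lib_helper10.T2F.BAS
import Pool.Agent.Lib_helper10.T2F.TFO

/-! block P1 of MRG, proved by helper39 -/

set_option autoImplicit false

namespace Pool.Agent.PENT.MRG

open Pool.Agent.T2 Filter Topology MeasureTheory

theorem g_CM_pr {g : G → ℝ} (hg : RG g) {m : G} (χ : MChar m) (k : ℤ) (hu : xi χ k ui = 1) :
    CM (fun z => (g z : ℂ) * xi χ k z) where
  zero := by simp [hg.zero]
  one := by simp [hg.one, tfo_xi_one]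
  unit := by simp [hg.ui, hu]
  mul z w := by
    rw [hg.mul, tfo_xi_mul]
    push_cast
    ring
  bd z := by
    rw [norm_mul]
    have h1 := hg.norm z
    have h2 := tfo_xi_bd χ k z
    have h3 := norm_nonneg (xi χ k z)
    have h4 := norm_nonneg (g z : ℂ)
    nlinarith

/-- three, minus four, one -/
theorem p1_341 {g : G → ℝ} (hg : RG g) {m : G} (χ : MChar m) (k : ℤ) {σ : ℝ} (hσ : 1 < σ)
    (t : ℝ) :
    0 ≤ 3 * (Esum (tfo_z fun _ => 1) (σ : ℂ)).re +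
      (-4) * (Esum (fun z => (g z : ℂ) * xi χ k z) (σ + t * Complex.I)).re +
      (Esum (tfo_z fun z => xi χ k z ^ 2) (σ + 2 * t * Complex.I)).re := by
  have hb1 : ∀ z, ‖tfo_z (fun _ => (1 : ℂ)) z‖ ≤ 1 := fun z => by
    unfold tfo_z
    split_ifs <;> simp
  have hb2 : ∀ z, ‖(g z : ℂ) * xi χ k z‖ ≤ 1 := fun z => by
    rw [norm_mul]
    have h1 := hg.norm z
    have h2 := tfo_xi_bd χ k z
    have h3 := norm_nonneg (xi χ k z)
    have h4 := norm_nonneg (g z : ℂ)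
    nlinarith
  have hb3 : ∀ z, ‖tfo_z (fun z => xi χ k z ^ 2) z‖ ≤ 1 := fun z => by
    unfold tfo_z
    split_ifs
    · simp
    · rw [norm_pow]
      exact pow_le_one₀ (norm_nonneg _) (tfo_xi_bd χ k z)
  have s1 := tfo_E_summable hb1 (s := (σ : ℂ)) (by simpa using hσ)
  have s2 := tfo_E_summable hb2 (s := σ + t * Complex.I) (by simpa using hσ)
  have s3 := tfo_E_summable hb3 (s := σ + 2 * t * Complex.I) (by simpa using hσ)
  unfold Esum
  rw [Complex.re_tsum s1, Complex.re_tsum s2, Complex.re_tsum s3, ← tsum_mul_left,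
    ← tsum_mul_left]
  have r1 := (Complex.hasSum_re s1.hasSum).summable.mul_left 3
  have r2 := (Complex.hasSum_re s2.hasSum).summable.mul_left (-4)
  have r3 := (Complex.hasSum_re s3.hasSum).summable
  rw [← r1.tsum_add r2, ← (r1.add r2).tsum_add r3]
  refine tsum_nonneg fun z => ?_
  by_cases hz : z = 0
  · subst hz
    simp [tfo_kap_zero]
  have hN : (nn z : ℂ) ≠ 0 := by
    have := nn_pos.2 hz
    exact_mod_cast this.ne'
  have hN0 : (0 : ℝ) < nn z := by exact_mod_cast nn_pos.2 hz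
  have e0 : (nn z : ℂ) ^ (-(σ : ℂ)) = (((nn z : ℝ) ^ (-σ) : ℝ) : ℂ) := by
    rw [Complex.ofReal_cpow hN0.le]
    push_cast
    rfl
  have e1 : (nn z : ℂ) ^ (-(σ + t * Complex.I)) =
      (nn z : ℂ) ^ (-(σ : ℂ)) * (nn z : ℂ) ^ (-(t * Complex.I)) := by
    rw [← Complex.cpow_add _ _ hN]
    congr 1
    ring
  have e2 : (nn z : ℂ) ^ (-(σ + 2 * t * Complex.I)) =
      (nn z : ℂ) ^ (-(σ : ℂ)) * ((nn z : ℂ) ^ (-(t * Complex.I))) ^ 2 := by
    rw [sq, ← Complex.cpow_add _ _ hN, ← Complex.cpow_add _ _ hN]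
    congr 1
    ring
  have e3 : ∀ f : G → ℂ, tfo_z f z = f z := fun f => by simp [tfo_z, hz]
  rw [e3, e3, e1, e2, e0]
  set w : ℂ := (g z : ℂ) * xi χ k z * (nn z : ℂ) ^ (-(t * Complex.I)) with hw
  have hwn : ‖w‖ ≤ 1 := by
    rw [hw, norm_mul, tfo_nn_cpow hz]
    have : (t * Complex.I : ℂ).re = 0 := by simp
    rw [this, neg_zero, Real.rpow_zero, mul_one]
    exact hb2 z
  have hk := (tfo_kap z).1
  set r : ℝ := kap z * (nn z : ℝ) ^ (-σ) with hr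
  have hr0 : 0 ≤ r := by positivity
  have f1 : (kap z : ℂ) * 1 * (((nn z : ℝ) ^ (-σ) : ℝ) : ℂ) = (r : ℂ) := by
    rw [hr]; push_cast; ring
  have f2 : (kap z : ℂ) * ((g z : ℂ) * xi χ k z) * ((((nn z : ℝ) ^ (-σ) : ℝ) : ℂ) *
      (nn z : ℂ) ^ (-(t * Complex.I))) = (r : ℂ) * w := by
    rw [hr, hw]; push_cast; ring
  have hg2 : (g z : ℂ) ^ 2 = 1 := by
    have := hg.sq hz
    exact_mod_cast this
  have f3 : (kap z : ℂ) * xi χ k z ^ 2 * ((((nn z : ℝ) ^ (-σ) : ℝ) : ℂ) *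
      ((nn z : ℂ) ^ (-(t * Complex.I))) ^ 2) = (r : ℂ) * w ^ 2 := by
    rw [hr, hw, mul_pow, mul_pow, hg2]; push_cast; ring
  rw [f1, f2, f3, Complex.ofReal_re, Complex.re_ofReal_mul, Complex.re_ofReal_mul]
  have h1 : w.re ^ 2 + w.im ^ 2 ≤ 1 := by
    have := Complex.sq_norm w
    rw [Complex.normSq_apply] at this
    have h2 : ‖w‖ ^ 2 ≤ 1 := pow_le_one₀ (norm_nonneg _) hwn
    nlinarith
  have h2 : (w ^ 2).re = w.re ^ 2 - w.im ^ 2 := by
    rw [sq, Complex.mul_re]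
    ring
  rw [h2]
  have h3 : 0 ≤ 3 + (-4) * w.re + (w.re ^ 2 - w.im ^ 2) := by nlinarith [sq_nonneg (1 - w.re)]
  nlinarith [mul_nonneg hr0 h3]

theorem sup_reduce_g_pr : ∃ C : ℝ, 1 ≤ C ∧ ∀ (g : G → ℝ), RG g → ∀ (m : G) (χ : MChar m) (k : ℤ),
    xi χ k ui = 1 →
    ∀ σ t : ℝ, 1 < σ → σ ≤ 2 →
      ‖Dsum (fun z => (g z : ℂ) * xi χ k z) (σ + t * Complex.I)‖ ≤
        C * (1 / (σ - 1)) ^ (3 / 4 : ℝ) *
          ‖Dsum (fun z => xi χ k z ^ 2) (σ + 2 * t * Complex.I)‖ ^ (1 / 4 : ℝ) := by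
  obtain ⟨C0, hC0, hD⟩ := dsum_bound
  refine ⟨C0 ^ (3 / 4 : ℝ), Real.one_le_rpow hC0 (by norm_num),
    fun g hg m χ k hu σ t h1 h2 => ?_⟩
  have hs : 1 < (σ + t * Complex.I : ℂ).re := by simpa using h1
  have hs1 : 1 < (σ : ℂ).re := by simpa using h1
  have hs2 : 1 < (σ + 2 * t * Complex.I : ℂ).re := by simpa using h1
  have hu2 : (fun z => xi χ k z ^ 2) ui = 1 := by simp [hu]
  have c1 := g_CM_pr hg χ k hu
  have c2 : CM (tfo_z fun _ => 1) := tfo_z_CM rfl rfl (fun _ _ => by simp) (fun _ => by simp)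
  have c3 : CM (tfo_z fun z => xi χ k z ^ 2) :=
    tfo_z_CM (by simp [tfo_xi_one]) hu2 (fun z w => by rw [tfo_xi_mul]; ring) (fun z => by
      rw [norm_pow]
      exact pow_le_one₀ (norm_nonneg _) (tfo_xi_bd χ k z))
  have h4 : ‖(4 : ℂ)‖ = 4 := by norm_num
  have hd : ‖Dsum (tfo_z fun _ => 1) (σ : ℂ)‖ ≤ C0 / (σ - 1) := by
    rw [tfo_z_Dsum _ hs1]
    have := (hD (fun _ => 1) (fun _ => by simp) (σ : ℂ) hs1 (by simpa using h2)).1
    simpa using this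
  have g2 := p1_341 hg χ k h1 t
  rw [← tfo_z_Dsum (fun z => xi χ k z ^ 2) hs2, log_formula c1 hs, log_formula c3 hs2, norm_mul,
    norm_mul, h4, Complex.norm_exp, Complex.norm_exp]
  rw [log_formula c2 hs1, norm_mul, h4, Complex.norm_exp] at hd
  set a := (Esum (fun z => (g z : ℂ) * xi χ k z) (σ + t * Complex.I)).re with ha
  set e := (Esum (tfo_z fun _ => 1) (σ : ℂ)).re with he
  set b := (Esum (tfo_z fun z => xi χ k z ^ 2) (σ + 2 * t * Complex.I)).re with hb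
  have g3 : a ≤ 3 / 4 * e + 1 / 4 * b := by linarith
  have e1 : (4 * Real.exp b) ^ (1 / 4 : ℝ) = 4 ^ (1 / 4 : ℝ) * Real.exp (1 / 4 * b) := by
    rw [Real.mul_rpow (by norm_num) (Real.exp_pos _).le, ← Real.exp_mul]
    congr 2
    ring
  have e2 : (4 * Real.exp e) ^ (3 / 4 : ℝ) = 4 ^ (3 / 4 : ℝ) * Real.exp (3 / 4 * e) := by
    rw [Real.mul_rpow (by norm_num) (Real.exp_pos _).le, ← Real.exp_mul]
    congr 2
    ring
  have e3 : (4 : ℝ) ^ (3 / 4 : ℝ) * 4 ^ (1 / 4 : ℝ) = 4 := by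
    rw [← Real.rpow_add (by norm_num)]
    norm_num
  have hσ0 : 0 < σ - 1 := by linarith
  have g4 : (4 * Real.exp e) ^ (3 / 4 : ℝ) ≤ C0 ^ (3 / 4 : ℝ) * (1 / (σ - 1)) ^ (3 / 4 : ℝ) := by
    rw [← Real.mul_rpow (by linarith) (by positivity)]
    refine Real.rpow_le_rpow (by positivity) ?_ (by norm_num)
    rw [mul_one_div]
    exact hd
  calc 4 * Real.exp a ≤ 4 * Real.exp (3 / 4 * e + 1 / 4 * b) := by
        refine mul_le_mul_of_nonneg_left (Real.exp_le_exp.2 g3) (by norm_num)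
    _ = (4 * Real.exp e) ^ (3 / 4 : ℝ) * (4 * Real.exp b) ^ (1 / 4 : ℝ) := by
        rw [e1, e2, Real.exp_add]
        calc _ = ((4 : ℝ) ^ (3 / 4 : ℝ) * 4 ^ (1 / 4 : ℝ)) *
              (Real.exp (3 / 4 * e) * Real.exp (1 / 4 * b)) := by rw [e3]
          _ = _ := by ring
    _ ≤ (C0 ^ (3 / 4 : ℝ) * (1 / (σ - 1)) ^ (3 / 4 : ℝ)) *
        (4 * Real.exp b) ^ (1 / 4 : ℝ) := by gcongr

theorem g_CM : type_of% @g_CM_pr := @g_CM_pr
theorem sup_reduce_g : type_of% @sup_reduce_g_pr := @sup_reduce_g_pr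

end Pool.Agent.PENT.MRG
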