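import Pool.Agent.Lib_helper39.MRG.Defs
import Pool.Agent.Lib_helper10.T2F.BAS
import Pool.Agent.Lib_helper10.T2F.SUK
import Pool.Agent.Lib_helper10.T2F.HMO
import Pool.Agent.Lib_helper10.T2F.LSG
import Pool.Agent.Lib_helper10.T2F.MER
import Pool.Agent.Lib_helper10.T2F.MRT
import Pool.Agent.Lib_helper10.T2F.PEL
import Pool.Agent.Lib_helper10.T2F.PHM
import Pool.Agent.Lib_helper10.T2F.PTW
import Pool.Agent.Lib_helper10.T2F.SPA
import Pool.Agent.Lib_helper10.T2F.TFO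
import Pool.Agent.Lib_helper10.T2F.TJA
import Pool.Agent.Lib_helper10.T2F.TJB
import Pool.Agent.Lib_helper10.T2F.TKA
import Pool.Agent.Lib_helper10.T2F.TKR
import Pool.Agent.Lib_helper10.T2F.TKV
import Pool.Agent.Lib_helper10.T2F.UCD
import Pool.Agent.Lib_helper10.T2F.BPR
import Pool.Agent.Lib_helper10.T2F.CNT
import Pool.Agent.Lib_helper39.MRGF.P1

/-! block P2 of MRG, proved by helper39 -/

set_option autoImplicit false

namespace Pool.Agent.PENT.MRG

open Pool.Agent.T2 Filter Topology MeasureTheory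

theorem sup_nonzero_g_pr {m : G} (hm : m ≠ 0) (χ : MChar m) (η K₀ : ℝ) (hη : 0 < η) (hK : 1 ≤ K₀) :
    ∃ X₀ : ℝ, ∀ X : ℝ, X₀ ≤ X → ∀ g : G → ℝ, RG g →
      ∀ k : ℤ, k ≠ 0 → |(k : ℝ)| ≤ X → xi χ k ui = 1 → ∀ t : ℝ,
      |t| ≤ K₀ * Real.log X → ‖Dsum (fun z => (g z : ℂ) * xi χ k z)
        ((1 + 1 / Real.log X : ℝ) + t * Complex.I)‖ ≤ η * Real.log X := by
  obtain ⟨C₁, hC₁, hred⟩ := sup_reduce_g
  obtain ⟨C₃, hC₃, hsmall⟩ := suk_small
  set δ : ℝ := (η / C₁) ^ 4 with hδdef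
  have hC₁0 : 0 < C₁ := by linarith
  have hδ : 0 < δ := by positivity
  set θ : ℝ := min 1 (δ / (4 * C₃)) with hθdef
  have hθ0 : 0 < θ := lt_min (by norm_num) (by positivity)
  have hθ1 : θ ≤ 1 := min_le_left _ _
  have hθ2 : C₃ * θ ≤ δ / 4 := by
    have : θ ≤ δ / (4 * C₃) := min_le_right _ _
    calc C₃ * θ ≤ C₃ * (δ / (4 * C₃)) := mul_le_mul_of_nonneg_left this (by linarith)
      _ = δ / 4 := by field_simp
  have hA1 : 1 ≤ 2 / θ := by rw [one_le_div hθ0]; linarith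
  obtain ⟨κ, C, hκ, hκ1, hC, hexp⟩ := exp_per (2 / θ) hA1 m hm
  -- the limit
  set c' : ℝ := (δ / 4) / ((2 + 2 * K₀) * (4 * C / κ)) with hc'
  have hc'0 : 0 < c' := by positivity
  have hlim : ∀ᶠ X : ℝ in atTop, X ^ (-(θ * (κ / 2))) ≤ c' := by
    have := tendsto_rpow_neg_atTop (show 0 < θ * (κ / 2) by positivity)
    exact (this.eventually (gt_mem_nhds hc'0)).mono fun x hx => hx.le
  have hlog : ∀ᶠ X : ℝ in atTop, max 1 (4 * C₃ / δ) ≤ Real.log X :=
    Real.tendsto_log_atTop.eventually_ge_atTop _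
  obtain ⟨X₀, hX₀⟩ := eventually_atTop.1 (hlim.and (hlog.and (eventually_ge_atTop 2)))
  refine ⟨X₀, fun X hX g hg k hk hkX hxi t ht => ?_⟩
  obtain ⟨h1, h2, h3⟩ := hX₀ X hX
  set L := Real.log X with hL
  have hL1 : 1 ≤ L := le_trans (le_max_left _ _) h2
  have hL2 : 4 * C₃ / δ ≤ L := le_trans (le_max_right _ _) h2
  have hX0 : 0 < X := by linarith
  have hσ1 : 1 < 1 + 1 / L := by
    have : 0 < 1 / L := by positivity
    linarith
  have hσ2 : 1 + 1 / L ≤ 2 := by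
    have : 1 / L ≤ 1 := by rw [div_le_one (by linarith)]; exact hL1
    linarith
  -- the square
  set F : G → ℂ := fun z => xi χ k z ^ 2 with hFdef
  have hFb : ∀ z, ‖F z‖ ≤ 1 := by
    intro z
    simp only [hFdef, xi, norm_pow, norm_mul]
    have e1 := suk_norm_le χ z
    have e2 := ang_le k z
    have e3 : ‖χ.f z‖ * ‖ang k z‖ ≤ 1 * 1 := mul_le_mul e1 e2 (norm_nonneg _) (by norm_num)
    rw [one_mul] at e3
    exact pow_le_one₀ (by positivity) e3
  have hFeq : ∀ z, F z = χ.f z ^ 2 * ang (k * 2) z := by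
    intro z
    simp only [hFdef, xi, mul_pow]
    congr 1
    unfold ang
    rw [zpow_mul]
    norm_cast
  set U : ℝ := X ^ θ with hU
  have hU1 : 1 ≤ U := Real.one_le_rpow (by linarith) hθ0.le
  have hbd : ∀ x : ℝ, U ≤ x → ‖∑ z ∈ Bl x, F z‖ ≤ C * x ^ (1 - κ) := by
    intro x hx
    have e0 : ∑ z ∈ Bl x, F z = ∑ z ∈ Bl x, (fun z => χ.f z ^ 2) z * ang (k * 2) z :=
      Finset.sum_congr rfl fun z _ => hFeq z
    rw [e0]
    apply hexp
    · intro z w
      rw [χ.per]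
    · intro z
      rw [norm_pow]
      exact pow_le_one₀ (norm_nonneg _) (suk_norm_le χ z)
    · linarith
    · omega
    · have e1 : (X ^ θ) ^ (2 / θ) = X ^ 2 := by
        rw [← Real.rpow_mul hX0.le, mul_div_cancel₀ _ hθ0.ne']
        norm_cast
      have e2 : X ^ 2 ≤ x ^ (2 / θ) := by
        rw [← e1]
        exact Real.rpow_le_rpow (by positivity) hx (by positivity)
      push_cast
      rw [abs_mul, abs_two]
      nlinarith
  -- the Dirichlet series of the square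
  have hs : 1 < (((1 + 1 / L : ℝ) : ℂ) + 2 * (t : ℂ) * Complex.I).re := by
    simp
    linarith
  have hD := suk_tail hFb hκ hκ1 hC hU1 hbd hs
  have hsn : ‖((1 + 1 / L : ℝ) : ℂ) + 2 * (t : ℂ) * Complex.I‖ ≤ (2 + 2 * K₀) * L := by
    calc ‖((1 + 1 / L : ℝ) : ℂ) + 2 * (t : ℂ) * Complex.I‖ ≤
          ‖((1 + 1 / L : ℝ) : ℂ)‖ + ‖2 * (t : ℂ) * Complex.I‖ := norm_add_le _ _
      _ = (1 + 1 / L) + 2 * |t| := by
          rw [Complex.norm_real, Real.norm_of_nonneg (by linarith)]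
          simp
      _ ≤ 2 + 2 * (K₀ * L) := by linarith
      _ ≤ (2 + 2 * K₀) * L := by nlinarith
  have hsm := hsmall U hU1
  have hlU : Real.log U = θ * L := by rw [hU, Real.log_rpow hX0]
  rw [hlU] at hsm
  have hUk : U ^ (-(κ / 2)) = X ^ (-(θ * (κ / 2))) := by
    rw [hU, ← Real.rpow_mul hX0.le]
    congr 1
    ring
  have hDle : ‖Dsum F (((1 + 1 / L : ℝ) : ℂ) + 2 * (t : ℂ) * Complex.I)‖ ≤ δ * L := by
    have e1 : C₃ * (1 + θ * L) ≤ δ / 2 * L := by
      have e3 : C₃ ≤ δ / 4 * L := by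
        rw [div_le_iff₀ hδ] at hL2
        linarith
      nlinarith
    have e2 : ‖((1 + 1 / L : ℝ) : ℂ) + 2 * (t : ℂ) * Complex.I‖ * (4 * C / κ * U ^ (-(κ / 2))) ≤
        δ / 4 * L := by
      rw [hUk]
      calc ‖((1 + 1 / L : ℝ) : ℂ) + 2 * (t : ℂ) * Complex.I‖ *
            (4 * C / κ * X ^ (-(θ * (κ / 2)))) ≤
            ((2 + 2 * K₀) * L) * (4 * C / κ * c') := by
              apply mul_le_mul hsn _ (by positivity) (by positivity)
              exact mul_le_mul_of_nonneg_left h1 (by positivity)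
        _ = δ / 4 * L := by
              rw [hc']
              field_simp
    nlinarith [hD, hsm]
  have hfin := hred g hg m χ k hxi (1 + 1 / L) t hσ1 hσ2
  refine hfin.trans ?_
  have e5 : 1 / (1 + 1 / L - 1) = L := by
    rw [add_sub_cancel_left, one_div_one_div]
  rw [e5]
  calc C₁ * L ^ (3 / 4 : ℝ) * ‖Dsum F (((1 + 1 / L : ℝ) : ℂ) + 2 * (t : ℂ) * Complex.I)‖ ^ (1 / 4 : ℝ)
      ≤ C₁ * L ^ (3 / 4 : ℝ) * (δ * L) ^ (1 / 4 : ℝ) := by
        apply mul_le_mul_of_nonneg_left _ (by positivity)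
        exact Real.rpow_le_rpow (norm_nonneg _) hDle (by norm_num)
    _ = η * L := by
        rw [Real.mul_rpow hδ.le (by linarith)]
        have e6 : δ ^ (1 / 4 : ℝ) = η / C₁ := by
          rw [hδdef, ← Real.rpow_natCast, ← Real.rpow_mul (by positivity)]
          norm_num
        rw [e6]
        have e7 : L ^ (3 / 4 : ℝ) * L ^ (1 / 4 : ℝ) = L := by
          rw [← Real.rpow_add (by linarith)]
          norm_num
        calc C₁ * L ^ (3 / 4 : ℝ) * (η / C₁ * L ^ (1 / 4 : ℝ)) =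
              (C₁ * (η / C₁)) * (L ^ (3 / 4 : ℝ) * L ^ (1 / 4 : ℝ)) := by ring
          _ = η * L := by rw [e7]; field_simp


theorem sup_nonzero_g : type_of% @sup_nonzero_g_pr := @sup_nonzero_g_pr

end Pool.Agent.PENT.MRG
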