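import Pool.Agent.Lib_helper39.MRG.Defs
import Pool.Agent.Lib_helper10.T2F.PTW
import Pool.Agent.Lib_helper10.T2F.HMO
import Pool.Agent.Lib_helper10.T2F.LSG
import Pool.Agent.Lib_helper10.T2F.MER
import Pool.Agent.Lib_helper10.T2F.MRT
import Pool.Agent.Lib_helper10.T2F.PEL
import Pool.Agent.Lib_helper10.T2F.PHM
import Pool.Agent.Lib_helper10.T2F.SPA
import Pool.Agent.Lib_helper10.T2F.TFO
import Pool.Agent.Lib_helper10.T2F.SUK
import Pool.Agent.Lib_helper10.T2F.TJA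
import Pool.Agent.Lib_helper10.T2F.TJB
import Pool.Agent.Lib_helper10.T2F.TKA
import Pool.Agent.Lib_helper10.T2F.TKR
import Pool.Agent.Lib_helper10.T2F.TKV
import Pool.Agent.Lib_helper10.T2F.UCD
import Pool.Agent.Lib_helper10.T2F.BPR
import Pool.Agent.Lib_helper10.T2F.CNT
import Pool.Agent.Lib_helper39.MRGF.P1
import Pool.Agent.Lib_helper39.MRGF.P2

/-! block P3 of MRG, proved by helper32 -/

/-!
# MRG, block P3: every single nonzero frequency, for all real completely multiplicative functions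
(MP_892e4c_nt; port of `Pool.Agent.Lib_helper10.T2F.PTW`)
-/

set_option autoImplicit false

namespace Pool.Agent.PENT.MRG

open Pool.Agent.T2 Filter Topology MeasureTheory

/-- the vanishing of the sums if the character is not trivial on units -/
theorem Sg_zero_pr {g : G → ℝ} (hg : RG g) {m : G} (χ : MChar m) (k : ℤ) (h : xi χ k ui ≠ 1)
    (Y : ℝ) : Sg g χ k Y = 0 := by
  have hnu : nn ui = 1 := by
    have := nn_cast ui
    simp [ui] at this
    exact_mod_cast this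
  have huu : ui * (-ui) = 1 := by
    ext <;> simp [ui]
  have h1 : Sg g χ k Y = xi χ k ui * Sg g χ k Y := by
    unfold Sg
    rw [Finset.mul_sum]
    symm
    apply Finset.sum_nbij' (i := fun z => ui * z) (j := fun z => (-ui) * z)
    · intro z hz
      rw [mem_PB] at hz ⊢
      refine ⟨prm_mul_left (w := -ui) (by
        rw [mul_comm, ← mul_assoc, mul_comm (-ui) ui, huu, one_mul]; exact hz.1), ?_⟩
      rw [nn_mul, hnu, one_mul]; exact hz.2
    · intro z hz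
      rw [mem_PB] at hz ⊢
      refine ⟨prm_mul_left (w := ui) (by
        rw [mul_comm, ← mul_assoc, huu, one_mul]; exact hz.1), ?_⟩
      rw [nn_mul]
      have : nn (-ui) = 1 := by
        have := nn_cast (-ui)
        simp [ui] at this
        exact_mod_cast this
      rw [this, one_mul]; exact hz.2
    · intro z _
      rw [← mul_assoc, mul_comm (-ui) ui, huu, one_mul]
    · intro z _
      rw [← mul_assoc, huu, one_mul]
    · intro z _
      rw [hg.mul, hg.ui, one_mul]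
      simp only [xi, χ.mul, ang_mul]
      ring
  have h2 : (1 - xi χ k ui) * Sg g χ k Y = 0 := by
    rw [sub_mul, one_mul, ← h1, sub_self]
  rcases mul_eq_zero.mp h2 with h3 | h3
  · exact absurd (sub_eq_zero.mp h3).symm h
  · exact h3

/-- the sums over the primitive elements -/
theorem p3_sumM {g : G → ℝ} (hg : RG g) {m : G} (χ : MChar m) (k : ℤ) (h : xi χ k ui = 1) (N : ℕ) :
    ∑ Y ∈ Finset.Icc 1 N, ‖Sg g χ k Y‖ ^ 2 / (Y : ℝ) ^ 3 ≤
      4 * ∑ n ∈ Finset.Icc 1 N,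
        ‖ptw_S (fun z => (g z : ℂ) * xi χ k z) (n : ℝ)‖ ^ 2 / (n : ℝ) ^ 3 := by
  classical
  set f : G → ℂ := fun z => (g z : ℂ) * xi χ k z with hf
  have hCM : CM f := g_CM hg χ k h
  have h1 : ∀ Y ∈ Finset.Icc 1 N, ‖Sg g χ k Y‖ ^ 2 ≤
      2 * ∑ d ∈ Finset.Icc 1 N, (d : ℝ) ^ 2 * ‖ptw_S f ((Y : ℝ) / (d : ℝ) ^ 2)‖ ^ 2 := by
    intro Y hY
    rw [Finset.mem_Icc] at hY
    have h2 : Sg g χ k Y = ∑ d ∈ Finset.Icc 1 N, (ArithmeticFunction.moebius d : ℂ) *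
        ∑ z ∈ Bl ((Y : ℝ) / (d : ℝ) ^ 2), f (d * z) := by
      apply prim_moebius f (Y : ℝ) N
      have : (Y : ℝ) ≤ N := by exact_mod_cast hY.2
      nlinarith
    have h3 : ‖Sg g χ k Y‖ ≤ ∑ d ∈ Finset.Icc 1 N, ‖ptw_S f ((Y : ℝ) / (d : ℝ) ^ 2)‖ := by
      rw [h2]
      refine (norm_sum_le _ _).trans (Finset.sum_le_sum ?_)
      intro d _
      have h4 : ∑ z ∈ Bl ((Y : ℝ) / (d : ℝ) ^ 2), f (d * z) =
          f (d : G) * ptw_S f ((Y : ℝ) / (d : ℝ) ^ 2) := by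
        unfold ptw_S
        rw [Finset.mul_sum]
        apply Finset.sum_congr rfl
        intro z _
        exact hCM.mul _ _
      rw [h4, norm_mul, norm_mul]
      have h5 : ‖((ArithmeticFunction.moebius d : ℤ) : ℂ)‖ ≤ 1 := by
        rw [Complex.norm_intCast]
        have := ArithmeticFunction.abs_moebius_le_one (n := d)
        exact_mod_cast this
      have h6 := hCM.bd (d : G)
      calc ‖((ArithmeticFunction.moebius d : ℤ) : ℂ)‖ *
            (‖f (d : G)‖ * ‖ptw_S f ((Y : ℝ) / (d : ℝ) ^ 2)‖)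
          ≤ 1 * (1 * ‖ptw_S f ((Y : ℝ) / (d : ℝ) ^ 2)‖) := by gcongr
        _ = _ := by ring
    have h7 : (∑ d ∈ Finset.Icc 1 N, ‖ptw_S f ((Y : ℝ) / (d : ℝ) ^ 2)‖) ^ 2 ≤
        (∑ d ∈ Finset.Icc 1 N, 1 / (d : ℝ) ^ 2) *
          ∑ d ∈ Finset.Icc 1 N, (d : ℝ) ^ 2 * ‖ptw_S f ((Y : ℝ) / (d : ℝ) ^ 2)‖ ^ 2 := by
      have := Finset.sum_mul_sq_le_sq_mul_sq (Finset.Icc 1 N) (fun d : ℕ => 1 / (d : ℝ))
        (fun d : ℕ => (d : ℝ) * ‖ptw_S f ((Y : ℝ) / (d : ℝ) ^ 2)‖)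
      calc (∑ d ∈ Finset.Icc 1 N, ‖ptw_S f ((Y : ℝ) / (d : ℝ) ^ 2)‖) ^ 2
          = (∑ d ∈ Finset.Icc 1 N, 1 / (d : ℝ) *
              ((d : ℝ) * ‖ptw_S f ((Y : ℝ) / (d : ℝ) ^ 2)‖)) ^ 2 := by
            congr 1
            apply Finset.sum_congr rfl
            intro d hd
            rw [Finset.mem_Icc] at hd
            have : (0 : ℝ) < d := by exact_mod_cast hd.1
            field_simp
        _ ≤ _ := this
        _ = _ := by
            congr 1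
            · apply Finset.sum_congr rfl
              intro d _; rw [div_pow, one_pow]
            · apply Finset.sum_congr rfl
              intro d _; rw [mul_pow]
    have h8 := ptw_inv_sq N
    have h9 : 0 ≤ ∑ d ∈ Finset.Icc 1 N, (d : ℝ) ^ 2 * ‖ptw_S f ((Y : ℝ) / (d : ℝ) ^ 2)‖ ^ 2 :=
      Finset.sum_nonneg (fun d _ => by positivity)
    calc ‖Sg g χ k Y‖ ^ 2 ≤ (∑ d ∈ Finset.Icc 1 N, ‖ptw_S f ((Y : ℝ) / (d : ℝ) ^ 2)‖) ^ 2 := by
          gcongr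
      _ ≤ _ := h7
      _ ≤ _ := by gcongr
  calc ∑ Y ∈ Finset.Icc 1 N, ‖Sg g χ k Y‖ ^ 2 / (Y : ℝ) ^ 3
      ≤ ∑ Y ∈ Finset.Icc 1 N, (2 * ∑ d ∈ Finset.Icc 1 N,
          (d : ℝ) ^ 2 * ‖ptw_S f ((Y : ℝ) / (d : ℝ) ^ 2)‖ ^ 2) / (Y : ℝ) ^ 3 := by
        apply Finset.sum_le_sum
        intro Y hY
        have := h1 Y hY
        gcongr
    _ = 2 * ∑ d ∈ Finset.Icc 1 N, (d : ℝ) ^ 2 *
          ∑ Y ∈ Finset.Icc 1 N, ‖ptw_S f ((Y : ℝ) / (d : ℝ) ^ 2)‖ ^ 2 / (Y : ℝ) ^ 3 := by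
        simp_rw [Finset.mul_sum, Finset.sum_div]
        rw [Finset.sum_comm]
        apply Finset.sum_congr rfl
        intro d _
        apply Finset.sum_congr rfl
        intro Y _
        ring
    _ ≤ 2 * ∑ d ∈ Finset.Icc 1 N, (d : ℝ) ^ 2 * ((1 / (d : ℝ) ^ 4) *
          ∑ n ∈ Finset.Icc 1 N, ‖ptw_S f (n : ℝ)‖ ^ 2 / (n : ℝ) ^ 3) := by
        apply mul_le_mul_of_nonneg_left _ (by norm_num)
        apply Finset.sum_le_sum
        intro d hd
        rw [Finset.mem_Icc] at hd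
        apply mul_le_mul_of_nonneg_left (ptw_mult f N d hd.1) (by positivity)
    _ = 2 * ((∑ d ∈ Finset.Icc 1 N, 1 / (d : ℝ) ^ 2) *
          ∑ n ∈ Finset.Icc 1 N, ‖ptw_S f (n : ℝ)‖ ^ 2 / (n : ℝ) ^ 3) := by
        rw [Finset.sum_mul]
        congr 1
        apply Finset.sum_congr rfl
        intro d hd
        rw [Finset.mem_Icc] at hd
        have : (0 : ℝ) < d := by exact_mod_cast hd.1
        field_simp
    _ ≤ 2 * (2 * ∑ n ∈ Finset.Icc 1 N, ‖ptw_S f (n : ℝ)‖ ^ 2 / (n : ℝ) ^ 3) := by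
        have h9 : 0 ≤ ∑ n ∈ Finset.Icc 1 N, ‖ptw_S f (n : ℝ)‖ ^ 2 / (n : ℝ) ^ 3 :=
          Finset.sum_nonneg (fun d _ => by positivity)
        have := ptw_inv_sq N
        gcongr
    _ = _ := by ring

theorem mr_point_g_pr {m : G} (hm : m ≠ 0) (χ : MChar m) (ε : ℝ) (hε : 0 < ε) : ∃ X₀ : ℝ, ∀ X : ℝ,
    X₀ ≤ X → ∀ g : G → ℝ, RG g → ∀ k ∈ Ks X, k ≠ 0 →
      ∑ Y ∈ Finset.Icc 1 ⌊X⌋₊, ‖Sg g χ k Y‖ ^ 2 / (Y : ℝ) ^ 3 ≤ ε * Real.log X := by
  obtain ⟨A, hA1, hA⟩ := ball_le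
  obtain ⟨C, hC1, hC⟩ := mean_square
  have hA0 : 0 < A := by linarith
  have hC0 : 0 < C := by linarith
  -- the parameters
  set θ : ℝ := min 1 (ε / (32 * A ^ 2)) with hθdef
  have hθ : 0 < θ := lt_min one_pos (by positivity)
  have hθ1 : θ ≤ 1 := min_le_left _ _
  have hθ2 : A ^ 2 * θ ≤ ε / 32 := by
    have : θ ≤ ε / (32 * A ^ 2) := min_le_right _ _
    calc A ^ 2 * θ ≤ A ^ 2 * (ε / (32 * A ^ 2)) := by gcongr
      _ = ε / 32 := by field_simp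
  set δ : ℝ := ε * θ ^ 2 / (32 * 1024 * C) with hδdef
  have hδ : 0 < δ := by positivity
  set η : ℝ := min 1 δ with hηdef
  have hη : 0 < η := lt_min one_pos hδ
  have hη1 : η ≤ 1 := min_le_left _ _
  have hη2 : η ^ 2 ≤ δ := by
    have : η ≤ δ := min_le_right _ _
    nlinarith
  set K₀ : ℝ := max 1 (1 / δ) with hKdef
  have hK1 : 1 ≤ K₀ := le_max_left _ _
  have hK2 : 1 / K₀ ≤ δ := by
    have h1 : 1 / δ ≤ K₀ := le_max_right _ _
    rw [div_le_iff₀ (by linarith)]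
    rw [div_le_iff₀ hδ] at h1
    linarith
  obtain ⟨X₁, hX₁⟩ := sup_nonzero_g hm χ η K₀ hη hK1
  set L₀ : ℝ := max 1 (max (32 * A ^ 2 / ε) (128 * A ^ 2 / (θ ^ 2 * ε))) with hL₀
  refine ⟨max 3 (max (Real.exp L₀) X₁), ?_⟩
  intro X hX g hg k hk hk0
  have hX3 : 3 ≤ X := le_trans (le_max_left _ _) hX
  have hXe : Real.exp L₀ ≤ X := le_trans (le_trans (le_max_left _ _) (le_max_right _ _)) hX
  have hXX1 : X₁ ≤ X := le_trans (le_trans (le_max_right _ _) (le_max_right _ _)) hX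
  have hX0 : 0 < X := by linarith
  have hL : L₀ ≤ Real.log X := by
    rw [← Real.log_exp L₀]
    exact Real.log_le_log (Real.exp_pos _) hXe
  set L := Real.log X with hLdef
  have hL1 : 1 ≤ L := le_trans (le_max_left _ _) hL
  have hL0 : 0 < L := by linarith
  have hL2 : 32 * A ^ 2 / ε ≤ L :=
    le_trans (le_trans (le_max_left _ _) (le_max_right _ _)) hL
  have hL3 : 128 * A ^ 2 / (θ ^ 2 * ε) ≤ L :=
    le_trans (le_trans (le_max_right _ _) (le_max_right _ _)) hL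
  by_cases hxi : xi χ k ui = 1
  swap
  · have : ∀ Y ∈ Finset.Icc 1 ⌊X⌋₊, ‖Sg g χ k Y‖ ^ 2 / (Y : ℝ) ^ 3 = 0 := by
      intro Y _
      rw [Sg_zero_pr hg χ k hxi]
      simp
    rw [Finset.sum_eq_zero this]
    positivity
  set f : G → ℂ := fun z => (g z : ℂ) * xi χ k z with hf
  have hCM : CM f := g_CM hg χ k hxi
  -- the bound for the Dirichlet series
  have hsup : ∀ t : ℝ, |t| ≤ K₀ * L →
      ‖Dsum f ((1 + 1 / L : ℝ) + t * Complex.I)‖ ≤ η * L := by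
    intro t ht
    exact hX₁ X hXX1 g hg k hk0 (mem_Ks.mp hk) hxi t ht
  have hms := hC f hCM L (K₀ * L) (η * L) hL1 (by nlinarith) (by positivity) hsup
  have hI : ∑ n ∈ Finset.Icc 1 ⌊X⌋₊, ‖ptw_B f (n : ℝ)‖ ^ 2 / (n : ℝ) ^ 3 ≤
      256 * (C * (2 * δ) * L ^ 3) := by
    refine (ptw_sumB hCM.bd A hA X hX3 hL1).trans ?_
    apply mul_le_mul_of_nonneg_left _ (by norm_num)
    refine le_trans hms ?_
    have h1 : (η * L) ^ 2 * L + L ^ 4 / (K₀ * L) = (η ^ 2 + 1 / K₀) * L ^ 3 := by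
      have : K₀ ≠ 0 := by linarith
      field_simp
    rw [h1]
    have h2 : (η ^ 2 + 1 / K₀) ≤ 2 * δ := by linarith
    calc C * ((η ^ 2 + 1 / K₀) * L ^ 3) ≤ C * ((2 * δ) * L ^ 3) := by gcongr
      _ = _ := by ring
  have hS := ptw_sumS hCM.bd A hA1 hA X θ _ hX3 hL1 hθ hθ1 hI
  have hM := p3_sumM hg χ k hxi ⌊X⌋₊
  refine hM.trans ?_
  have h1 : A ^ 2 * (1 + θ * L) ≤ ε * L / 16 := by
    have h2 : A ^ 2 ≤ ε * L / 32 := by
      rw [div_le_iff₀ hε] at hL2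
      linarith
    nlinarith
  have h2 : 2 / (θ ^ 2 * L ^ 2) * (256 * (C * (2 * δ) * L ^ 3) + A ^ 2 * (1 + L)) ≤
      ε * L / 16 := by
    have h3 : 2 / (θ ^ 2 * L ^ 2) * (256 * (C * (2 * δ) * L ^ 3)) = ε * L / 32 := by
      rw [hδdef]
      field_simp
      ring
    have h4 : 2 / (θ ^ 2 * L ^ 2) * (A ^ 2 * (1 + L)) ≤ ε * L / 32 := by
      calc 2 / (θ ^ 2 * L ^ 2) * (A ^ 2 * (1 + L)) ≤
          2 / (θ ^ 2 * L ^ 2) * (A ^ 2 * (2 * L ^ 2)) := by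
            gcongr
            nlinarith
        _ = (128 * A ^ 2 / (θ ^ 2 * ε)) * (ε / 32) := by
            field_simp
            ring
        _ ≤ L * (ε / 32) := by gcongr
        _ = _ := by ring
    rw [mul_add, h3]
    linarith
  have h5 : 0 ≤ ε * L := by positivity
  linarith

theorem Sg_zero : type_of% @Sg_zero_pr := @Sg_zero_pr
theorem mr_point_g : type_of% @mr_point_g_pr := @mr_point_g_pr

end Pool.Agent.PENT.MRG
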