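import Pool.Agent.Lib_helper39.MRG.Defs
import Pool.Agent.Lib_helper10.T2F.CNT
import Pool.Agent.Lib_helper10.T2F.BPR
import Pool.Agent.Lib_helper10.T2F.MER
import Pool.Agent.Lib_helper10.T2F.TFO

/-! block P4 of MRG, proved by helper98 -/

/-!
# MRG, block P4: the Lipschitz bound and Brun-Titchmarsh for the blocks
-/

set_option autoImplicit false

namespace Pool.Agent.PENT.MRG

open Pool.Agent.T2 Filter Topology MeasureTheory

theorem p4_PB_mem {x : ℝ} {z : G} : z ∈ PB x ↔ (z ≠ 0 ∧ (nn z : ℝ) ≤ x) ∧ Prm z := by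
  classical
  unfold PB
  rw [Finset.mem_filter, mem_Bl]

theorem p4_term {g : G → ℝ} (hg : RG g) {m : G} (χ : MChar m) (k : ℤ) (z : G) :
    ‖(g z : ℂ) * xi χ k z‖ ≤ 1 := by
  rw [norm_mul]
  have h1 := hg.norm z
  have h2 := tfo_xi_bd χ k z
  calc ‖(g z : ℂ)‖ * ‖xi χ k z‖ ≤ 1 * 1 :=
        mul_le_mul h1 h2 (norm_nonneg _) (by norm_num)
    _ = 1 := by norm_num

/-- Lipschitz -/
theorem Sg_lip_pr : ∃ C : ℝ, 1 ≤ C ∧ ∀ (g : G → ℝ), RG g → ∀ (m : G) (χ : MChar m) (k : ℤ)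
    (x y : ℝ), 1 ≤ x → x ≤ y → ‖Sg g χ k y - Sg g χ k x‖ ≤ C * (y - x + Real.sqrt y) := by
  classical
  obtain ⟨C, hC, h⟩ := ball_count
  refine ⟨2 * C + 4, by linarith, ?_⟩
  intro g hg m χ k x y hx hxy
  have hsub : PB x ⊆ PB y := by
    intro z hz
    rw [p4_PB_mem] at hz ⊢
    exact ⟨⟨hz.1.1, hz.1.2.trans hxy⟩, hz.2⟩
  have hsubB : Bl x ⊆ Bl y := by
    intro z hz
    rw [mem_Bl] at hz ⊢
    exact ⟨hz.1, hz.2.trans hxy⟩
  have h1 : Sg g χ k y - Sg g χ k x = ∑ z ∈ PB y \ PB x, (g z : ℂ) * xi χ k z := by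
    unfold Sg
    rw [← Finset.sum_sdiff hsub]
    ring
  have h2 : PB y \ PB x ⊆ Bl y \ Bl x := by
    intro z hz
    rw [Finset.mem_sdiff, p4_PB_mem, p4_PB_mem] at hz
    rw [Finset.mem_sdiff, mem_Bl, mem_Bl]
    exact ⟨hz.1.1, fun h3 => hz.2 ⟨h3, hz.1.2⟩⟩
  have h3 : ‖Sg g χ k y - Sg g χ k x‖ ≤ ((Bl y \ Bl x).card : ℝ) := by
    rw [h1]
    calc ‖∑ z ∈ PB y \ PB x, (g z : ℂ) * xi χ k z‖ ≤ ∑ z ∈ PB y \ PB x, ‖(g z : ℂ) * xi χ k z‖ :=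
          norm_sum_le _ _
      _ ≤ ∑ _z ∈ PB y \ PB x, (1 : ℝ) := Finset.sum_le_sum (fun z _ => p4_term hg χ k z)
      _ = ((PB y \ PB x).card : ℝ) := by rw [Finset.sum_const, nsmul_eq_mul, mul_one]
      _ ≤ ((Bl y \ Bl x).card : ℝ) := by exact_mod_cast Finset.card_le_card h2
  have h4 : ((Bl y \ Bl x).card : ℝ) = (Bl y).card - (Bl x).card := by
    rw [Finset.card_sdiff_of_subset hsubB, Nat.cast_sub (Finset.card_le_card hsubB)]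
  have h5 := (abs_le.1 (h y (hx.trans hxy))).2
  have h6 := (abs_le.1 (h x hx)).1
  have h7 : Real.sqrt x ≤ Real.sqrt y := Real.sqrt_le_sqrt hxy
  have h8 := Real.pi_lt_four
  have h9 : 0 ≤ Real.sqrt y := Real.sqrt_nonneg y
  have h10 : Real.pi * y - Real.pi * x ≤ 4 * (y - x) := by nlinarith
  have h11 : C * Real.sqrt x ≤ C * Real.sqrt y := mul_le_mul_of_nonneg_left h7 (by linarith)
  have h12 : 0 ≤ C * (y - x) := mul_nonneg (by linarith) (by linarith)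
  calc ‖Sg g χ k y - Sg g χ k x‖ ≤ ((Bl y).card : ℝ) - (Bl x).card := by rw [← h4]; exact h3
    _ ≤ 4 * (y - x) + 2 * (C * Real.sqrt y) := by linarith
    _ ≤ (2 * C + 4) * (y - x + Real.sqrt y) := by nlinarith

theorem p4_blk_mem {ρ : ℝ} {v : ℕ} {P Q : ℝ} {p : ℕ} (h : p ∈ blk ρ v (pr1 P Q)) :
    p.Prime ∧ p % 4 = 1 ∧ ρ ^ v < (p : ℝ) ∧ (p : ℝ) ≤ ρ ^ (v + 1) := by
  classical
  unfold blk at h
  rw [Finset.mem_filter, mer_mem] at h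
  exact ⟨h.1.1, h.1.2.1, h.2.1, h.2.2⟩

/-- Brun-Titchmarsh for the blocks, from `qp_upper` -/
theorem Qg_le_pr : ∃ C : ℝ, 1 ≤ C ∧ ∀ ρ : ℝ, 1 < ρ → ρ ≤ 2 → ∃ M₀ : ℝ, ∀ (v : ℕ), M₀ ≤ ρ ^ v →
    ∀ (g : G → ℝ), RG g → ∀ (m : G) (χ : MChar m) (k : ℤ) (P Q : ℝ),
      ‖Qg g χ k (blk ρ v (pr1 P Q))‖ ≤ C * (ρ - 1) * ρ ^ v / Real.log (ρ ^ v) := by
  classical
  obtain ⟨C1, hC1, H1⟩ := qp_upper
  obtain ⟨C2, hC2, H2⟩ := block_le
  have hcard : ∀ (g : G → ℝ), RG g → ∀ (m : G) (χ : MChar m) (k : ℤ) (B : Finset ℕ),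
      ‖Qg g χ k B‖ ≤ (B.card : ℝ) := by
    intro g hg m χ k B
    unfold Qg
    calc ‖∑ p ∈ B, (g (pel p) : ℂ) * xi χ k (pel p)‖ ≤
          ∑ p ∈ B, ‖(g (pel p) : ℂ) * xi χ k (pel p)‖ := norm_sum_le _ _
      _ ≤ ∑ _p ∈ B, (1 : ℝ) := Finset.sum_le_sum (fun p _ => p4_term hg χ k (pel p))
      _ = (B.card : ℝ) := by rw [Finset.sum_const, nsmul_eq_mul, mul_one]
  refine ⟨4 * C1 + 2 * C2, by linarith, ?_⟩
  intro ρ hρ hρ2
  rcases le_or_gt (ρ - 1) (1 / 2) with hr | hr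
  · obtain ⟨P₀, hP₀⟩ := H1 (2 * (ρ - 1)) (by linarith) (by linarith)
    refine ⟨max 4 (max (P₀ + 1) (2 / (ρ - 1))), ?_⟩
    intro v hv g hg m χ k P Q
    refine (hcard g hg m χ k _).trans ?_
    set M : ℝ := ρ ^ v with hM
    have hM4 : 4 ≤ M := (le_max_left _ _).trans hv
    have hMP : (P₀ : ℝ) + 1 ≤ M := ((le_max_left _ _).trans (le_max_right _ _)).trans hv
    have hMr : 2 / (ρ - 1) ≤ M := ((le_max_right _ _).trans (le_max_right _ _)).trans hv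
    have hM0 : 0 < M := by linarith
    have hfl : (⌊M⌋₊ : ℝ) ≤ M := Nat.floor_le hM0.le
    have hfg : M < (⌊M⌋₊ : ℝ) + 1 := Nat.lt_floor_add_one M
    have hPf : P₀ ≤ ⌊M⌋₊ := by
      have : (P₀ : ℝ) ≤ M := by linarith
      exact Nat.le_floor this
    have hb := hP₀ ⌊M⌋₊ hPf
    have hsub : blk ρ v (pr1 P Q) ⊆ QP (2 * (ρ - 1)) ⌊M⌋₊ := by
      intro p hp
      obtain ⟨h1, h2, h3, h4⟩ := p4_blk_mem hp
      unfold QP
      rw [mer_mem]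
      refine ⟨h1, h2, hfl.trans_lt h3, ?_⟩
      rw [pow_succ, ← hM] at h4
      have h5 : 2 ≤ (ρ - 1) * M := by
        rw [div_le_iff₀ (by linarith)] at hMr
        linarith
      have h6 : (1 + 2 * (ρ - 1)) * (M - 1) ≤ (1 + 2 * (ρ - 1)) * ⌊M⌋₊ :=
        mul_le_mul_of_nonneg_left (by linarith) (by linarith)
      nlinarith
    have hc : ((blk ρ v (pr1 P Q)).card : ℝ) ≤ ((QP (2 * (ρ - 1)) ⌊M⌋₊).card : ℝ) := by
      exact_mod_cast Finset.card_le_card hsub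
    refine (hc.trans hb).trans ?_
    have hlog0 : 0 < Real.log M := Real.log_pos (by linarith)
    have hsq : Real.sqrt M ≤ (⌊M⌋₊ : ℝ) := by
      have h7 : Real.sqrt M ≤ M - 1 := by
        rw [Real.sqrt_le_left (by linarith)]
        nlinarith
      linarith
    have hlogf : Real.log M / 2 ≤ Real.log (⌊M⌋₊ : ℝ) := by
      rw [← Real.log_sqrt hM0.le]
      exact Real.log_le_log (Real.sqrt_pos.2 hM0) hsq
    have hlogf0 : 0 < Real.log (⌊M⌋₊ : ℝ) := by linarith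
    rw [div_le_div_iff₀ hlogf0 hlog0]
    have hA : 0 ≤ C1 * (2 * (ρ - 1)) := mul_nonneg (by linarith) (by linarith)
    have e1 : C1 * (2 * (ρ - 1)) * (⌊M⌋₊ : ℝ) ≤ C1 * (2 * (ρ - 1)) * M :=
      mul_le_mul_of_nonneg_left hfl hA
    have e2 : C1 * (2 * (ρ - 1)) * (⌊M⌋₊ : ℝ) * Real.log M ≤
        C1 * (2 * (ρ - 1)) * M * Real.log M := mul_le_mul_of_nonneg_right e1 hlog0.le
    have e3 : C1 * (2 * (ρ - 1)) * M * Real.log M ≤
        C1 * (2 * (ρ - 1)) * M * (2 * Real.log (⌊M⌋₊ : ℝ)) :=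
      mul_le_mul_of_nonneg_left (by linarith) (mul_nonneg hA hM0.le)
    have e4 : 0 ≤ 2 * C2 * (ρ - 1) * M * Real.log (⌊M⌋₊ : ℝ) :=
      mul_nonneg (mul_nonneg (mul_nonneg (by linarith) (by linarith)) hM0.le) hlogf0.le
    calc C1 * (2 * (ρ - 1)) * (⌊M⌋₊ : ℝ) * Real.log M ≤
          C1 * (2 * (ρ - 1)) * M * (2 * Real.log (⌊M⌋₊ : ℝ)) := e2.trans e3
      _ ≤ C1 * (2 * (ρ - 1)) * M * (2 * Real.log (⌊M⌋₊ : ℝ)) +
          2 * C2 * (ρ - 1) * M * Real.log (⌊M⌋₊ : ℝ) := by linarith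
      _ = (4 * C1 + 2 * C2) * (ρ - 1) * M * Real.log (⌊M⌋₊ : ℝ) := by ring
  · refine ⟨2, ?_⟩
    intro v hv g hg m χ k P Q
    refine (hcard g hg m χ k _).trans ?_
    set M : ℝ := ρ ^ v with hM
    have hM0 : 0 < M := by linarith
    have hlog0 : 0 < Real.log M := Real.log_pos (by linarith)
    have h1 := H2 M (blk ρ v (pr1 P Q)) hv
      (fun p hp => ⟨(p4_blk_mem hp).1, (p4_blk_mem hp).2.1⟩) (fun p hp => by
        obtain ⟨_, _, h3, h4⟩ := p4_blk_mem hp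
        refine ⟨h3, ?_⟩
        rw [pow_succ, ← hM] at h4
        nlinarith)
    refine h1.trans ?_
    apply div_le_div_of_nonneg_right _ hlog0.le
    have e1 : C2 * M ≤ 2 * C2 * (ρ - 1) * M := by
      have : C2 * M * 1 ≤ C2 * M * (2 * (ρ - 1)) :=
        mul_le_mul_of_nonneg_left (by linarith) (mul_nonneg (by linarith) hM0.le)
      linarith
    have e2 : 0 ≤ 4 * C1 * (ρ - 1) * M :=
      mul_nonneg (mul_nonneg (by linarith) (by linarith)) hM0.le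
    calc C2 * M ≤ 2 * C2 * (ρ - 1) * M + 4 * C1 * (ρ - 1) * M := by linarith
      _ = (4 * C1 + 2 * C2) * (ρ - 1) * M := by ring

theorem Sg_lip : type_of% @Sg_lip_pr := @Sg_lip_pr
theorem Qg_le : type_of% @Qg_le_pr := @Qg_le_pr

end Pool.Agent.PENT.MRG
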