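import Pool.Agent.Lib_helper39.MRG.Defs
import Pool.Agent.Lib_helper10.T2F.PEL
import Pool.Agent.Lib_helper10.T2F.TKA
import Pool.Agent.Lib_helper10.T2F.TKR
import Pool.Agent.Lib_helper10.T2F.TKV

/-! block T1 of MRG, proved by helper59 -/

/-!
# MRG T1 (helper59): the representation of the twisted sum of `g` (port of `m1_prime`, `m1_gen`)
-/

set_option autoImplicit false

namespace Pool.Agent.PENT.MRG

open Pool.Agent.T2 Filter Topology MeasureTheory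

open Classical in
/-- the identity for one prime -/
theorem t1_prime {g : G → ℝ} (hg : RG g) {m : G} (χ : MChar m) (k : ℤ) {Y ρ : ℝ} {p b : ℕ}
    (hY : 1 ≤ Y) (hρ : 1 < ρ) (hρ2 : ρ ≤ 2) (hp : p.Prime) (h4 : p % 4 = 1)
    (hb1 : ρ ^ b < (p : ℝ)) (hb2 : (p : ℝ) ≤ ρ ^ (b + 1)) :
    (g (pel p) : ℂ) * xi χ k (pel p) * Sg g χ k (Y / ρ ^ b) =
      ∑ z ∈ (PB (2 * Y)).filter (fun z => Prm (star (pel p) * z) ∧
          (p : ℝ) * nn z * ρ ^ b ≤ Y), ((g (pel p) : ℂ) * (g (star (pel p)) : ℂ) * χ.f (p : G)) *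
            ((g z : ℂ) * xi χ k z)
      + ∑ z ∈ (PB (2 * Y)).filter (fun z => pel p ∣ z ∧ Y < (nn z : ℝ) ∧
          (nn z : ℝ) * ρ ^ b ≤ p * Y), (g z : ℂ) * xi χ k z
      + ∑ z ∈ (PB Y).filter (fun z => pel p ∣ z), (g z : ℂ) * xi χ k z := by
  obtain ⟨hn, _, _⟩ := pel_spec hp h4
  have hp0 : (0 : ℝ) < p := by exact_mod_cast hp.pos
  have hp1 : (1 : ℝ) ≤ p := by exact_mod_cast hp.one_lt.le
  have hρ0 : 0 < ρ := by linarith
  have hρb : 0 < ρ ^ b := by positivity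
  have hρb1 : 1 ≤ ρ ^ b := one_le_pow₀ hρ.le
  have hY0 : 0 < Y := by linarith
  have hpel0 : pel p ≠ 0 := by
    rw [← nn_pos, hn]
    exact hp.pos
  have hstar0 : star (pel p) ≠ 0 := by
    rw [← nn_pos, nn_star, hn]
    exact hp.pos
  have hnmul : ∀ w : G, (nn (pel p * w) : ℝ) = p * nn w := by
    intro w
    rw [nn_mul, hn]
    push_cast
    rfl
  have hnmul' : ∀ w : G, (nn (star (pel p) * w) : ℝ) = p * nn w := by
    intro w
    rw [nn_mul, nn_star, hn]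
    push_cast
    rfl
  have hpρ : (p : ℝ) ≤ 2 * ρ ^ b := by
    rw [pow_succ] at hb2
    nlinarith
  -- the three sets
  have e3 : ∑ z ∈ (PB Y).filter (fun z => pel p ∣ z), (g z : ℂ) * xi χ k z =
      ∑ w ∈ (PB (Y / ρ ^ b)).filter (fun w => ¬ star (pel p) ∣ w ∧ (p : ℝ) * nn w ≤ Y),
        (g (pel p * w) : ℂ) * xi χ k (pel p * w) := by
    apply tkr_mul_sum hpel0
    · intro w hw
      rw [Finset.mem_filter, mem_PB] at hw
      rw [Finset.mem_filter, mem_PB, hnmul]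
      exact ⟨⟨(pel_prm_mul hp h4).mpr ⟨hw.1.1, hw.2.1⟩, hw.2.2⟩, dvd_mul_right _ _⟩
    · intro z hz
      rw [Finset.mem_filter, mem_PB] at hz
      obtain ⟨w, rfl⟩ := hz.2
      rw [hnmul] at hz
      obtain ⟨h5, h6⟩ := (pel_prm_mul hp h4).mp hz.1.1
      refine ⟨w, ?_, rfl⟩
      rw [Finset.mem_filter, mem_PB]
      refine ⟨⟨h5, ?_⟩, h6, hz.1.2⟩
      rw [le_div_iff₀ hρb]
      have h7 : (0 : ℝ) ≤ nn w := Nat.cast_nonneg _
      nlinarith [hz.1.2]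
  have e1 : ∑ z ∈ (PB (2 * Y)).filter (fun z => pel p ∣ z ∧ Y < (nn z : ℝ) ∧
        (nn z : ℝ) * ρ ^ b ≤ p * Y), (g z : ℂ) * xi χ k z =
      ∑ w ∈ (PB (Y / ρ ^ b)).filter (fun w => ¬ star (pel p) ∣ w ∧ ¬ (p : ℝ) * nn w ≤ Y),
        (g (pel p * w) : ℂ) * xi χ k (pel p * w) := by
    apply tkr_mul_sum hpel0
    · intro w hw
      rw [Finset.mem_filter, mem_PB, le_div_iff₀ hρb, not_le] at hw
      rw [Finset.mem_filter, mem_PB, hnmul]
      have h7 : (0 : ℝ) ≤ nn w := Nat.cast_nonneg _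
      refine ⟨⟨(pel_prm_mul hp h4).mpr ⟨hw.1.1, hw.2.1⟩, ?_⟩, dvd_mul_right _ _, hw.2.2, ?_⟩
      · nlinarith [hw.1.2]
      · nlinarith [hw.1.2]
    · intro z hz
      rw [Finset.mem_filter, mem_PB] at hz
      obtain ⟨w, rfl⟩ := hz.2.1
      rw [hnmul] at hz
      obtain ⟨h5, h6⟩ := (pel_prm_mul hp h4).mp hz.1.1
      refine ⟨w, ?_, rfl⟩
      rw [Finset.mem_filter, mem_PB, le_div_iff₀ hρb, not_le]
      refine ⟨⟨h5, ?_⟩, h6, hz.2.2.1⟩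
      have h8 : (p : ℝ) * (nn w * ρ ^ b) ≤ p * Y := by
        have := hz.2.2.2
        linarith
      exact le_of_mul_le_mul_left h8 hp0
  have e2 : ∑ w ∈ (PB (Y / ρ ^ b)).filter (fun w => star (pel p) ∣ w),
        (g w : ℂ) * xi χ k w =
      ∑ z ∈ (PB (2 * Y)).filter (fun z => Prm (star (pel p) * z) ∧ (p : ℝ) * nn z * ρ ^ b ≤ Y),
        (g (star (pel p) * z) : ℂ) * xi χ k (star (pel p) * z) := by
    apply tkr_mul_sum hstar0
    · intro w hw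
      rw [Finset.mem_filter, mem_PB] at hw
      rw [Finset.mem_filter, mem_PB, hnmul', le_div_iff₀ hρb]
      exact ⟨⟨hw.2.1, hw.2.2⟩, dvd_mul_right _ _⟩
    · intro z hz
      rw [Finset.mem_filter, mem_PB] at hz
      obtain ⟨w, rfl⟩ := hz.2
      rw [hnmul', le_div_iff₀ hρb] at hz
      refine ⟨w, ?_, rfl⟩
      rw [Finset.mem_filter, mem_PB]
      have h7 : (0 : ℝ) ≤ nn w := Nat.cast_nonneg _
      refine ⟨⟨?_, ?_⟩, hz.1.1, hz.1.2⟩
      · apply prm_mul_left (w := star (pel p))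
        rw [mul_comm]
        exact hz.1.1
      · have h8 : (nn w : ℝ) ≤ p * nn w * ρ ^ b := by
          calc (nn w : ℝ) = 1 * nn w * 1 := by ring
            _ ≤ p * nn w * ρ ^ b := by
              apply mul_le_mul _ hρb1 zero_le_one (by positivity)
              exact mul_le_mul_of_nonneg_right hp1 h7
        linarith [hz.1.2]
  -- rewriting
  have hsplit : Sg g χ k (Y / ρ ^ b) =
      ∑ w ∈ (PB (Y / ρ ^ b)).filter (fun w => star (pel p) ∣ w), (g w : ℂ) * xi χ k w +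
      (∑ w ∈ (PB (Y / ρ ^ b)).filter (fun w => ¬ star (pel p) ∣ w ∧ (p : ℝ) * nn w ≤ Y),
        (g w : ℂ) * xi χ k w +
      ∑ w ∈ (PB (Y / ρ ^ b)).filter (fun w => ¬ star (pel p) ∣ w ∧ ¬ (p : ℝ) * nn w ≤ Y),
        (g w : ℂ) * xi χ k w) := by
    rw [Sg, ← Finset.sum_filter_add_sum_filter_not (PB (Y / ρ ^ b)) (fun w => star (pel p) ∣ w)]
    congr 1
    rw [← Finset.sum_filter_add_sum_filter_not
      ((PB (Y / ρ ^ b)).filter (fun w => ¬ star (pel p) ∣ w)) (fun w => (p : ℝ) * nn w ≤ Y),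
      Finset.filter_filter, Finset.filter_filter]
  have hg1 : ∀ w : G, (g (pel p * w) : ℂ) * xi χ k (pel p * w) =
      (g (pel p) : ℂ) * xi χ k (pel p) * ((g w : ℂ) * xi χ k w) := by
    intro w
    rw [hg.mul, tkr_xi_mul]
    push_cast
    ring
  have hg2 : ∀ w : G, (g (pel p) : ℂ) * xi χ k (pel p) *
      ((g (star (pel p) * w) : ℂ) * xi χ k (star (pel p) * w)) =
      ((g (pel p) : ℂ) * (g (star (pel p)) : ℂ) * χ.f (p : G)) * ((g w : ℂ) * xi χ k w) := by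
    intro w
    have h5 : xi χ k (pel p) * xi χ k (star (pel p)) = χ.f (p : G) := by
      rw [← tkr_xi_mul, pel_mul_star hp h4, xi, ang_nat k hp.one_lt.le, mul_one]
    rw [hg.mul, tkr_xi_mul, ← h5]
    push_cast
    ring
  rw [e3, e1, hsplit, e2]
  simp only [hg1, ← Finset.mul_sum]
  rw [mul_add, mul_add, Finset.mul_sum]
  simp only [hg2, ← Finset.mul_sum]
  ring


theorem tk_rep_g_pr : ∃ C : ℝ, 1 ≤ C ∧ ∀ (g : G → ℝ), RG g → ∀ (m : G) (χ : MChar m)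
    (Y ρ P : ℝ) (B : Finset ℕ) (V : ℕ),
    1 ≤ Y → 1 < ρ → ρ ≤ 2 → Y ^ (-(1 / 16) : ℝ) ≤ ρ - 1 → 2 ≤ P → Pset B →
    (∀ p ∈ B, P < (p : ℝ) ∧ (p : ℝ) ≤ Y ^ (1 / 4 : ℝ) ∧ (p : ℝ) ≤ ρ ^ V) → 1 ≤ rs B →
    ∃ c : G → ℂ, ∑ z ∈ PB (2 * Y), ‖c z‖ ^ 2 ≤
        C * Y * (1 / rs B + (ρ - 1) + 1 / (rs B ^ 2 * Real.log P)) ∧
      ∀ k : ℤ, Sg g χ k Y - (1 / (rs B : ℂ)) * ∑ v ∈ Finset.range V,
        Qg g χ k (blk ρ v B) * Sg g χ k (Y / ρ ^ v) = ∑ z ∈ PB (2 * Y), c z * ang k z := by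
  classical
  obtain ⟨C₁, hC₁, hvar⟩ := tk_var
  obtain ⟨C₂, hC₂, hann⟩ := tk_ann
  obtain ⟨C₃, hC₃, hcop⟩ := tk_cop
  refine ⟨3 * (C₁ + 4 * C₂ + C₃), by linarith, ?_⟩
  intro g hg m χ Y ρ P B V hY hρ hρ2 hYρ hP hPs hB hrs
  obtain ⟨b, hbV, hb, hblk⟩ := tkr_block hρ (V := V) (B := B)
    (fun p hp => ⟨by linarith [(hB p hp).1], (hB p hp).2.2⟩)
  have hY0 : 0 < Y := by linarith
  obtain ⟨Ω, hΩ⟩ : ∃ Ω : ℝ, Ω = rs B := ⟨_, rfl⟩
  rw [← hΩ] at hrs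
  simp only [← hΩ]
  have hΩ0 : 0 < Ω := by linarith
  have hΩc : (Ω : ℂ) ≠ 0 := by exact_mod_cast hΩ0.ne'
  have hlogP : 0 < Real.log P := Real.log_pos (by linarith)
  have hrange : ∀ p ∈ B, (p : ℝ) ≤ Y := by
    intro p hp
    refine le_trans (hB p hp).2.1 ?_
    calc Y ^ (1 / 4 : ℝ) ≤ Y ^ (1 : ℝ) := Real.rpow_le_rpow_of_exponent_le hY (by norm_num)
      _ = Y := Real.rpow_one Y
  -- the coefficients
  obtain ⟨N₁, hN₁⟩ : ∃ N₁ : G → Finset ℕ, N₁ = fun z => B.filter (fun p => pel p ∣ z ∧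
    Y < (nn z : ℝ) ∧ (nn z : ℝ) * ρ ^ (b p) ≤ p * Y) := ⟨_, rfl⟩
  obtain ⟨N₂, hN₂⟩ : ∃ N₂ : G → Finset ℕ, N₂ = fun z => B.filter (fun p =>
    Prm (star (pel p) * z) ∧ (p : ℝ) * nn z * ρ ^ (b p) ≤ Y) := ⟨_, rfl⟩
  obtain ⟨w₂, hw₂⟩ : ∃ w₂ : ℕ → ℂ, w₂ = fun p => (g (pel p) : ℂ) * (g (star (pel p)) : ℂ) *
    χ.f (p : G) := ⟨_, rfl⟩
  have hw₂n : ∀ p, ‖w₂ p‖ ≤ 1 := by
    intro p
    rw [hw₂]
    simp only
    rw [norm_mul, norm_mul]
    calc ‖(g (pel p) : ℂ)‖ * ‖(g (star (pel p)) : ℂ)‖ * ‖χ.f (p : G)‖ ≤ 1 * 1 * 1 := by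
          apply mul_le_mul _ (tkr_chi_le χ _) (norm_nonneg _) (by norm_num)
          exact mul_le_mul (hg.norm _) (hg.norm _) (norm_nonneg _) zero_le_one
      _ = 1 := by norm_num
  obtain ⟨c₁, hc₁⟩ : ∃ c₁ : G → ℂ, c₁ = fun z => -(1 / (Ω : ℂ)) * ((g z : ℂ) * χ.f z *
    ((N₁ z).card : ℂ)) := ⟨_, rfl⟩
  obtain ⟨c₂, hc₂⟩ : ∃ c₂ : G → ℂ, c₂ = fun z => -(1 / (Ω : ℂ)) * ((g z : ℂ) * χ.f z *
    ∑ p ∈ N₂ z, w₂ p) := ⟨_, rfl⟩
  obtain ⟨c₃, hc₃⟩ : ∃ c₃ : G → ℂ, c₃ = fun z => if (nn z : ℝ) ≤ Y then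
    (1 - (om B z : ℂ) / (Ω : ℂ)) * ((g z : ℂ) * χ.f z) else 0 := ⟨_, rfl⟩
  have hgχ : ∀ z, ‖(g z : ℂ) * χ.f z‖ ≤ 1 := by
    intro z
    rw [norm_mul, Complex.norm_real, Real.norm_eq_abs]
    calc |g z| * ‖χ.f z‖ ≤ 1 * 1 :=
          mul_le_mul (hg.abs z) (tkr_chi_le χ z) (norm_nonneg _) zero_le_one
      _ = 1 := one_mul 1
  have hnΩ : ‖-(1 / (Ω : ℂ))‖ = 1 / Ω := by
    rw [norm_neg, norm_div, norm_one, Complex.norm_real, Real.norm_eq_abs, abs_of_pos hΩ0]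
  -- bound for `c₁`
  have hb₁ : ∑ z ∈ PB (2 * Y), ‖c₁ z‖ ^ 2 ≤ 4 * C₂ * ((ρ - 1) * Y) := by
    have hle : ∀ z, ‖c₁ z‖ ≤ 1 / Ω * ((N₁ z).card : ℝ) := by
      intro z
      rw [hc₁]
      simp only
      rw [norm_mul, hnΩ, norm_mul, Complex.norm_natCast]
      apply mul_le_mul_of_nonneg_left _ (by positivity)
      calc ‖(g z : ℂ) * χ.f z‖ * ((N₁ z).card : ℝ) ≤ 1 * ((N₁ z).card : ℝ) :=
            mul_le_mul_of_nonneg_right (hgχ z) (Nat.cast_nonneg _)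
        _ = _ := one_mul _
    have hsub : (PB (ρ * Y)).filter (fun z => Y < (nn z : ℝ)) ⊆ PB (2 * Y) := by
      intro z hz
      rw [Finset.mem_filter, mem_PB] at hz
      rw [mem_PB]
      refine ⟨hz.1.1, ?_⟩
      nlinarith [hz.1.2]
    have hzero : ∀ z ∈ PB (2 * Y), z ∉ (PB (ρ * Y)).filter (fun z => Y < (nn z : ℝ)) →
        ‖c₁ z‖ ^ 2 = 0 := by
      intro z hz hz2
      rw [mem_PB] at hz
      have hem : N₁ z = ∅ := by
        rw [hN₁]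
        simp only
        rw [Finset.filter_eq_empty_iff]
        rintro p hp ⟨h1, h2, h3⟩
        apply hz2
        rw [Finset.mem_filter, mem_PB]
        refine ⟨⟨hz.1, ?_⟩, h2⟩
        have hρb : 0 < ρ ^ (b p) := by positivity
        have h4 : (nn z : ℝ) * ρ ^ (b p) ≤ (ρ * Y) * ρ ^ (b p) := by
          refine le_trans h3 ?_
          have h5 := (hb p hp).2
          rw [pow_succ] at h5
          calc (p : ℝ) * Y ≤ (ρ ^ (b p) * ρ) * Y := mul_le_mul_of_nonneg_right h5 hY0.le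
            _ = _ := by ring
        exact le_of_mul_le_mul_right h4 hρb
      have : ‖c₁ z‖ ≤ 0 := by
        refine le_trans (hle z) ?_
        rw [hem]
        simp
      have h0 : ‖c₁ z‖ = 0 := le_antisymm this (norm_nonneg _)
      rw [h0]
      norm_num
    rw [← Finset.sum_subset hsub hzero]
    have hA := hann Y ρ B hY hρ hρ2 hYρ hPs (fun p hp => (hB p hp).2.1)
    rw [← hΩ] at hA
    have hom : ∀ z, ‖c₁ z‖ ^ 2 ≤ (1 / Ω) ^ 2 * om B z ^ 2 := by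
      intro z
      rw [← mul_pow]
      apply pow_le_pow_left₀ (norm_nonneg _)
      refine le_trans (hle z) ?_
      apply mul_le_mul_of_nonneg_left _ (by positivity)
      rw [om, hN₁]
      simp only [Nat.cast_le]
      apply Finset.card_le_card
      intro p hp
      rw [Finset.mem_filter] at hp ⊢
      exact ⟨hp.1, hp.2.1⟩
    calc ∑ z ∈ (PB (ρ * Y)).filter (fun z => Y < (nn z : ℝ)), ‖c₁ z‖ ^ 2 ≤
        ∑ z ∈ (PB (ρ * Y)).filter (fun z => Y < (nn z : ℝ)), (1 / Ω) ^ 2 * om B z ^ 2 :=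
          Finset.sum_le_sum (fun z _ => hom z)
      _ = (1 / Ω) ^ 2 * ∑ z ∈ (PB (ρ * Y)).filter (fun z => Y < (nn z : ℝ)), om B z ^ 2 := by
          rw [Finset.mul_sum]
      _ ≤ (1 / Ω) ^ 2 * (C₂ * (ρ - 1) * Y * (Ω + 1) ^ 2) :=
          mul_le_mul_of_nonneg_left hA (by positivity)
      _ ≤ (1 / Ω) ^ 2 * (C₂ * (ρ - 1) * Y * (2 * Ω) ^ 2) := by
          apply mul_le_mul_of_nonneg_left _ (by positivity)
          have h1 : 0 ≤ C₂ * (ρ - 1) * Y := by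
            have : 0 ≤ ρ - 1 := by linarith
            positivity
          apply mul_le_mul_of_nonneg_left _ h1
          apply pow_le_pow_left₀ (by linarith)
          linarith
      _ = 4 * C₂ * ((ρ - 1) * Y) := by
          field_simp
          ring
  -- bound for `c₂`
  have hb₂ : ∑ z ∈ PB (2 * Y), ‖c₂ z‖ ^ 2 ≤ C₃ * (Y * (1 / (Ω ^ 2 * Real.log P))) := by
    have hle : ∀ z, ‖c₂ z‖ ^ 2 ≤ (1 / Ω) ^ 2 * (((Finset.range (⌊Y⌋₊ + 1)).filter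
        (fun p : ℕ => p.Prime ∧ P < (p : ℝ) ∧ (p : ℝ) ^ 2 * nn z ≤ 2 * Y)).card : ℝ) ^ 2 := by
      intro z
      rw [← mul_pow]
      apply pow_le_pow_left₀ (norm_nonneg _)
      rw [hc₂]
      simp only
      rw [norm_mul, hnΩ, norm_mul]
      apply mul_le_mul_of_nonneg_left _ (by positivity)
      have h1 : ‖∑ p ∈ N₂ z, w₂ p‖ ≤ ((N₂ z).card : ℝ) := by
        refine le_trans (norm_sum_le _ _) ?_
        calc ∑ p ∈ N₂ z, ‖w₂ p‖ ≤ ∑ p ∈ N₂ z, (1 : ℝ) :=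
              Finset.sum_le_sum (fun p _ => hw₂n p)
          _ = ((N₂ z).card : ℝ) := by rw [Finset.sum_const, nsmul_eq_mul, mul_one]
      have h2 : ((N₂ z).card : ℝ) ≤ (((Finset.range (⌊Y⌋₊ + 1)).filter
          (fun p : ℕ => p.Prime ∧ P < (p : ℝ) ∧ (p : ℝ) ^ 2 * nn z ≤ 2 * Y)).card : ℝ) := by
        rw [hN₂]
        simp only [Nat.cast_le]
        apply Finset.card_le_card
        intro p hp
        rw [Finset.mem_filter] at hp
        obtain ⟨hp1, hp2, hp3⟩ := hp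
        rw [Finset.mem_filter, Finset.mem_range]
        refine ⟨?_, (hPs p hp1).1, (hB p hp1).1, ?_⟩
        · rw [Nat.lt_succ_iff]
          exact Nat.le_floor (hrange p hp1)
        · have h5 := (hb p hp1).2
          rw [pow_succ] at h5
          have hp0 : (0 : ℝ) ≤ p := Nat.cast_nonneg _
          have hn0 : (0 : ℝ) ≤ nn z := Nat.cast_nonneg _
          have hρb : 0 < ρ ^ (b p) := by positivity
          calc (p : ℝ) ^ 2 * nn z = (p * nn z) * p := by ring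
            _ ≤ (p * nn z) * (ρ ^ (b p) * ρ) :=
                mul_le_mul_of_nonneg_left h5 (by positivity)
            _ = ρ * (p * nn z * ρ ^ (b p)) := by ring
            _ ≤ ρ * Y := mul_le_mul_of_nonneg_left hp3 (by linarith)
            _ ≤ 2 * Y := mul_le_mul_of_nonneg_right hρ2 hY0.le
      calc ‖(g z : ℂ) * χ.f z‖ * ‖∑ p ∈ N₂ z, w₂ p‖ ≤ 1 * ((N₂ z).card : ℝ) :=
            mul_le_mul (hgχ z) h1 (norm_nonneg _) zero_le_one
        _ = ((N₂ z).card : ℝ) := one_mul _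
        _ ≤ _ := h2
    calc ∑ z ∈ PB (2 * Y), ‖c₂ z‖ ^ 2 ≤ ∑ z ∈ PB (2 * Y), (1 / Ω) ^ 2 *
          (((Finset.range (⌊Y⌋₊ + 1)).filter
          (fun p : ℕ => p.Prime ∧ P < (p : ℝ) ∧ (p : ℝ) ^ 2 * nn z ≤ 2 * Y)).card : ℝ) ^ 2 :=
          Finset.sum_le_sum (fun z _ => hle z)
      _ = (1 / Ω) ^ 2 * ∑ z ∈ PB (2 * Y), (((Finset.range (⌊Y⌋₊ + 1)).filter
          (fun p : ℕ => p.Prime ∧ P < (p : ℝ) ∧ (p : ℝ) ^ 2 * nn z ≤ 2 * Y)).card : ℝ) ^ 2 := by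
          rw [Finset.mul_sum]
      _ ≤ (1 / Ω) ^ 2 * (C₃ * Y / Real.log P) :=
          mul_le_mul_of_nonneg_left (hcop Y P hY hP) (by positivity)
      _ = C₃ * (Y * (1 / (Ω ^ 2 * Real.log P))) := by
          field_simp
  -- bound for `c₃`
  have hb₃ : ∑ z ∈ PB (2 * Y), ‖c₃ z‖ ^ 2 ≤ C₁ * (Y * (1 / Ω)) := by
    have hsub : PB Y ⊆ PB (2 * Y) := by
      intro z hz
      rw [mem_PB] at hz ⊢
      exact ⟨hz.1, by linarith [hz.2]⟩
    have hzero : ∀ z ∈ PB (2 * Y), z ∉ PB Y → ‖c₃ z‖ ^ 2 = 0 := by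
      intro z hz hz2
      rw [mem_PB] at hz hz2
      have : ¬ (nn z : ℝ) ≤ Y := fun h => hz2 ⟨hz.1, h⟩
      rw [hc₃]
      simp only [if_neg this, norm_zero]
      norm_num
    rw [← Finset.sum_subset hsub hzero]
    have hV := hvar Y B hY hPs (fun p hp => (hB p hp).2.1) (by rw [← hΩ]; exact hrs)
    rw [← hΩ] at hV
    have hle : ∀ z ∈ PB Y, ‖c₃ z‖ ^ 2 ≤ (1 / Ω) ^ 2 * (om B z - Ω) ^ 2 := by
      intro z hz
      rw [mem_PB] at hz
      rw [hc₃]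
      simp only [if_pos hz.2]
      rw [← mul_pow, ← sq_abs (1 / Ω * (om B z - Ω))]
      apply pow_le_pow_left₀ (norm_nonneg _)
      rw [norm_mul]
      have h1 : ‖(1 - (om B z : ℂ) / (Ω : ℂ))‖ = |1 / Ω * (om B z - Ω)| := by
        have : (1 - (om B z : ℂ) / (Ω : ℂ)) = ((-(1 / Ω * (om B z - Ω)) : ℝ) : ℂ) := by
          push_cast
          field_simp
          ring
        rw [this, Complex.norm_real, Real.norm_eq_abs, abs_neg]
      rw [h1]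
      calc |1 / Ω * (om B z - Ω)| * ‖(g z : ℂ) * χ.f z‖ ≤ |1 / Ω * (om B z - Ω)| * 1 :=
            mul_le_mul_of_nonneg_left (hgχ z) (abs_nonneg _)
        _ = _ := mul_one _
    calc ∑ z ∈ PB Y, ‖c₃ z‖ ^ 2 ≤ ∑ z ∈ PB Y, (1 / Ω) ^ 2 * (om B z - Ω) ^ 2 :=
          Finset.sum_le_sum hle
      _ = (1 / Ω) ^ 2 * ∑ z ∈ PB Y, (om B z - Ω) ^ 2 := by rw [Finset.mul_sum]
      _ ≤ (1 / Ω) ^ 2 * (C₁ * Y * Ω) := mul_le_mul_of_nonneg_left hV (by positivity)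
      _ = C₁ * (Y * (1 / Ω)) := by
          field_simp
  refine ⟨fun z => c₁ z + c₂ z + c₃ z, ?_, ?_⟩
  · calc ∑ z ∈ PB (2 * Y), ‖c₁ z + c₂ z + c₃ z‖ ^ 2 ≤
        ∑ z ∈ PB (2 * Y), 3 * (‖c₁ z‖ ^ 2 + ‖c₂ z‖ ^ 2 + ‖c₃ z‖ ^ 2) :=
          Finset.sum_le_sum (fun z _ => tkr_three _ _ _)
      _ = 3 * (∑ z ∈ PB (2 * Y), ‖c₁ z‖ ^ 2 + ∑ z ∈ PB (2 * Y), ‖c₂ z‖ ^ 2 +
          ∑ z ∈ PB (2 * Y), ‖c₃ z‖ ^ 2) := by
          rw [← Finset.mul_sum, Finset.sum_add_distrib, Finset.sum_add_distrib]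
      _ ≤ 3 * (4 * C₂ * ((ρ - 1) * Y) + C₃ * (Y * (1 / (Ω ^ 2 * Real.log P))) +
          C₁ * (Y * (1 / Ω))) := by linarith
      _ ≤ 3 * (C₁ + 4 * C₂ + C₃) * Y * (1 / Ω + (ρ - 1) + 1 / (Ω ^ 2 * Real.log P)) := by
          have h1 : 0 ≤ (ρ - 1) * Y := mul_nonneg (by linarith) hY0.le
          have h2 : 0 ≤ Y * (1 / (Ω ^ 2 * Real.log P)) := by positivity
          have h3 : 0 ≤ Y * (1 / Ω) := by positivity
          have h4 : 3 * (C₁ + 4 * C₂ + C₃) * Y * (1 / Ω + (ρ - 1) + 1 / (Ω ^ 2 * Real.log P)) =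
            3 * ((C₁ + 4 * C₂ + C₃) * ((ρ - 1) * Y) +
              (C₁ + 4 * C₂ + C₃) * (Y * (1 / (Ω ^ 2 * Real.log P))) +
              (C₁ + 4 * C₂ + C₃) * (Y * (1 / Ω))) := by ring
          rw [h4]
          have h5 := mul_le_mul_of_nonneg_right (show 4 * C₂ ≤ C₁ + 4 * C₂ + C₃ by linarith) h1
          have h6 := mul_le_mul_of_nonneg_right (show C₃ ≤ C₁ + 4 * C₂ + C₃ by linarith) h2
          have h7 := mul_le_mul_of_nonneg_right (show C₁ ≤ C₁ + 4 * C₂ + C₃ by linarith) h3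
          linarith
  · intro k
    have hQ : ∑ v ∈ Finset.range V, Qg g χ k (blk ρ v B) * Sg g χ k (Y / ρ ^ v) =
        ∑ p ∈ B, (g (pel p) : ℂ) * xi χ k (pel p) * Sg g χ k (Y / ρ ^ (b p)) := by
      rw [← Finset.sum_fiberwise_of_maps_to hbV]
      apply Finset.sum_congr rfl
      intro v _
      rw [hblk v, Qg, Finset.sum_mul]
      apply Finset.sum_congr rfl
      intro p hp
      rw [Finset.mem_filter] at hp
      rw [hp.2]
    have hprime : ∀ p ∈ B, (g (pel p) : ℂ) * xi χ k (pel p) * Sg g χ k (Y / ρ ^ (b p)) =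
        ∑ z ∈ (PB (2 * Y)).filter (fun z => Prm (star (pel p) * z) ∧
          (p : ℝ) * nn z * ρ ^ (b p) ≤ Y), w₂ p * ((g z : ℂ) * xi χ k z)
        + ∑ z ∈ (PB (2 * Y)).filter (fun z => pel p ∣ z ∧ Y < (nn z : ℝ) ∧
          (nn z : ℝ) * ρ ^ (b p) ≤ p * Y), (g z : ℂ) * xi χ k z
        + ∑ z ∈ (PB Y).filter (fun z => pel p ∣ z), (g z : ℂ) * xi χ k z := by
      intro p hp
      rw [t1_prime hg χ k hY hρ hρ2 (hPs p hp).1 (hPs p hp).2 (hb p hp).1 (hb p hp).2, hw₂]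
    rw [hQ, Finset.sum_congr rfl hprime, Finset.sum_add_distrib, Finset.sum_add_distrib]
    -- exchange the sums
    have s2 : ∑ p ∈ B, ∑ z ∈ (PB (2 * Y)).filter (fun z => Prm (star (pel p) * z) ∧
          (p : ℝ) * nn z * ρ ^ (b p) ≤ Y), w₂ p * ((g z : ℂ) * xi χ k z) =
        ∑ z ∈ PB (2 * Y), (∑ p ∈ N₂ z, w₂ p) * ((g z : ℂ) * xi χ k z) := by
      simp only [hN₂, Finset.sum_filter, Finset.sum_mul]
      rw [Finset.sum_comm]
      apply Finset.sum_congr rfl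
      intro z _
      apply Finset.sum_congr rfl
      intro p _
      split_ifs <;> simp
    have s1 : ∑ p ∈ B, ∑ z ∈ (PB (2 * Y)).filter (fun z => pel p ∣ z ∧ Y < (nn z : ℝ) ∧
          (nn z : ℝ) * ρ ^ (b p) ≤ p * Y), (g z : ℂ) * xi χ k z =
        ∑ z ∈ PB (2 * Y), ((N₁ z).card : ℂ) * ((g z : ℂ) * xi χ k z) := by
      simp only [hN₁, Finset.card_filter, Finset.sum_filter]
      rw [Finset.sum_comm]
      apply Finset.sum_congr rfl
      intro z _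
      rw [Nat.cast_sum, Finset.sum_mul]
      apply Finset.sum_congr rfl
      intro p _
      split_ifs <;> simp
    have s3 : ∑ p ∈ B, ∑ z ∈ (PB Y).filter (fun z => pel p ∣ z), (g z : ℂ) * xi χ k z =
        ∑ z ∈ PB Y, (om B z : ℂ) * ((g z : ℂ) * xi χ k z) := by
      simp only [om, Finset.card_filter, Finset.sum_filter]
      rw [Finset.sum_comm]
      apply Finset.sum_congr rfl
      intro z _
      push_cast
      rw [Finset.sum_mul]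
      apply Finset.sum_congr rfl
      intro p _
      split_ifs <;> simp
    have hPBY : PB Y = (PB (2 * Y)).filter (fun z => (nn z : ℝ) ≤ Y) := by
      ext z
      rw [Finset.mem_filter, mem_PB, mem_PB]
      constructor
      · rintro ⟨h1, h2⟩
        exact ⟨⟨h1, by linarith⟩, h2⟩
      · rintro ⟨⟨h1, _⟩, h2⟩
        exact ⟨h1, h2⟩
    have f3 : ∑ z ∈ PB (2 * Y), c₃ z * ang k z = Sg g χ k Y -
        (1 / (Ω : ℂ)) * ∑ z ∈ PB Y, (om B z : ℂ) * ((g z : ℂ) * xi χ k z) := by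
      rw [Sg, Finset.mul_sum, ← Finset.sum_sub_distrib, hPBY, Finset.sum_filter]
      apply Finset.sum_congr rfl
      intro z _
      rw [hc₃]
      simp only
      split_ifs
      · rw [xi]
        ring
      · rw [zero_mul]
    have f1 : ∑ z ∈ PB (2 * Y), c₁ z * ang k z = -((1 / (Ω : ℂ)) * ∑ z ∈ PB (2 * Y),
        ((N₁ z).card : ℂ) * ((g z : ℂ) * xi χ k z)) := by
      rw [Finset.mul_sum, ← Finset.sum_neg_distrib]
      apply Finset.sum_congr rfl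
      intro z _
      rw [hc₁]
      simp only
      rw [xi]
      ring
    have f2 : ∑ z ∈ PB (2 * Y), c₂ z * ang k z = -((1 / (Ω : ℂ)) * ∑ z ∈ PB (2 * Y),
        (∑ p ∈ N₂ z, w₂ p) * ((g z : ℂ) * xi χ k z)) := by
      rw [Finset.mul_sum, ← Finset.sum_neg_distrib]
      apply Finset.sum_congr rfl
      intro z _
      rw [hc₂]
      simp only
      rw [xi]
      ring
    rw [s1, s2, s3]
    simp only [add_mul, Finset.sum_add_distrib]
    rw [f1, f2, f3]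
    ring

theorem tk_rep_g : type_of% @tk_rep_g_pr := @tk_rep_g_pr

end Pool.Agent.PENT.MRG
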