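import Pool.Agent.Lib_helper39.MRG.Defs
import Pool.Agent.Lib_helper10.T2F.MER
import Pool.Agent.Lib_helper10.T2F.CNT
import Pool.Agent.Lib_helper10.T2F.SPA
import Pool.Agent.Lib_helper10.T2F.HMO
import Pool.Agent.Lib_helper10.T2F.LSG
import Pool.Agent.Lib_helper10.T2F.MRT
import Pool.Agent.Lib_helper10.T2F.PEL
import Pool.Agent.Lib_helper10.T2F.PHM
import Pool.Agent.Lib_helper10.T2F.PTW
import Pool.Agent.Lib_helper10.T2F.TFO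
import Pool.Agent.Lib_helper10.T2F.SUK
import Pool.Agent.Lib_helper10.T2F.TJA
import Pool.Agent.Lib_helper10.T2F.TJB
import Pool.Agent.Lib_helper10.T2F.TKA
import Pool.Agent.Lib_helper10.T2F.TKR
import Pool.Agent.Lib_helper10.T2F.TKV
import Pool.Agent.Lib_helper10.T2F.UCD
import Pool.Agent.Lib_helper10.T2F.BPR
import Pool.Agent.Lib_helper39.MRGF.P3
import Pool.Agent.Lib_helper39.MRGF.P4
import Pool.Agent.Lib_helper39.MRGF.P6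
import Pool.Agent.Lib_helper39.MRGF.T1

/-! block P5 of MRG, proved by helper59 -/

/-!
# MRG P5 (helper59): every nonzero frequency
-/

set_option autoImplicit false

namespace Pool.Agent.PENT.MRG

open Pool.Agent.T2 Filter Topology MeasureTheory

/-- the number of nonempty blocks -/
theorem p5_card {X a b ρ : ℝ} (hX : 0 < X) (ha : 0 < a) (hab : a ≤ b) (hb : b ≤ 1 / 4)
    (ha2 : 2 ≤ a * Real.log X) (hρ : 1 < ρ) (hρ2 : ρ ≤ 2) (V : ℕ) :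
    ((spa_W ρ (pr1 (X ^ a) (X ^ b)) V).card : ℝ) ≤ Real.log X / (ρ - 1) := by
  have hρ0 : 0 < ρ := by linarith
  have hlρ : 0 < Real.log ρ := Real.log_pos hρ
  have hlρ1 : Real.log ρ ≤ 1 := by
    have h5 : Real.log ρ ≤ Real.log 2 := Real.log_le_log hρ0 hρ2
    have h6 := Real.log_two_lt_d9
    linarith
  have hlX : 0 < Real.log X := by
    by_contra hc
    rw [not_lt] at hc
    nlinarith
  set L := Real.log X / Real.log ρ with hL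
  have hL0 : 0 < L := by positivity
  have haL : 2 ≤ a * L := by
    rw [hL, mul_div_assoc', le_div_iff₀ hlρ]
    nlinarith
  have hbL : 2 ≤ b * L := le_trans haL (mul_le_mul_of_nonneg_right hab hL0.le)
  have hv1 : ∀ v ∈ spa_W ρ (pr1 (X ^ a) (X ^ b)) V, (v : ℝ) ≤ b * L := by
    intro v hv
    rw [spa_W, Finset.mem_filter] at hv
    obtain ⟨-, h2, -, -⟩ := spa_facts hX ha2 hρ hρ2 hv.2
    rw [hL, mul_div_assoc', le_div_iff₀ hlρ]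
    exact h2
  have hcard : ((spa_W ρ (pr1 (X ^ a) (X ^ b)) V).card : ℝ) ≤ b * L + 1 := by
    have hsub : spa_W ρ (pr1 (X ^ a) (X ^ b)) V ⊆ Finset.range (⌊b * L⌋₊ + 1) := by
      intro v hv
      rw [Finset.mem_range]
      have := Nat.le_floor (hv1 v hv)
      omega
    have h1 := Finset.card_le_card hsub
    rw [Finset.card_range] at h1
    have h2 : ((spa_W ρ (pr1 (X ^ a) (X ^ b)) V).card : ℝ) ≤ (⌊b * L⌋₊ : ℝ) + 1 := by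
      exact_mod_cast h1
    have h3 := Nat.floor_le (show 0 ≤ b * L by linarith)
    linarith
  have hlow : (ρ - 1) / 2 ≤ Real.log ρ := by
    have h1 := Real.one_sub_inv_le_log_of_pos hρ0
    refine le_trans ?_ h1
    have h2 : 1 - ρ⁻¹ = (ρ - 1) / ρ := by
      field_simp
    rw [h2]
    exact div_le_div_of_nonneg_left (by linarith) hρ0 hρ2
  calc ((spa_W ρ (pr1 (X ^ a) (X ^ b)) V).card : ℝ) ≤ b * L + 1 := hcard
    _ ≤ 2 * (b * L) := by linarith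
    _ ≤ 1 / 2 * L := by nlinarith
    _ = Real.log X / (2 * Real.log ρ) := by
        rw [hL]
        field_simp
    _ ≤ Real.log X / (ρ - 1) :=
        div_le_div_of_nonneg_left hlX.le (by linarith) (by linarith)

/-- Cauchy-Schwarz for the error -/
theorem p5_err {X N S : ℝ} (c : G → ℂ) (k : ℤ) (hN : ((PB X).card : ℝ) ≤ N) (hN0 : 0 ≤ N)
    (hS : ∑ z ∈ PB X, ‖c z‖ ^ 2 ≤ S) : ‖∑ z ∈ PB X, c z * ang k z‖ ^ 2 ≤ N * S := by
  have h1 : ‖∑ z ∈ PB X, c z * ang k z‖ ≤ ∑ z ∈ PB X, 1 * ‖c z‖ := by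
    refine (norm_sum_le _ _).trans (Finset.sum_le_sum fun z _ => ?_)
    rw [norm_mul, mul_comm]
    exact mul_le_mul_of_nonneg_right (ang_le k z) (norm_nonneg _)
  have h2 : (∑ z ∈ PB X, 1 * ‖c z‖) ^ 2 ≤
      (∑ z ∈ PB X, (1 : ℝ) ^ 2) * ∑ z ∈ PB X, ‖c z‖ ^ 2 :=
    Finset.sum_mul_sq_le_sq_mul_sq _ _ _
  have h3 : ∑ z ∈ PB X, (1 : ℝ) ^ 2 = ((PB X).card : ℝ) := by simp
  calc ‖∑ z ∈ PB X, c z * ang k z‖ ^ 2
      ≤ (∑ z ∈ PB X, 1 * ‖c z‖) ^ 2 := pow_le_pow_left₀ (norm_nonneg _) h1 2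
    _ ≤ ((PB X).card : ℝ) * ∑ z ∈ PB X, ‖c z‖ ^ 2 := by
        rw [← h3]
        exact h2
    _ ≤ N * S := mul_le_mul hN hS (Finset.sum_nonneg fun z _ => by positivity) hN0

/-- Cauchy-Schwarz for the main part -/
theorem p5_main {g : G → ℝ} {m : G} (χ : MChar m) (k : ℤ) {X a ρ τ Cq Cs : ℝ} {B : Finset ℕ}
    {V : ℕ} (hX0 : 0 < X) (hlX : 0 < Real.log X) (ha0 : 0 < a) (hρ : 1 < ρ) (hCq0 : 0 < Cq)
    (hCs0 : 0 < Cs) (hτ0 : 0 < τ)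
    (hq : ∀ v ∈ spa_W ρ B V, ‖Qg g χ k (blk ρ v B)‖ ≤
        2 * Cq * (ρ - 1) / (a * Real.log X) * ρ ^ v)
    (hWc : ((spa_W ρ B V).card : ℝ) ≤ Real.log X / (ρ - 1))
    (h5 : ∑ v ∈ spa_W ρ B V, ‖Sg g χ k (X / ρ ^ v)‖ ^ 2 / (X / ρ ^ v) ^ 2 ≤
        Cs / (ρ - 1) * (τ * Real.log X) + Cs * (ρ - 1) ^ 2 * (Real.log X / (ρ - 1))) :
    ‖∑ v ∈ Finset.range V, Qg g χ k (blk ρ v B) * Sg g χ k (X / ρ ^ v)‖ ^ 2 ≤
      4 * Cq ^ 2 * Cs / a ^ 2 * (τ + (ρ - 1) ^ 2) * X ^ 2 := by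
  classical
  have hρ0 : 0 < ρ := by linarith
  have h1 : ∑ v ∈ Finset.range V, Qg g χ k (blk ρ v B) * Sg g χ k (X / ρ ^ v)
      = ∑ v ∈ spa_W ρ B V, Qg g χ k (blk ρ v B) * Sg g χ k (X / ρ ^ v) := by
    symm
    apply Finset.sum_subset (Finset.filter_subset _ _)
    intro v hvV hvW
    have hemp : blk ρ v B = ∅ := by
      by_contra hc
      exact hvW (Finset.mem_filter.mpr ⟨hvV, Finset.nonempty_iff_ne_empty.mpr hc⟩)
    rw [hemp]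
    simp [Qg]
  obtain ⟨R, hR⟩ : ∃ R : ℝ, R = 2 * Cq * (ρ - 1) / (a * Real.log X) * X := ⟨_, rfl⟩
  have h2 : ‖∑ v ∈ spa_W ρ B V, Qg g χ k (blk ρ v B) * Sg g χ k (X / ρ ^ v)‖ ≤
      R * ∑ v ∈ spa_W ρ B V, 1 * (‖Sg g χ k (X / ρ ^ v)‖ / (X / ρ ^ v)) := by
    rw [Finset.mul_sum]
    refine (norm_sum_le _ _).trans (Finset.sum_le_sum fun v hv => ?_)
    have hρv : 0 < ρ ^ v := pow_pos hρ0 v
    rw [norm_mul]
    calc ‖Qg g χ k (blk ρ v B)‖ * ‖Sg g χ k (X / ρ ^ v)‖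
        ≤ (2 * Cq * (ρ - 1) / (a * Real.log X) * ρ ^ v) * ‖Sg g χ k (X / ρ ^ v)‖ :=
          mul_le_mul_of_nonneg_right (hq v hv) (norm_nonneg _)
      _ = R * (1 * (‖Sg g χ k (X / ρ ^ v)‖ / (X / ρ ^ v))) := by
          rw [hR]
          field_simp
  have h3 : (∑ v ∈ spa_W ρ B V, 1 * (‖Sg g χ k (X / ρ ^ v)‖ / (X / ρ ^ v))) ^ 2 ≤
      (∑ v ∈ spa_W ρ B V, (1 : ℝ) ^ 2) *
        ∑ v ∈ spa_W ρ B V, (‖Sg g χ k (X / ρ ^ v)‖ / (X / ρ ^ v)) ^ 2 :=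
    Finset.sum_mul_sq_le_sq_mul_sq _ _ _
  have h4 : ∑ v ∈ spa_W ρ B V, (1 : ℝ) ^ 2 = ((spa_W ρ B V).card : ℝ) := by simp
  have h5' : ∑ v ∈ spa_W ρ B V, (‖Sg g χ k (X / ρ ^ v)‖ / (X / ρ ^ v)) ^ 2 ≤
      Cs / (ρ - 1) * (τ * Real.log X) + Cs * (ρ - 1) ^ 2 * (Real.log X / (ρ - 1)) := by
    refine le_trans (le_of_eq ?_) h5
    apply Finset.sum_congr rfl
    intro v _
    rw [div_pow]
  have h8 : 0 < ρ - 1 := by linarith
  have h9 : (∑ v ∈ spa_W ρ B V, 1 * (‖Sg g χ k (X / ρ ^ v)‖ / (X / ρ ^ v))) ^ 2 ≤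
      Cs * (Real.log X) ^ 2 * (τ / (ρ - 1) ^ 2 + 1) := by
    calc _ ≤ (∑ v ∈ spa_W ρ B V, (1 : ℝ) ^ 2) *
        ∑ v ∈ spa_W ρ B V, (‖Sg g χ k (X / ρ ^ v)‖ / (X / ρ ^ v)) ^ 2 := h3
      _ ≤ (Real.log X / (ρ - 1)) *
        (Cs / (ρ - 1) * (τ * Real.log X) + Cs * (ρ - 1) ^ 2 * (Real.log X / (ρ - 1))) := by
          rw [h4]
          exact mul_le_mul hWc h5' (Finset.sum_nonneg fun v _ => by positivity) (by positivity)
      _ = Cs * (Real.log X) ^ 2 * (τ / (ρ - 1) ^ 2 + 1) := by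
          field_simp
  rw [h1]
  calc ‖∑ v ∈ spa_W ρ B V, Qg g χ k (blk ρ v B) * Sg g χ k (X / ρ ^ v)‖ ^ 2
      ≤ (R * ∑ v ∈ spa_W ρ B V, 1 * (‖Sg g χ k (X / ρ ^ v)‖ / (X / ρ ^ v))) ^ 2 :=
        pow_le_pow_left₀ (norm_nonneg _) h2 2
    _ = R ^ 2 * (∑ v ∈ spa_W ρ B V, 1 * (‖Sg g χ k (X / ρ ^ v)‖ / (X / ρ ^ v))) ^ 2 := by
        rw [mul_pow]
    _ ≤ R ^ 2 * (Cs * (Real.log X) ^ 2 * (τ / (ρ - 1) ^ 2 + 1)) :=
        mul_le_mul_of_nonneg_left h9 (by positivity)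
    _ = 4 * Cq ^ 2 * Cs / a ^ 2 * (τ + (ρ - 1) ^ 2) * X ^ 2 := by
        rw [hR]
        field_simp
        ring

/-- the conclusion from the representation -/
theorem p5_X {g : G → ℝ} {m : G} (χ : MChar m) (k : ℤ) {X P a ρ τ ε η Ct Cb Cq Cs r : ℝ}
    {B : Finset ℕ} {V : ℕ} (hε : 0 < ε) (hCt0 : 0 < Ct) (hCb0 : 0 < Cb) (hCq0 : 0 < Cq)
    (hCs0 : 0 < Cs) (ha0 : 0 < a) (hη : η = ε ^ 2 / (16 * (Cb * Ct)))
    (hτ : τ = ε ^ 2 / (8 * (4 * Cq ^ 2 * Cs / a ^ 2))) (hρ : 1 < ρ) (hρ2 : ρ ≤ 2)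
    (hρη : ρ - 1 ≤ η) (hρτ : ρ - 1 ≤ τ) (hX0 : 0 < X) (hlX : 0 < Real.log X)
    (hlP : 1 ≤ Real.log P) (hr1 : 1 ≤ r) (hr2 : 2 / η ≤ r)
    (hPBc : ((PB (2 * X)).card : ℝ) ≤ Cb * (2 * X)) {c : G → ℂ}
    (hc1 : ∑ z ∈ PB (2 * X), ‖c z‖ ^ 2 ≤
        Ct * X * (1 / r + (ρ - 1) + 1 / (r ^ 2 * Real.log P)))
    (hc2 : Sg g χ k X - (1 / (r : ℂ)) * ∑ v ∈ Finset.range V,
        Qg g χ k (blk ρ v B) * Sg g χ k (X / ρ ^ v) = ∑ z ∈ PB (2 * X), c z * ang k z)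
    (hq : ∀ v ∈ spa_W ρ B V, ‖Qg g χ k (blk ρ v B)‖ ≤
        2 * Cq * (ρ - 1) / (a * Real.log X) * ρ ^ v)
    (hWc : ((spa_W ρ B V).card : ℝ) ≤ Real.log X / (ρ - 1))
    (h5 : ∑ v ∈ spa_W ρ B V, ‖Sg g χ k (X / ρ ^ v)‖ ^ 2 / (X / ρ ^ v) ^ 2 ≤
        Cs / (ρ - 1) * (τ * Real.log X) + Cs * (ρ - 1) ^ 2 * (Real.log X / (ρ - 1))) :
    ‖Sg g χ k X‖ ≤ ε * X := by
  have hη0 : 0 < η := by rw [hη]; positivity
  have hτ0 : 0 < τ := by rw [hτ]; positivity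
  have hr0 : 0 < r := by linarith
  have h4 : 1 / r + (ρ - 1) + 1 / (r ^ 2 * Real.log P) ≤ 2 * η := by
    have g1 : 1 / r ≤ η / 2 := by
      rw [div_le_iff₀ hr0]
      rw [div_le_iff₀ hη0] at hr2
      linarith
    have g2 : 1 / (r ^ 2 * Real.log P) ≤ 1 / r := by
      apply one_div_le_one_div_of_le hr0
      nlinarith
    linarith
  have hE : ‖∑ z ∈ PB (2 * X), c z * ang k z‖ ≤ ε / 2 * X := by
    have h5 := p5_err c k hPBc (by positivity) hc1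
    have h6 : ‖∑ z ∈ PB (2 * X), c z * ang k z‖ ^ 2 ≤ (ε / 2 * X) ^ 2 := by
      refine h5.trans ?_
      calc (Cb * (2 * X)) * (Ct * X * (1 / r + (ρ - 1) + 1 / (r ^ 2 * Real.log P)))
          ≤ (Cb * (2 * X)) * (Ct * X * (2 * η)) := by
            apply mul_le_mul_of_nonneg_left _ (by positivity)
            exact mul_le_mul_of_nonneg_left h4 (by positivity)
        _ = (ε / 2 * X) ^ 2 := by
            rw [hη]
            field_simp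
            ring
    exact (pow_le_pow_iff_left₀ (norm_nonneg _) (by positivity) two_ne_zero).1 h6
  have hA : ‖∑ v ∈ Finset.range V, Qg g χ k (blk ρ v B) * Sg g χ k (X / ρ ^ v)‖ ≤
      ε / 2 * X := by
    have h6 := p5_main χ k hX0 hlX ha0 hρ hCq0 hCs0 hτ0 hq hWc h5
    have h10 : (ρ - 1) ^ 2 ≤ τ := by
      have : ρ - 1 ≤ 1 := by linarith
      nlinarith
    have h11 : 4 * Cq ^ 2 * Cs / a ^ 2 * (τ + (ρ - 1) ^ 2) * X ^ 2 ≤ (ε / 2 * X) ^ 2 := by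
      calc 4 * Cq ^ 2 * Cs / a ^ 2 * (τ + (ρ - 1) ^ 2) * X ^ 2
          ≤ 4 * Cq ^ 2 * Cs / a ^ 2 * (τ + τ) * X ^ 2 := by
            apply mul_le_mul_of_nonneg_right _ (by positivity)
            exact mul_le_mul_of_nonneg_left (by linarith) (by positivity)
        _ = (ε / 2 * X) ^ 2 := by
            rw [hτ]
            field_simp
            ring
    exact (pow_le_pow_iff_left₀ (norm_nonneg _) (by positivity) two_ne_zero).1 (h6.trans h11)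
  obtain ⟨A, hAd⟩ : ∃ A : ℂ, A = ∑ v ∈ Finset.range V,
    Qg g χ k (blk ρ v B) * Sg g χ k (X / ρ ^ v) := ⟨_, rfl⟩
  obtain ⟨E, hEd⟩ : ∃ E : ℂ, E = ∑ z ∈ PB (2 * X), c z * ang k z := ⟨_, rfl⟩
  rw [← hAd, ← hEd] at hc2
  rw [← hAd] at hA
  rw [← hEd] at hE
  have h2 : Sg g χ k X = E + (1 / (r : ℂ)) * A := by
    rw [← hc2]
    ring
  have h3 : ‖(1 / (r : ℂ)) * A‖ ≤ ‖A‖ := by
    rw [norm_mul, norm_div, norm_one, Complex.norm_real, Real.norm_of_nonneg hr0.le]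
    calc 1 / r * ‖A‖ ≤ 1 * ‖A‖ := by
          apply mul_le_mul_of_nonneg_right _ (norm_nonneg _)
          rw [div_le_one hr0]
          exact hr1
      _ = ‖A‖ := one_mul _
  rw [h2]
  calc ‖E + (1 / (r : ℂ)) * A‖ ≤ ‖E‖ + ‖(1 / (r : ℂ)) * A‖ := norm_add_le _ _
    _ ≤ ε / 2 * X + ε / 2 * X := by linarith
    _ = ε * X := by ring

/-- the block bound -/
theorem p5_q {X a ρ Cq l q : ℝ} {v : ℕ} (hX : 0 < Real.log X) (ha : 0 < a) (hρ : 1 < ρ)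
    (hCq : 0 < Cq) (hl : l = Real.log (ρ ^ v)) (hlow : a * Real.log X / 2 ≤ v * Real.log ρ)
    (hq : q ≤ Cq * (ρ - 1) * ρ ^ v / l) :
    q ≤ 2 * Cq * (ρ - 1) / (a * Real.log X) * ρ ^ v := by
  have hρ0 : 0 < ρ := by linarith
  refine hq.trans ?_
  have hρv : 0 < ρ ^ v := pow_pos hρ0 v
  have h3 : 0 < a * Real.log X := by positivity
  have h4 : a * Real.log X / 2 ≤ l := by
    rw [hl, Real.log_pow]
    exact hlow
  have h5 : 0 ≤ Cq * (ρ - 1) * ρ ^ v := by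
    have : 0 ≤ ρ - 1 := by linarith
    positivity
  calc Cq * (ρ - 1) * ρ ^ v / l
      ≤ Cq * (ρ - 1) * ρ ^ v / (a * Real.log X / 2) :=
        div_le_div_of_nonneg_left h5 (by linarith) h4
    _ = 2 * Cq * (ρ - 1) / (a * Real.log X) * ρ ^ v := by
        field_simp

/-- the size of `ρ ^ v` -/
theorem p5_big {X a M₀ : ℝ} (ha0 : 0 < a) (hXM : max 1 M₀ ^ (2 / a) ≤ X) :
    M₀ ≤ X ^ (a / 2) := by
  have h1 : (max 1 M₀ ^ (2 / a)) ^ (a / 2) ≤ X ^ (a / 2) :=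
    Real.rpow_le_rpow (by positivity) hXM (by positivity)
  rw [← Real.rpow_mul (by positivity)] at h1
  have h2 : 2 / a * (a / 2) = 1 := by field_simp
  rw [h2, Real.rpow_one] at h1
  exact (le_max_right _ _).trans h1

/-- the mass -/
theorem p5_mass {X a b r₀ Cm R : ℝ} (hX0 : 0 < X) (hlX : 0 < Real.log X)
    (had : a = b * Real.exp (-(4 * (r₀ + Cm)))) (hb0 : 0 < b)
    (h1 : (1 / 4) * Real.log (Real.log (X ^ b) / Real.log (X ^ a)) - Cm ≤ R) : r₀ ≤ R := by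
  have h2 : Real.log (X ^ b) / Real.log (X ^ a) = Real.exp (4 * (r₀ + Cm)) := by
    rw [Real.log_rpow hX0, Real.log_rpow hX0, had]
    have hl : Real.log X ≠ 0 := hlX.ne'
    rw [Real.exp_neg]
    field_simp
  rw [h2, Real.log_exp] at h1
  linarith

theorem point_g_pr {m : G} (hm : m ≠ 0) (χ : MChar m) (ε : ℝ) (hε : 0 < ε) : ∃ X₀ : ℝ, ∀ X : ℝ,
    X₀ ≤ X → ∀ g : G → ℝ, RG g → ∀ k ∈ Ks X, k ≠ 0 → ‖Sg g χ k X‖ ≤ ε * X := by
  classical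
  obtain ⟨Ct, hCt, htk⟩ := tk_rep_g
  obtain ⟨Cm, hCm, hmer⟩ := mer_lower
  obtain ⟨Cb, hCb, hball⟩ := ball_le
  obtain ⟨Cq, hCq, hQ⟩ := Qg_le
  obtain ⟨Cs, hCs, hS⟩ := sum_scales
  have hCt0 : 0 < Ct := zero_lt_one.trans_le hCt
  have hCb0 : 0 < Cb := zero_lt_one.trans_le hCb
  have hCq0 : 0 < Cq := zero_lt_one.trans_le hCq
  have hCs0 : 0 < Cs := zero_lt_one.trans_le hCs
  -- parameters
  obtain ⟨η, hη⟩ : ∃ η : ℝ, η = ε ^ 2 / (16 * (Cb * Ct)) := ⟨_, rfl⟩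
  have hη0 : 0 < η := by rw [hη]; positivity
  obtain ⟨r₀, hr₀⟩ : ∃ r₀ : ℝ, r₀ = max 1 (2 / η) := ⟨_, rfl⟩
  have hr1 : 1 ≤ r₀ := by rw [hr₀]; exact le_max_left _ _
  have hr2 : 2 / η ≤ r₀ := by rw [hr₀]; exact le_max_right _ _
  obtain ⟨b, hb⟩ : ∃ b : ℝ, b = 1 / 4 := ⟨_, rfl⟩
  have hb0 : 0 < b := by rw [hb]; norm_num
  obtain ⟨a, had⟩ : ∃ a : ℝ, a = b * Real.exp (-(4 * (r₀ + Cm))) := ⟨_, rfl⟩
  have ha0 : 0 < a := by rw [had]; positivity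
  have hab : a ≤ b := by
    rw [had]
    have : Real.exp (-(4 * (r₀ + Cm))) ≤ 1 := by
      rw [Real.exp_le_one_iff]
      have : 0 ≤ r₀ + Cm := by linarith
      linarith
    calc b * Real.exp (-(4 * (r₀ + Cm))) ≤ b * 1 := mul_le_mul_of_nonneg_left this hb0.le
      _ = b := mul_one b
  obtain ⟨τ, hτ⟩ : ∃ τ : ℝ, τ = ε ^ 2 / (8 * (4 * Cq ^ 2 * Cs / a ^ 2)) := ⟨_, rfl⟩
  have hτ0 : 0 < τ := by rw [hτ]; positivity
  obtain ⟨ρ, hρd⟩ : ∃ ρ : ℝ, ρ = 1 + min 1 (min η τ) := ⟨_, rfl⟩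
  have hmin0 : 0 < min 1 (min η τ) := lt_min one_pos (lt_min hη0 hτ0)
  have hρ : 1 < ρ := by linarith
  have hρ2 : ρ ≤ 2 := by
    have : min 1 (min η τ) ≤ 1 := min_le_left _ _
    linarith
  have hρη : ρ - 1 ≤ η := by
    have : min 1 (min η τ) ≤ η := (min_le_right _ _).trans (min_le_left _ _)
    linarith
  have hρτ : ρ - 1 ≤ τ := by
    have : min 1 (min η τ) ≤ τ := (min_le_right _ _).trans (min_le_right _ _)
    linarith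
  have hlρ : 0 < Real.log ρ := Real.log_pos hρ
  obtain ⟨M₀, hQM⟩ := hQ ρ hρ hρ2
  obtain ⟨X₁, hSX⟩ := hS ρ hρ hρ2
  obtain ⟨X₂, hpt⟩ := mr_point_g hm χ τ hτ0
  obtain ⟨X₀, hX₀⟩ := spa_large (X₁ := max X₁ (max X₂ (max 1 M₀ ^ (2 / a)))) ha0 one_pos hρ
  refine ⟨X₀, ?_⟩
  intro X hX g hg k hk hk0
  obtain ⟨hX1, hXX, haX, hXρ⟩ := hX₀ X hX
  have hXX₁ : X₁ ≤ X := (le_max_left _ _).trans hXX
  have hXX₂ : X₂ ≤ X := ((le_max_left _ _).trans (le_max_right _ _)).trans hXX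
  have hM : M₀ ≤ X ^ (a / 2) :=
    p5_big ha0 (((le_max_right _ _).trans (le_max_right _ _)).trans hXX)
  clear hXX hX₀ hX hQ hS hr₀ hmin0 hρd
  have hX0 : 0 < X := zero_lt_one.trans_le hX1
  have hlX : 0 < Real.log X := by
    by_contra hc
    rw [not_lt] at hc
    have := mul_nonpos_of_nonneg_of_nonpos ha0.le hc
    linarith only [haX, this]
  obtain ⟨B, hB⟩ : ∃ B : Finset ℕ, B = pr1 (X ^ a) (X ^ b) := ⟨_, rfl⟩
  have hPset : Pset B := fun p hp => by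
    rw [hB] at hp
    exact ⟨(spa_pr1 hp).1, (spa_pr1 hp).2.1⟩
  obtain ⟨V, hV⟩ : ∃ V : ℕ, V = ⌈b * Real.log X / Real.log ρ⌉₊ := ⟨_, rfl⟩
  have hρ0 : 0 < ρ := zero_lt_one.trans hρ
  have hρV : X ^ b ≤ ρ ^ V := by
    rw [← Real.log_le_log_iff (Real.rpow_pos_of_pos hX0 _) (pow_pos hρ0 V), Real.log_rpow hX0,
      Real.log_pow]
    have := Nat.le_ceil (b * Real.log X / Real.log ρ)
    rw [← hV, div_le_iff₀ hlρ] at this
    exact this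
  have hexp : Real.exp 1 ≤ X ^ a := by
    rw [Real.rpow_def_of_pos hX0, Real.exp_le_exp]
    linarith only [haX]
  have he2 : (2 : ℝ) ≤ Real.exp 1 := by
    have := Real.exp_one_gt_d9
    linarith only [this]
  have hP2 : 2 ≤ X ^ a := he2.trans hexp
  have hlogP1 : 1 ≤ Real.log (X ^ a) := by
    rw [Real.log_rpow hX0 a]
    linarith only [haX]
  -- the mass
  have hrs : r₀ ≤ rs B := by
    have h1 := hmer (X ^ a) (X ^ b) hP2 (Real.rpow_le_rpow_of_exponent_le hX1 hab)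
    rw [← hB] at h1
    exact p5_mass hX0 hlX had hb0 h1
  have hrs1 : 1 ≤ rs B := hr1.trans hrs
  have hW : ∀ v ∈ spa_W ρ B V, a * Real.log X / 2 ≤ v * Real.log ρ ∧ X ^ (a / 2) ≤ ρ ^ v ∧
      ρ ^ v ≤ X ^ b := by
    intro v hv
    rw [hB, spa_W, Finset.mem_filter] at hv
    obtain ⟨f1, -, f3, f4⟩ := spa_facts hX0 haX hρ hρ2 hv.2
    exact ⟨f1, f3, f4⟩
  have hWc : ((spa_W ρ B V).card : ℝ) ≤ Real.log X / (ρ - 1) := by
    rw [hB]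
    exact p5_card hX0 ha0 hab hb.le haX hρ hρ2 V
  -- the representation
  have hp : ∀ p ∈ B, X ^ a < (p : ℝ) ∧ (p : ℝ) ≤ X ^ (1 / 4 : ℝ) ∧ (p : ℝ) ≤ ρ ^ V := by
    intro p hpB
    rw [hB] at hpB
    obtain ⟨-, -, h3, h4⟩ := spa_pr1 hpB
    refine ⟨h3, ?_, h4.trans hρV⟩
    rw [hb] at h4
    exact h4
  obtain ⟨c, hc1, hc2⟩ := htk g hg m χ X ρ (X ^ a) B V hX1 hρ hρ2 hXρ hP2 hPset hp hrs1
  have hPBc : ((PB (2 * X)).card : ℝ) ≤ Cb * (2 * X) := by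
    have hsub : PB (2 * X) ⊆ Bl (2 * X) := by
      intro z hz
      rw [mem_PB] at hz
      exact mem_Bl.mpr ⟨prm_ne hz.1, hz.2⟩
    have h1 : ((PB (2 * X)).card : ℝ) ≤ ((Bl (2 * X)).card : ℝ) := by
      exact_mod_cast Finset.card_le_card hsub
    exact h1.trans (hball _ (by positivity))
  -- the main part
  have hq : ∀ v ∈ spa_W ρ B V, ‖Qg g χ k (blk ρ v B)‖ ≤
      2 * Cq * (ρ - 1) / (a * Real.log X) * ρ ^ v := by
    intro v hv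
    obtain ⟨f1, f3, -⟩ := hW v hv
    have h2 := hQM v (hM.trans f3) g hg m χ k (X ^ a) (X ^ b)
    rw [← hB] at h2
    exact p5_q hlX ha0 hρ hCq0 rfl f1 h2
  have h5 : ∑ v ∈ spa_W ρ B V, ‖Sg g χ k (X / ρ ^ v)‖ ^ 2 / (X / ρ ^ v) ^ 2 ≤
      Cs / (ρ - 1) * (τ * Real.log X) + Cs * (ρ - 1) ^ 2 * (Real.log X / (ρ - 1)) := by
    have h6 := hSX X hXX₁ g hg m χ k (spa_W ρ B V) (fun v hv =>
      ((hW v hv).2.2).trans (Real.rpow_le_rpow_of_exponent_le hX1 (by rw [hb]; norm_num)))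
    have h7 := hpt X hXX₂ g hg k hk hk0
    have h8 : 0 < ρ - 1 := by linarith only [hρ]
    refine h6.trans (add_le_add ?_ ?_)
    · exact mul_le_mul_of_nonneg_left h7 (by positivity)
    · exact mul_le_mul_of_nonneg_left hWc (by positivity)
  exact p5_X χ k hε hCt0 hCb0 hCq0 hCs0 ha0 hη hτ hρ hρ2 hρη hρτ hX0 hlX hlogP1 hrs1
    (hr2.trans hrs) hPBc hc1 (hc2 k) hq hWc h5

theorem point_g : type_of% @point_g_pr := @point_g_pr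

end Pool.Agent.PENT.MRG
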