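import Pool.Agent.Lib_helper39.MRG.Defs
import Pool.Agent.Lib_helper10.T2F.HMO
import Pool.Agent.Lib_helper10.T2F.LSG
import Pool.Agent.Lib_helper10.T2F.MER
import Pool.Agent.Lib_helper10.T2F.MRT
import Pool.Agent.Lib_helper10.T2F.PEL
import Pool.Agent.Lib_helper10.T2F.PHM
import Pool.Agent.Lib_helper10.T2F.PTW
import Pool.Agent.Lib_helper10.T2F.SPA
import Pool.Agent.Lib_helper10.T2F.TFO
import Pool.Agent.Lib_helper10.T2F.SUK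
import Pool.Agent.Lib_helper10.T2F.TJA
import Pool.Agent.Lib_helper10.T2F.TJB
import Pool.Agent.Lib_helper10.T2F.TKA
import Pool.Agent.Lib_helper10.T2F.TKR
import Pool.Agent.Lib_helper10.T2F.TKV
import Pool.Agent.Lib_helper10.T2F.UCD
import Pool.Agent.Lib_helper10.T2F.BPR
import Pool.Agent.Lib_helper10.T2F.CNT
import Pool.Agent.Lib_helper39.MRGF.P4

/-! block P6 of MRG, proved by helper10 -/

/-! # MRG, block P6: from all integers to the scales `X / ρ^v` (helper10) -/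

set_option autoImplicit false

namespace Pool.Agent.PENT.MRG

open Pool.Agent.T2 Filter Topology MeasureTheory

theorem p6_card {a b X : ℝ} (ha : 0 ≤ a) (hab : a ≤ b) (hbX : b ≤ X) :
    b - a - 1 ≤ (((Finset.Icc 1 ⌊X⌋₊).filter (fun n : ℕ => a < (n : ℝ) ∧ (n : ℝ) ≤ b)).card : ℝ) := by
  have hsub : Finset.Ioc ⌊a⌋₊ ⌊b⌋₊ ⊆
      (Finset.Icc 1 ⌊X⌋₊).filter (fun n : ℕ => a < (n : ℝ) ∧ (n : ℝ) ≤ b) := by
    intro n hn
    rw [Finset.mem_Ioc] at hn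
    rw [Finset.mem_filter, Finset.mem_Icc]
    have h1 : a < (n : ℝ) := (Nat.floor_lt ha).1 hn.1
    have h2 : (n : ℝ) ≤ b := (Nat.le_floor_iff (ha.trans hab)).1 hn.2
    refine ⟨⟨by omega, Nat.le_floor (h2.trans hbX)⟩, h1, h2⟩
  have h := Finset.card_le_card hsub
  rw [Nat.card_Ioc] at h
  have h1 : (⌊a⌋₊ : ℝ) ≤ a := Nat.floor_le ha
  have h2 : b < ⌊b⌋₊ + 1 := Nat.lt_floor_add_one b
  have h3 : ⌊b⌋₊ ≤ (⌊b⌋₊ - ⌊a⌋₊) + ⌊a⌋₊ := by omega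
  have h4 : (⌊b⌋₊ : ℝ) ≤ ((⌊b⌋₊ - ⌊a⌋₊ : ℕ) : ℝ) + ⌊a⌋₊ := by exact_mod_cast h3
  have h5 : ((⌊b⌋₊ - ⌊a⌋₊ : ℕ) : ℝ) ≤
      (((Finset.Icc 1 ⌊X⌋₊).filter (fun n : ℕ => a < (n : ℝ) ∧ (n : ℝ) ≤ b)).card : ℝ) := by
    exact_mod_cast h
  linarith

theorem sum_scales_pr : ∃ C : ℝ, 1 ≤ C ∧ ∀ ρ : ℝ, 1 < ρ → ρ ≤ 2 → ∃ X₀ : ℝ, ∀ X : ℝ, X₀ ≤ X →
    ∀ (g : G → ℝ), RG g → ∀ (m : G) (χ : MChar m) (k : ℤ) (S : Finset ℕ),
    (∀ v ∈ S, ρ ^ v ≤ X ^ (1 / 2 : ℝ)) →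
      ∑ v ∈ S, ‖Sg g χ k (X / ρ ^ v)‖ ^ 2 / (X / ρ ^ v) ^ 2 ≤
        C / (ρ - 1) * ∑ n ∈ Finset.Icc 1 ⌊X⌋₊, ‖Sg g χ k n‖ ^ 2 / (n : ℝ) ^ 3 +
          C * (ρ - 1) ^ 2 * S.card := by
  classical
  obtain ⟨C₀, hC₀, hlip⟩ := Sg_lip
  refine ⟨8 * C₀ ^ 2, by nlinarith, fun ρ hρ hρ2 => ⟨16 / (ρ - 1) ^ 4, fun X hX g hg m χ k S hS => ?_⟩⟩
  set e : ℝ := ρ - 1 with he
  have he0 : 0 < e := by linarith
  have he1 : e ≤ 1 := by linarith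
  have hX0 : 0 < X := lt_of_lt_of_le (by positivity) hX
  -- the square root
  have hrt : 4 / e ^ 2 ≤ X ^ (1 / 2 : ℝ) := by
    have h1 : (16 / e ^ 4) ^ (1 / 2 : ℝ) ≤ X ^ (1 / 2 : ℝ) :=
      Real.rpow_le_rpow (by positivity) hX (by norm_num)
    have h2 : (16 / e ^ 4 : ℝ) = (4 / e ^ 2) ^ 2 := by field_simp; norm_num
    rw [h2, ← Real.sqrt_eq_rpow, Real.sqrt_sq (by positivity)] at h1
    exact h1
  have hrr : X ^ (1 / 2 : ℝ) * X ^ (1 / 2 : ℝ) = X := by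
    rw [← Real.rpow_add hX0]; norm_num
  set I : ℕ → Finset ℕ := fun v =>
    (Finset.Icc 1 ⌊X⌋₊).filter (fun n : ℕ => X / ρ ^ (v + 1) < (n : ℝ) ∧ (n : ℝ) ≤ X / ρ ^ v) with hI
  have hterm : ∀ v ∈ S, ‖Sg g χ k (X / ρ ^ v)‖ ^ 2 / (X / ρ ^ v) ^ 2 ≤
      8 / e * ∑ n ∈ I v, ‖Sg g χ k n‖ ^ 2 / (n : ℝ) ^ 3 + 8 * C₀ ^ 2 * e ^ 2 := by
    intro v hv
    have hρv : 0 < ρ ^ v := by positivity
    have hρv1 : 1 ≤ ρ ^ v := one_le_pow₀ hρ.le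
    set u : ℝ := X / ρ ^ v with hu
    have hu0 : 0 < u := by positivity
    have huX : u ≤ X := div_le_self hX0.le hρv1
    have hur : X ^ (1 / 2 : ℝ) ≤ u := by
      rw [hu, le_div_iff₀ hρv]
      calc X ^ (1 / 2 : ℝ) * ρ ^ v ≤ X ^ (1 / 2 : ℝ) * X ^ (1 / 2 : ℝ) :=
            mul_le_mul_of_nonneg_left (hS v hv) (by positivity)
        _ = X := hrr
    have hu4 : 4 / e ^ 2 ≤ u := hrt.trans hur
    have hu4' : 4 ≤ e ^ 2 * u := by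
      rw [div_le_iff₀ (by positivity)] at hu4; linarith
    have hsq : Real.sqrt u ≤ e * u := by
      rw [Real.sqrt_le_left (by positivity)]
      nlinarith
    have heu : 4 ≤ e * u := by nlinarith
    have huρ : X / ρ ^ (v + 1) = u / ρ := by
      rw [hu, pow_succ, div_div]
    have hρ0 : 0 < ρ := by linarith
    have hdiff : e / 2 * u ≤ u - u / ρ := by
      have h1 : u - u / ρ = e * u / ρ := by rw [he]; field_simp
      rw [h1, le_div_iff₀ hρ0]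
      nlinarith [mul_pos he0 hu0]
    have hdiff2 : u - u / ρ ≤ e * u := by
      have h1 : u - u / ρ = e * u / ρ := by rw [he]; field_simp
      rw [h1]
      exact div_le_self (by positivity) hρ.le
    have hcard : e * u / 4 ≤ ((I v).card : ℝ) := by
      have h1 := p6_card (a := u / ρ) (b := u) (X := X) (by positivity)
        (div_le_self hu0.le hρ.le) huX
      have h2 : I v = (Finset.Icc 1 ⌊X⌋₊).filter (fun n : ℕ => u / ρ < (n : ℝ) ∧ (n : ℝ) ≤ u) := by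
        simp only [hI, huρ, ← hu]
      rw [h2]
      nlinarith
    have hn : ∀ n ∈ I v, ‖Sg g χ k u‖ ^ 2 / u ^ 3 ≤
        2 * (‖Sg g χ k n‖ ^ 2 / (n : ℝ) ^ 3) + 8 * C₀ ^ 2 * e ^ 2 / u := by
      intro n hn
      simp only [hI, Finset.mem_filter, Finset.mem_Icc] at hn
      obtain ⟨⟨hn1, _⟩, hn2, hn3⟩ := hn
      have hn1' : (1 : ℝ) ≤ n := by exact_mod_cast hn1
      have hn0 : (0 : ℝ) < n := by linarith
      rw [huρ] at hn2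
      rw [← hu] at hn3
      have h1 := hlip g hg m χ k n u hn1' hn3
      have h2 : ‖Sg g χ k u‖ ≤ ‖Sg g χ k n‖ + 2 * C₀ * e * u := by
        have h3 : ‖Sg g χ k u‖ ≤ ‖Sg g χ k u - Sg g χ k n‖ + ‖Sg g χ k n‖ := by
          have := norm_add_le (Sg g χ k u - Sg g χ k n) (Sg g χ k n)
          rwa [sub_add_cancel] at this
        have h4 : C₀ * (u - n + Real.sqrt u) ≤ C₀ * (2 * e * u) := by
          apply mul_le_mul_of_nonneg_left _ (by linarith)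
          linarith
        linarith
      have h5 : ‖Sg g χ k u‖ ^ 2 ≤ 2 * ‖Sg g χ k n‖ ^ 2 + 8 * C₀ ^ 2 * e ^ 2 * u ^ 2 := by
        have h6 : ‖Sg g χ k u‖ ^ 2 ≤ (‖Sg g χ k n‖ + 2 * C₀ * e * u) ^ 2 :=
          pow_le_pow_left₀ (norm_nonneg _) h2 2
        nlinarith [sq_nonneg (‖Sg g χ k n‖ - 2 * C₀ * e * u)]
      have h7 : ‖Sg g χ k n‖ ^ 2 / u ^ 3 ≤ ‖Sg g χ k n‖ ^ 2 / (n : ℝ) ^ 3 := by
        apply div_le_div_of_nonneg_left (by positivity) (by positivity)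
        exact pow_le_pow_left₀ hn0.le hn3 3
      calc ‖Sg g χ k u‖ ^ 2 / u ^ 3 ≤
            (2 * ‖Sg g χ k n‖ ^ 2 + 8 * C₀ ^ 2 * e ^ 2 * u ^ 2) / u ^ 3 := by gcongr
        _ = 2 * (‖Sg g χ k n‖ ^ 2 / u ^ 3) + 8 * C₀ ^ 2 * e ^ 2 / u := by
            field_simp
        _ ≤ _ := by linarith
    -- average
    have hcard0 : 0 < ((I v).card : ℝ) := lt_of_lt_of_le (by positivity) hcard
    have hsum : ((I v).card : ℝ) * (‖Sg g χ k u‖ ^ 2 / u ^ 3) ≤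
        2 * ∑ n ∈ I v, ‖Sg g χ k n‖ ^ 2 / (n : ℝ) ^ 3 +
          ((I v).card : ℝ) * (8 * C₀ ^ 2 * e ^ 2 / u) := by
      have h := Finset.sum_le_sum hn
      rw [Finset.sum_const, nsmul_eq_mul, Finset.sum_add_distrib, ← Finset.mul_sum,
        Finset.sum_const, nsmul_eq_mul] at h
      exact h
    set A : ℝ := ∑ n ∈ I v, ‖Sg g χ k n‖ ^ 2 / (n : ℝ) ^ 3 with hA
    have hA0 : 0 ≤ A := Finset.sum_nonneg fun n _ => by positivity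
    have h1 : ‖Sg g χ k u‖ ^ 2 / u ^ 3 ≤ 2 * A / ((I v).card : ℝ) + 8 * C₀ ^ 2 * e ^ 2 / u := by
      have h2 : ((I v).card : ℝ) * (‖Sg g χ k u‖ ^ 2 / u ^ 3 - 8 * C₀ ^ 2 * e ^ 2 / u) ≤ 2 * A := by
        rw [mul_sub]; linarith
      have h3 : ‖Sg g χ k u‖ ^ 2 / u ^ 3 - 8 * C₀ ^ 2 * e ^ 2 / u ≤ 2 * A / ((I v).card : ℝ) := by
        rw [le_div_iff₀ hcard0]; linarith
      linarith
    have h2 : 2 * A / ((I v).card : ℝ) ≤ 2 * A / (e * u / 4) :=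
      div_le_div_of_nonneg_left (by positivity) (by positivity) hcard
    calc ‖Sg g χ k u‖ ^ 2 / u ^ 2 = u * (‖Sg g χ k u‖ ^ 2 / u ^ 3) := by field_simp
      _ ≤ u * (2 * A / (e * u / 4) + 8 * C₀ ^ 2 * e ^ 2 / u) :=
          mul_le_mul_of_nonneg_left (by linarith) hu0.le
      _ = 8 / e * A + 8 * C₀ ^ 2 * e ^ 2 := by field_simp; ring
  refine (Finset.sum_le_sum hterm).trans ?_
  rw [Finset.sum_add_distrib, ← Finset.mul_sum, Finset.sum_const, nsmul_eq_mul]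
  have hdisj : ∑ v ∈ S, ∑ n ∈ I v, ‖Sg g χ k n‖ ^ 2 / (n : ℝ) ^ 3 ≤
      ∑ n ∈ Finset.Icc 1 ⌊X⌋₊, ‖Sg g χ k n‖ ^ 2 / (n : ℝ) ^ 3 := by
    rw [← Finset.sum_biUnion]
    · apply Finset.sum_le_sum_of_subset_of_nonneg
      · intro n hn
        rw [Finset.mem_biUnion] at hn
        obtain ⟨v, _, hn⟩ := hn
        exact (Finset.mem_filter.1 hn).1
      · intro n _ _
        positivity
    · have key : ∀ v w : ℕ, v < w → Disjoint (I v) (I w) := by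
        intro v w hvw
        rw [Finset.disjoint_left]
        intro n h1 h2
        simp only [hI, Finset.mem_filter] at h1 h2
        have h3 : X / ρ ^ w ≤ X / ρ ^ (v + 1) :=
          div_le_div_of_nonneg_left hX0.le (by positivity) (pow_le_pow_right₀ hρ.le hvw)
        linarith [h1.2.1, h2.2.2]
      intro v _ w _ hvw
      rcases lt_or_gt_of_ne hvw with h | h
      · exact key v w h
      · exact (key w v h).symm
  have hT0 : 0 ≤ ∑ n ∈ Finset.Icc 1 ⌊X⌋₊, ‖Sg g χ k n‖ ^ 2 / (n : ℝ) ^ 3 :=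
    Finset.sum_nonneg fun n _ => by positivity
  have h8 : 8 / e ≤ 8 * C₀ ^ 2 / e := by
    apply div_le_div_of_nonneg_right _ he0.le
    nlinarith
  have h9 : 8 / e * ∑ v ∈ S, ∑ n ∈ I v, ‖Sg g χ k n‖ ^ 2 / (n : ℝ) ^ 3 ≤
      8 * C₀ ^ 2 / e * ∑ n ∈ Finset.Icc 1 ⌊X⌋₊, ‖Sg g χ k n‖ ^ 2 / (n : ℝ) ^ 3 := by
    calc _ ≤ 8 / e * ∑ n ∈ Finset.Icc 1 ⌊X⌋₊, ‖Sg g χ k n‖ ^ 2 / (n : ℝ) ^ 3 :=
          mul_le_mul_of_nonneg_left hdisj (by positivity)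
      _ ≤ _ := mul_le_mul_of_nonneg_right h8 hT0
  have h10 : (S.card : ℝ) * (8 * C₀ ^ 2 * e ^ 2) = 8 * C₀ ^ 2 * e ^ 2 * S.card := by ring
  rw [h10]
  linarith

theorem sum_scales : type_of% @sum_scales_pr := @sum_scales_pr

end Pool.Agent.PENT.MRG
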