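import Pool.Agent.Lib_helper39.MRGF.L1
import Pool.Agent.Lib_helper39.MRGF.L2
import Pool.Agent.Lib_helper39.MRGF.L3
import Pool.Agent.Lib_helper39.MRGF.L4
import Pool.Agent.Lib_helper39.MRGF.P1
import Pool.Agent.Lib_helper39.MRGF.P2
import Pool.Agent.Lib_helper39.MRGF.P3
import Pool.Agent.Lib_helper39.MRGF.P4
import Pool.Agent.Lib_helper39.MRGF.P5
import Pool.Agent.Lib_helper39.MRGF.P6
import Pool.Agent.Lib_helper39.MRGF.S1
import Pool.Agent.Lib_helper39.MRGF.T1
import Pool.Agent.Lib_helper39.MRGF.Z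

/-! MRG: all blocks -/
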