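import Pool.Agent.Lib_helper39.MRG.Defs
import Pool.Agent.Lib_helper10.T2F.BAS
import Pool.Agent.Lib_helper10.T2F.HMO
import Pool.Agent.Lib_helper10.T2F.LSG
import Pool.Agent.Lib_helper10.T2F.MER
import Pool.Agent.Lib_helper10.T2F.MRT
import Pool.Agent.Lib_helper10.T2F.PEL
import Pool.Agent.Lib_helper10.T2F.PHM
import Pool.Agent.Lib_helper10.T2F.PTW
import Pool.Agent.Lib_helper10.T2F.SPA
import Pool.Agent.Lib_helper10.T2F.TFO
import Pool.Agent.Lib_helper10.T2F.SUK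
import Pool.Agent.Lib_helper10.T2F.TJA
import Pool.Agent.Lib_helper10.T2F.TJB
import Pool.Agent.Lib_helper10.T2F.TKA
import Pool.Agent.Lib_helper10.T2F.TKR
import Pool.Agent.Lib_helper10.T2F.TKV
import Pool.Agent.Lib_helper10.T2F.UCD
import Pool.Agent.Lib_helper10.T2F.BPR
import Pool.Agent.Lib_helper10.T2F.CNT
import Pool.Agent.Lib_helper39.MRGF.L4
import Pool.Agent.Lib_helper39.MRGF.P5
import Pool.Agent.Lib_helper39.MRGF.S1

/-! block Z of MRG, proved by helper39 -/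

set_option autoImplicit false

namespace Pool.Agent.PENT.MRG

open Pool.Agent.T2 Filter Topology MeasureTheory

/-- the trivial character modulo `1` -/
noncomputable def z_chi : MChar (1 : G) where
  f := fun _ => 1
  one := rfl
  mul := fun _ _ => by norm_num
  per := fun _ _ => rfl
  zero := fun z h => absurd (isCoprime_one_right) h
  nrm := fun _ _ => by simp

theorem z_Sg (g : G → ℝ) (k : ℤ) (x : ℝ) :
    Sg g z_chi k x = ∑ z ∈ PB x, (g z : ℂ) * ang k z := by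
  unfold Sg xi z_chi
  simp

theorem mrg_pr (ε : ℝ) (hε : 0 < ε) : ∃ H₀ Y₀ : ℝ, 1 ≤ H₀ ∧ ∀ H : ℝ, H₀ ≤ H → ∀ Y : ℝ, Y₀ ≤ Y →
    ∀ g : G → ℝ, RG g →
      ∑ k ∈ (Ks (Y / H)).erase 0, ‖∑ z ∈ PB Y, (g z : ℂ) * ang k z‖ ^ 2 ≤ ε * Y ^ 2 := by
  classical
  have hm : (1 : G) ≠ 0 := one_ne_zero
  obtain ⟨α, X₁, N, hα, hα1, hsp⟩ := mr_sparse_g z_chi 1 (ε / 4) one_pos le_rfl (by positivity)
  obtain ⟨H₀, X₂, hH, hty⟩ := mr_typical_g z_chi 1 α (ε / 4) one_pos le_rfl hα hα1 (by positivity)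
  set η : ℝ := min 1 (ε / (4 * (N + 1))) with hη
  have hη0 : 0 < η := lt_min one_pos (by positivity)
  have hη1 : η ≤ 1 := min_le_left _ _
  have hη2 : η ≤ ε / (4 * (N + 1)) := min_le_right _ _
  obtain ⟨X₃, hpt⟩ := point_g hm z_chi η hη0
  refine ⟨H₀, max X₁ (max X₂ (max X₃ 1)), hH, ?_⟩
  intro H hHH Y hY g hg
  simp only [max_le_iff] at hY
  obtain ⟨hY1, hY2, hY3, hY4⟩ := hY
  have hY0 : 0 < Y := by linarith
  have hH0 : 0 < H := by linarith
  obtain ⟨U, hU, hUc, hUty⟩ := hty Y hY2 g hg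
  obtain ⟨U', hU', hU'c, hUsp⟩ := hsp Y hY1 g hg U hU hUc
  have hY1' : Y ^ (1 : ℝ) ≤ Y := (Real.rpow_one Y).le
  have h1 := hUty Y hY1' le_rfl
  have h2 := hUsp Y hY1' le_rfl
  have h3 : ∑ k ∈ U'.erase 0, ‖Sg g z_chi k Y‖ ^ 2 ≤ ε / 4 * Y ^ 2 := by
    calc ∑ k ∈ U'.erase 0, ‖Sg g z_chi k Y‖ ^ 2 ≤ ∑ k ∈ U'.erase 0, (η * Y ^ 2) := by
          apply Finset.sum_le_sum
          intro k hk
          rw [Finset.mem_erase] at hk
          have h4 := hpt Y hY3 g hg k (hU (hU' hk.2)) hk.1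
          calc ‖Sg g z_chi k Y‖ ^ 2 ≤ (η * Y) ^ 2 := pow_le_pow_left₀ (norm_nonneg _) h4 2
            _ = (η * η) * Y ^ 2 := by ring
            _ ≤ (η * 1) * Y ^ 2 := by gcongr
            _ = η * Y ^ 2 := by ring
      _ = (U'.erase 0).card * (η * Y ^ 2) := by rw [Finset.sum_const, nsmul_eq_mul]
      _ ≤ N * (η * Y ^ 2) := by
          have h5 : ((U'.erase 0).card : ℝ) ≤ N := by
            have := (Finset.card_erase_le (a := (0 : ℤ)) (s := U')).trans hU'c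
            exact_mod_cast this
          gcongr
      _ ≤ N * (ε / (4 * (N + 1)) * Y ^ 2) := by gcongr
      _ ≤ ε / 4 * Y ^ 2 := by
          have h6 : (N : ℝ) * (ε / (4 * (N + 1))) ≤ ε / 4 := by
            rw [mul_div_assoc', div_le_iff₀ (by positivity)]
            nlinarith
          calc (N : ℝ) * (ε / (4 * (N + 1)) * Y ^ 2) = (N : ℝ) * (ε / (4 * (N + 1))) * Y ^ 2 := by
                ring
            _ ≤ ε / 4 * Y ^ 2 := by gcongr
  have hsub : (Ks (Y / H)).erase 0 ⊆ (Ks (Y / H₀) \ U) ∪ ((U \ U') ∪ U'.erase 0) := by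
    intro k hk
    rw [Finset.mem_erase] at hk
    have hk1 : k ∈ Ks (Y / H₀) := by
      rw [mem_Ks] at hk ⊢
      refine hk.2.trans ?_
      exact div_le_div_of_nonneg_left hY0.le (by linarith) hHH
    rw [Finset.mem_union, Finset.mem_union, Finset.mem_sdiff, Finset.mem_sdiff, Finset.mem_erase]
    tauto
  calc ∑ k ∈ (Ks (Y / H)).erase 0, ‖∑ z ∈ PB Y, (g z : ℂ) * ang k z‖ ^ 2
      = ∑ k ∈ (Ks (Y / H)).erase 0, ‖Sg g z_chi k Y‖ ^ 2 := by
        apply Finset.sum_congr rfl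
        intro k _
        rw [z_Sg]
    _ ≤ ∑ k ∈ (Ks (Y / H₀) \ U) ∪ ((U \ U') ∪ U'.erase 0), ‖Sg g z_chi k Y‖ ^ 2 :=
        Finset.sum_le_sum_of_subset_of_nonneg hsub (fun _ _ _ => by positivity)
    _ ≤ ∑ k ∈ Ks (Y / H₀) \ U, ‖Sg g z_chi k Y‖ ^ 2 +
        (∑ k ∈ U \ U', ‖Sg g z_chi k Y‖ ^ 2 + ∑ k ∈ U'.erase 0, ‖Sg g z_chi k Y‖ ^ 2) := by
        have hd1 : Disjoint (Ks (Y / H₀) \ U) ((U \ U') ∪ U'.erase 0) := by
          rw [Finset.disjoint_left]
          intro k hk hk2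
          rw [Finset.mem_sdiff] at hk
          rw [Finset.mem_union, Finset.mem_sdiff, Finset.mem_erase] at hk2
          rcases hk2 with h | h
          · exact hk.2 h.1
          · exact hk.2 (hU' h.2)
        have hd2 : Disjoint (U \ U') (U'.erase 0) := by
          rw [Finset.disjoint_left]
          intro k hk hk2
          rw [Finset.mem_sdiff] at hk
          rw [Finset.mem_erase] at hk2
          exact hk.2 hk2.2
        rw [Finset.sum_union hd1, Finset.sum_union hd2]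
    _ ≤ ε * Y ^ 2 := by
        have : 0 ≤ ε * Y ^ 2 := by positivity
        linarith

theorem mrg : type_of% @mrg_pr := @mrg_pr

end Pool.Agent.PENT.MRG
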